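import Mathlib

/-! # Fixing parities of finite cuts by compactness -/

open Set

namespace Pool.H66.HC

lemma parity_finite {E W : Type*} [AddCommGroup W] [Module (ZMod 2) W]
    (D : W →ₗ[ZMod 2] (E → ZMod 2)) (A : Set E)
    (hA : ∀ χ, (∀ e ∉ A, D χ e = 0) → D χ = 0) (u : Finset W) (s : Finset E)
    (hs : ∀ χ ∈ u, ∀ e ∉ s, D χ e = 0) :
    ∃ c : E → ZMod 2, (∀ e ∈ A, c e = 1) ∧ ∀ χ ∈ u, ∑ e ∈ s, D χ e * c e = 0 := by
  classical
  let ind : E → ZMod 2 := fun e => if e ∈ A then 1 else 0
  let ind' : E → ZMod 2 := fun e => if e ∈ A then 0 else 1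
  let Φ : (E → ZMod 2) →ₗ[ZMod 2] (u → ZMod 2) :=
    { toFun := fun d χ => ∑ e ∈ s, D χ.1 e * (ind' e * d e)
      map_add' := by
        intro d d'
        funext χ
        simp only [Pi.add_apply, mul_add, Finset.sum_add_distrib]
      map_smul' := by
        intro a d
        funext χ
        simp only [Pi.smul_apply, smul_eq_mul, RingHom.id_apply, Finset.mul_sum]
        refine Finset.sum_congr rfl fun e _ => ?_
        ring }
  let b : u → ZMod 2 := fun χ => ∑ e ∈ s, D χ.1 e * ind e
  have hb : b ∈ LinearMap.range Φ := by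
    by_contra hcon
    obtain ⟨f, hf, hle⟩ := Submodule.exists_le_ker_of_notMem hcon
    have hf0 : ∀ d, f (Φ d) = 0 := fun d => hle ⟨d, rfl⟩
    have hfy : ∀ y : u → ZMod 2, f y = ∑ χ : u, f (Pi.single χ 1) * y χ := by
      intro y
      conv_lhs => rw [← Finset.univ_sum_single y]
      rw [map_sum]
      refine Finset.sum_congr rfl fun χ _ => ?_
      have : (Pi.single χ (y χ) : u → ZMod 2) = y χ • Pi.single χ 1 := by
        rw [← Pi.single_smul, smul_eq_mul, mul_one]
      rw [this, map_smul, smul_eq_mul, mul_comm]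
    let χ0 : W := ∑ χ : u, f (Pi.single χ 1) • χ.1
    have hD0 : ∀ e, D χ0 e = ∑ χ : u, f (Pi.single χ 1) * D χ.1 e := by
      intro e
      simp only [χ0, map_sum, map_smul, Finset.sum_apply, Pi.smul_apply, smul_eq_mul]
    have h0 : D χ0 = 0 := by
      apply hA
      intro e he
      by_cases hes : e ∈ s
      · have h1 := hf0 (Pi.single e 1)
        rw [hfy] at h1
        rw [hD0, ← h1]
        refine Finset.sum_congr rfl fun χ _ => ?_
        congr 1
        show _ = ∑ e' ∈ s, D χ.1 e' * (ind' e' * (Pi.single e 1 : E → ZMod 2) e')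
        rw [Finset.sum_eq_single_of_mem e hes]
        · simp [ind', he]
        · intro e' _ hne
          simp [Pi.single_eq_of_ne hne]
      · rw [hD0]
        refine Finset.sum_eq_zero fun χ _ => ?_
        rw [hs χ.1 χ.2 e hes, mul_zero]
    apply hf
    rw [hfy]
    show ∑ χ : u, f (Pi.single χ 1) * ∑ e ∈ s, D χ.1 e * ind e = 0
    have h2 : ∑ χ : u, f (Pi.single χ 1) * ∑ e ∈ s, D χ.1 e * ind e
        = ∑ e ∈ s, D χ0 e * ind e := by
      simp only [Finset.mul_sum]
      rw [Finset.sum_comm]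
      refine Finset.sum_congr rfl fun e _ => ?_
      rw [hD0, Finset.sum_mul]
      refine Finset.sum_congr rfl fun χ _ => ?_
      ring
    rw [h2, h0]
    simp
  obtain ⟨d, hd⟩ := hb
  refine ⟨fun e => ind e + ind' e * d e, ?_, ?_⟩
  · intro e he
    simp [ind, ind', he]
  · intro χ hχ
    have h1 : ∑ e ∈ s, D χ e * (ind' e * d e) = ∑ e ∈ s, D χ e * ind e :=
      congrFun hd ⟨χ, hχ⟩
    simp only [mul_add, Finset.sum_add_distrib]
    rw [h1]
    exact CharTwo.add_self_eq_zero _

theorem parity_fix {E W : Type*} [AddCommGroup W] [Module (ZMod 2) W]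
    (D : W →ₗ[ZMod 2] (E → ZMod 2)) (hfin : ∀ χ, {e | D χ e ≠ 0}.Finite) (A : Set E)
    (hA : ∀ χ, (∀ e ∉ A, D χ e = 0) → D χ = 0) :
    ∃ c : E → ZMod 2, (∀ e ∈ A, c e = 1) ∧ ∀ χ, ∑ e ∈ (hfin χ).toFinset, D χ e * c e = 0 := by
  classical
  let _ : TopologicalSpace (ZMod 2) := ⊥
  have : DiscreteTopology (ZMod 2) := ⟨rfl⟩
  have : CompactSpace (ZMod 2) := Finite.compactSpace
  have hcomp : IsCompact (univ : Set (E → ZMod 2)) := isCompact_univ
  let t : W → Set (E → ZMod 2) := fun χ =>
    {c | (∀ e ∈ A, c e = 1) ∧ ∑ e ∈ (hfin χ).toFinset, D χ e * c e = 0}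
  have hcl : ∀ χ, IsClosed (t χ) := by
    intro χ
    have h1 : IsClosed {c : E → ZMod 2 | ∀ e ∈ A, c e = 1} := by
      have : {c : E → ZMod 2 | ∀ e ∈ A, c e = 1} = ⋂ e ∈ A, {c | c e = 1} := by
        ext c; simp
      rw [this]
      exact isClosed_biInter fun e _ => isClosed_eq (continuous_apply e) continuous_const
    have h2 : IsClosed {c : E → ZMod 2 | ∑ e ∈ (hfin χ).toFinset, D χ e * c e = 0} := by
      refine isClosed_eq ?_ continuous_const
      -- a finite sum of continuous functions to a discrete space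
      have key : ∀ s : Finset E, Continuous fun c : E → ZMod 2 => ∑ e ∈ s, D χ e * c e := by
        intro s
        induction s using Finset.induction_on with
        | empty => simp only [Finset.sum_empty]; exact continuous_const
        | insert a s ha ih =>
          simp only [Finset.sum_insert ha]
          have h3 : Continuous fun c : E → ZMod 2 => (c a, ∑ e ∈ s, D χ e * c e) :=
            (continuous_apply a).prodMk ih
          have h4 : Continuous fun q : ZMod 2 × ZMod 2 => D χ a * q.1 + q.2 :=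
            continuous_of_discreteTopology
          exact h4.comp h3
      exact key _
    exact h1.inter h2
  have hne : ∀ u : Finset W, ((univ : Set (E → ZMod 2)) ∩ ⋂ χ ∈ u, t χ).Nonempty := by
    intro u
    let s : Finset E := u.biUnion fun χ => (hfin χ).toFinset
    obtain ⟨c, hc1, hc2⟩ := parity_finite D A hA u s (by
      intro χ hχ e he
      by_contra hcon
      apply he
      exact Finset.mem_biUnion.2 ⟨χ, hχ, (Set.Finite.mem_toFinset _).2 hcon⟩)
    refine ⟨c, mem_univ _, ?_⟩
    simp only [mem_iInter]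
    intro χ hχ
    refine ⟨hc1, ?_⟩
    refine Eq.trans ?_ (hc2 χ hχ)
    apply Finset.sum_subset
    · intro e he
      exact Finset.mem_biUnion.2 ⟨χ, hχ, he⟩
    · intro e _ he
      have : D χ e = 0 := by
        by_contra hcon
        exact he ((Set.Finite.mem_toFinset _).2 hcon)
      rw [this, zero_mul]
  obtain ⟨c, _, hc⟩ := hcomp.inter_iInter_nonempty t hcl hne
  rw [mem_iInter] at hc
  exact ⟨c, (hc 0).1, fun χ => (hc χ).2⟩

end Pool.H66.HC
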