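import Pool.Agent.Helper66.HC.Final
import Pool.Agent.Helper66.HC.Parity

/-! # From an end-faithful connected subgraph with cut-meeting complement to a Hamilton circle -/

open Set

namespace Pool.H66.HC

universe u

variable {V : Type u} {G H : SimpleGraph V}

/-- the edges of `G` between `X` and its complement -/
def cutE (G : SimpleGraph V) (X : Set V) : Set G.edgeSet :=
  {e | ∃ u ∈ X, ∃ v, v ∉ X ∧ e.1 = s(u, v)}

/-- the combinatorial input: `H` is a connected spanning subgraph of `G`, end-faithful, and the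
edges of `G` outside `H` meet every finite cut -/
structure Good2 (G H : SimpleGraph V) : Prop where
  le : H ≤ G
  conn : H.Preconnected
  ef : ∀ K : Finset V, ∃ L : Finset V, K ⊆ L ∧ ∀ u v (hu : u ∉ L) (hv : v ∉ L)
    (hu' : u ∉ K) (hv' : v ∉ K), (G.induce (L : Set V)ᶜ).Reachable ⟨u, hu⟩ ⟨v, hv⟩ →
    (H.induce (K : Set V)ᶜ).Reachable ⟨u, hu'⟩ ⟨v, hv'⟩
  cut : ∀ X : Set V, X.Nonempty → Xᶜ.Nonempty → (cutE G X).Finite →
    ∃ u ∈ X, ∃ v, v ∉ X ∧ G.Adj u v ∧ ¬ H.Adj u v

section countable

lemma countable_of_locally_finite (hlf : ∀ v, (G.neighborSet v).Finite) (hc : G.Preconnected) :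
    Countable V := by
  rcases isEmpty_or_nonempty V with h | ⟨⟨r⟩⟩
  · infer_instance
  have hfin : ∀ n : ℕ, {v | ∃ p : G.Walk r v, p.length = n}.Finite := by
    intro n
    induction n with
    | zero =>
      refine (finite_singleton r).subset ?_
      rintro v ⟨p, hp⟩
      exact (SimpleGraph.Walk.eq_of_length_eq_zero hp).symm
    | succ n ih =>
      refine (ih.biUnion fun v _ => hlf v).subset ?_
      rintro v ⟨p, hp⟩
      have hp' : ¬ p.Nil := by
        rw [← SimpleGraph.Walk.length_eq_zero_iff]; omega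
      simp only [mem_iUnion]
      refine ⟨p.penultimate, ⟨p.dropLast, ?_⟩, p.adj_penultimate hp'⟩
      have := p.length_dropLast_add_one hp'
      omega
  have : (univ : Set V) = ⋃ n : ℕ, {v | ∃ p : G.Walk r v, p.length = n} := by
    ext v
    simp only [mem_univ, mem_iUnion, true_iff]
    obtain ⟨p⟩ := hc r v
    exact ⟨p.length, p, rfl⟩
  rw [← Set.countable_univ_iff, this]
  exact Set.countable_iUnion fun n => (hfin n).countable

lemma countable_edgeSet (hlf : ∀ v, (G.neighborSet v).Finite) (hc : G.Preconnected) :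
    Countable G.edgeSet := by
  have := countable_of_locally_finite hlf hc
  have : Countable (Sym2 V) := inferInstance
  infer_instance

end countable

section

variable (hlf : ∀ v, (G.neighborSet v).Finite)

include hlf in
/-- the edges at a vertex -/
lemma finite_incident (v : V) : {e : G.edgeSet | v ∈ e.1}.Finite := by
  have h1 : ((fun w => s(v, w)) '' G.neighborSet v).Finite := (hlf v).image _
  refine Set.Finite.of_finite_image (f := Subtype.val) (h1.subset ?_) Subtype.val_injective.injOn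
  rintro _ ⟨⟨e, he⟩, hv, rfl⟩
  induction e using Sym2.ind with
  | _ a b =>
    rcases Sym2.mem_iff.1 hv with rfl | rfl
    · exact ⟨b, he, rfl⟩
    · exact ⟨a, G.adj_symm he, Sym2.eq_swap⟩

include hlf in
lemma finite_incident_set (S : Finset V) : {e : G.edgeSet | ∃ v ∈ S, v ∈ e.1}.Finite := by
  refine (S.finite_toSet.biUnion fun v _ => finite_incident hlf v).subset ?_
  rintro e ⟨v, hv, hve⟩
  simp only [mem_iUnion]
  exact ⟨v, hv, hve⟩

include hlf in
lemma lineGraph_lf (e : G.edgeSet) : (G.lineGraph.neighborSet e).Finite := by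
  obtain ⟨e, he⟩ := e
  induction e using Sym2.ind with
  | _ a b =>
    refine ((finite_incident hlf a).union (finite_incident hlf b)).subset ?_
    intro f hf
    rw [SimpleGraph.mem_neighborSet, SimpleGraph.lineGraph_adj_iff_exists] at hf
    obtain ⟨_, v, hv, hvf⟩ := hf
    rcases Sym2.mem_iff.1 hv with rfl | rfl
    · exact Or.inl hvf
    · exact Or.inr hvf

open Classical in
/-- the vertices of a finite edge set -/
noncomputable def vset (F : Finset G.edgeSet) : Finset V := F.biUnion fun e => e.1.toFinset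

lemma mem_vset {F : Finset G.edgeSet} {e : G.edgeSet} (he : e ∈ F) {v : V} (hv : v ∈ e.1) :
    v ∈ vset F := by
  classical
  rw [vset, Finset.mem_biUnion]
  exact ⟨e, he, Sym2.mem_toFinset.2 hv⟩

end

section mg

variable (T : Set G.edgeSet)

/-- a vertex of an edge -/
noncomputable def base (e : G.edgeSet) : V := e.1.out.1

lemma base_mem (e : G.edgeSet) : base e ∈ e.1 := Sym2.out_fst_mem _

/-- The multigraph: the edges in `T` are as in `G`, the others are loops. -/
noncomputable def mg : MG V G.edgeSet where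
  lk e u v := (e ∈ T ∧ e.1 = s(u, v)) ∨ (e ∉ T ∧ u = base e ∧ v = base e)
  symm := by
    rintro e u v (⟨h1, h2⟩ | ⟨h1, h2, h3⟩)
    · exact Or.inl ⟨h1, h2.trans Sym2.eq_swap⟩
    · exact Or.inr ⟨h1, h3, h2⟩
  uniq := by
    rintro e u v u' v' (⟨h1, h2⟩ | ⟨h1, h2, h3⟩) (⟨h1', h2'⟩ | ⟨h1', h2', h3'⟩)
    · rw [h2] at h2'
      rcases Sym2.eq_iff.1 h2' with ⟨rfl, rfl⟩ | ⟨rfl, rfl⟩
      · exact Or.inl ⟨rfl, rfl⟩
      · exact Or.inr ⟨rfl, rfl⟩
    · exact absurd h1 h1'
    · exact absurd h1' h1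
    · subst h2; subst h3; subst h2'; subst h3'; exact Or.inl ⟨rfl, rfl⟩
  ex := by
    intro e
    by_cases h : e ∈ T
    · obtain ⟨e, he⟩ := e
      induction e using Sym2.ind with
      | _ a b => exact ⟨a, b, Or.inl ⟨h, rfl⟩⟩
    · exact ⟨base e, base e, Or.inr ⟨h, rfl, rfl⟩⟩

lemma mg_mem {e : G.edgeSet} {u v : V} (h : (mg T).lk e u v) : u ∈ e.1 ∧ v ∈ e.1 := by
  rcases h with ⟨_, h2⟩ | ⟨_, rfl, rfl⟩
  · rw [h2]; simp
  · exact ⟨base_mem e, base_mem e⟩

lemma mg_cross {X : Set V} {e : G.edgeSet} : Cross (mg T) X e ↔ e ∈ T ∧ e ∈ cutE G X := by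
  constructor
  · rintro ⟨u, hu, v, hv, ⟨h1, h2⟩ | ⟨h1, rfl, rfl⟩⟩
    · exact ⟨h1, u, hu, v, hv, h2⟩
    · exact absurd hu hv
  · rintro ⟨h1, u, hu, v, hv, h2⟩
    exact ⟨u, hu, v, hv, Or.inl ⟨h1, h2⟩⟩

end mg

/-- parity fixing for the cuts of a graph -/
theorem exists_even (hH : Good2 G H) :
    ∃ T : Set G.edgeSet, (∀ e : G.edgeSet, e.1 ∈ H.edgeSet → e ∈ T) ∧
      ∀ X : Set V, (cutE G X).Finite → Even {e | e ∈ T ∧ e ∈ cutE G X}.ncard := by
  classical
  -- the coboundary
  let dl : (V → ZMod 2) →ₗ[ZMod 2] (G.edgeSet → ZMod 2) :=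
    { toFun := fun χ e => Sym2.lift ⟨fun a b => χ a + χ b, fun a b => add_comm _ _⟩ e.1
      map_add' := by
        intro χ χ'
        funext e
        obtain ⟨e, he⟩ := e
        induction e using Sym2.ind with
        | _ a b => simp only [Sym2.lift_mk, Pi.add_apply]; ring
      map_smul' := by
        intro a χ
        funext e
        obtain ⟨e, he⟩ := e
        induction e using Sym2.ind with
        | _ a b => simp only [Sym2.lift_mk, Pi.smul_apply, smul_eq_mul, RingHom.id_apply]; ring }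
  have hdl : ∀ (χ : V → ZMod 2) (e : G.edgeSet) (a b : V), e.1 = s(a, b) → dl χ e = χ a + χ b := by
    intro χ e a b hab
    show Sym2.lift ⟨fun a b => χ a + χ b, fun a b => add_comm _ _⟩ e.1 = _
    rw [hab, Sym2.lift_mk]
  let W : Submodule (ZMod 2) (V → ZMod 2) :=
    { carrier := {χ | {e | dl χ e ≠ 0}.Finite}
      add_mem' := by
        intro χ χ' h h'
        refine (Set.Finite.union h h').subset ?_
        intro e he
        by_contra hcon
        simp only [mem_union, mem_ofPred_eq, not_or, not_not] at hcon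
        apply he
        rw [map_add, Pi.add_apply, hcon.1, hcon.2, add_zero]
      zero_mem' := by
        simp
      smul_mem' := by
        intro a χ h
        refine Set.Finite.subset h ?_
        intro e he hcon
        apply he
        rw [map_smul, Pi.smul_apply, hcon, smul_zero] }
  let D : W →ₗ[ZMod 2] (G.edgeSet → ZMod 2) := dl.comp W.subtype
  have hz : ∀ a : ZMod 2, a = 0 ∨ a = 1 := by decide
  have hD : ∀ χ : W, {e | D χ e ≠ 0}.Finite := fun χ => χ.2
  let A : Set G.edgeSet := {e | e.1 ∈ H.edgeSet}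
  have hA : ∀ χ : W, (∀ e ∉ A, D χ e = 0) → D χ = 0 := by
    intro χ hχ
    let X : Set V := {v | χ.1 v = 1}
    have hcut : ∀ e, e ∈ cutE G X → D χ e ≠ 0 := by
      rintro e ⟨u, hu, v, hv, huv⟩
      have h1 : D χ e = χ.1 u + χ.1 v := hdl _ _ _ _ huv
      have h2 : χ.1 v = 0 := by
        rcases hz (χ.1 v) with h | h
        · exact h
        · exact absurd h hv
      have h3 : χ.1 u = 1 := hu
      rw [h1, h2, h3]
      decide
    have hfin : (cutE G X).Finite := (hD χ).subset hcut
    have htriv : X = ∅ ∨ Xᶜ = ∅ := by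
      by_contra hcon
      push Not at hcon
      obtain ⟨u, hu, v, hv, huv, hnot⟩ := hH.cut X hcon.1 hcon.2 hfin
      let e : G.edgeSet := ⟨s(u, v), huv⟩
      exact hcut e ⟨u, hu, v, hv, rfl⟩ (hχ e hnot)
    funext e
    obtain ⟨e, he⟩ := e
    induction e using Sym2.ind with
    | _ a b =>
      have h1 : D χ ⟨s(a, b), he⟩ = χ.1 a + χ.1 b := hdl _ _ _ _ rfl
      rw [h1]
      rcases htriv with h | h
      · have h2 : ∀ v, χ.1 v = 0 := by
          intro v
          rcases hz (χ.1 v) with h' | h'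
          · exact h'
          · exact absurd (show v ∈ X from h') (by rw [h]; exact notMem_empty v)
        rw [h2, h2]; rfl
      · have h2 : ∀ v, χ.1 v = 1 := by
          intro v
          by_contra hcon
          have : v ∈ Xᶜ := hcon
          rw [h] at this
          exact this
        rw [h2, h2]; rfl
  obtain ⟨c, hc1, hc2⟩ := parity_fix D hD A hA
  refine ⟨{e | c e = 1}, fun e he => hc1 e he, ?_⟩
  intro X hX
  let χ : V → ZMod 2 := fun v => if v ∈ X then 1 else 0
  have hχ : ∀ e : G.edgeSet, dl χ e ≠ 0 ↔ e ∈ cutE G X := by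
    intro e
    obtain ⟨e, he⟩ := e
    induction e using Sym2.ind with
    | _ a b =>
      rw [hdl χ _ a b rfl]
      constructor
      · intro h
        by_cases ha : a ∈ X
        · by_cases hb : b ∈ X
          · exfalso; apply h; simp only [χ, ha, hb, if_true]; rfl
          · exact ⟨a, ha, b, hb, rfl⟩
        · by_cases hb : b ∈ X
          · exact ⟨b, hb, a, ha, Sym2.eq_swap⟩
          · exfalso; apply h; simp only [χ, ha, hb, if_false]; rfl
      · rintro ⟨u, hu, v, hv, huv⟩
        rcases Sym2.eq_iff.1 huv with ⟨rfl, rfl⟩ | ⟨rfl, rfl⟩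
        · simp only [χ, hu, hv, if_true, if_false]; decide
        · simp only [χ, hu, hv, if_true, if_false]; decide
  have hW : χ ∈ W := by
    refine hX.subset ?_
    intro e he
    exact (hχ e).1 he
  have h1 := hc2 ⟨χ, hW⟩
  have h2 : ∑ e ∈ (hD ⟨χ, hW⟩).toFinset, D ⟨χ, hW⟩ e * c e
      = (({e | c e = 1 ∧ e ∈ cutE G X}.ncard : ℕ) : ZMod 2) := by
    have h3 : ∀ e ∈ (hD ⟨χ, hW⟩).toFinset, D ⟨χ, hW⟩ e * c e = if c e = 1 then 1 else 0 := by
      intro e he
      have h4 : D ⟨χ, hW⟩ e ≠ 0 := (Set.Finite.mem_toFinset _).1 he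
      have h5 : D ⟨χ, hW⟩ e = 1 := by
        rcases hz (D ⟨χ, hW⟩ e) with h | h
        · exact absurd h h4
        · exact h
      rw [h5, one_mul]
      rcases hz (c e) with h | h
      · rw [h]; decide
      · rw [h]; decide
    rw [Finset.sum_congr rfl h3, ← Finset.sum_filter, Finset.sum_const, nsmul_eq_mul, mul_one]
    congr 1
    have h6 : {e | c e = 1 ∧ e ∈ cutE G X}
        = (((hD ⟨χ, hW⟩).toFinset.filter fun e => c e = 1 : Finset G.edgeSet) : Set G.edgeSet) := by
      ext e
      simp only [mem_ofPred_eq, Finset.coe_filter, Set.Finite.mem_toFinset]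
      constructor
      · rintro ⟨h7, h8⟩; exact ⟨(hχ e).2 h8, h7⟩
      · rintro ⟨h7, h8⟩; exact ⟨h8, (hχ e).1 h7⟩
    rw [h6, Set.ncard_coe_finset]
  rw [h2] at h1
  have := (ZMod.natCast_eq_zero_iff_even).1 h1
  exact this

end Pool.H66.HC
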