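import Pool.Agent.Helper66.HC.Bases

/-! # The finite step: two disjoint structures up to wall `n` -/

open Set

namespace Pool.H66.HC

universe u

variable {V : Type u} {G : SimpleGraph V} {C : ℕ → Set V}

lemma fr_le_two_mul {D : SimpleGraph V} {F : Finset (Sym2 V)}
    (hD : ∀ u v, G.Adj u v → ¬ D.Adj u v → s(u, v) ∈ F) :
    (rmv G D).Finite ∧ fr G D univ ≤ 2 * F.card := by
  classical
  let T : Finset (V × V) := F.biUnion fun e => {e.out, e.out.swap}
  have hsub : rmv G D ⊆ (T : Set (V × V)) := by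
    rintro ⟨u, v⟩ ⟨h1, h2⟩
    have hF := hD u v h1 h2
    rw [Finset.mem_coe, Finset.mem_biUnion]
    refine ⟨_, hF, ?_⟩
    have h : s((s(u, v)).out.1, (s(u, v)).out.2) = s(u, v) := Quot.out_eq _
    rw [Finset.mem_insert, Finset.mem_singleton]
    rcases Sym2.eq_iff.1 h with ⟨h1, h2⟩ | ⟨h1, h2⟩
    · left; exact Prod.ext h1.symm h2.symm
    · right; exact Prod.ext h2.symm h1.symm
  have hfin : (rmv G D).Finite := T.finite_toSet.subset hsub
  refine ⟨hfin, ?_⟩
  unfold fr cnt
  have h1 : ({p | p ∈ rmv G D ∧ p.1 ∈ univ} : Set (V × V)) ⊆ (T : Set (V × V)) :=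
    fun p hp => hsub hp.1
  refine (Set.ncard_le_ncard h1 T.finite_toSet).trans ?_
  rw [Set.ncard_coe_finset]
  refine Finset.card_biUnion_le.trans ?_
  have : ∀ e ∈ F, ({e.out, e.out.swap} : Finset (V × V)).card ≤ 2 := fun e _ =>
    Finset.card_le_two
  refine (Finset.sum_le_card_nsmul _ _ _ this).trans ?_
  rw [smul_eq_mul, mul_comm]

/-- the functional given by `g` -/
noncomputable def fnl {W : Type*} (g : W → ℚ) : (W →₀ ℚ) →ₗ[ℚ] ℚ := Finsupp.linearCombination ℚ g

lemma fnl_single {W : Type*} (g : W → ℚ) (w : W) : fnl g (Finsupp.single w 1) = g w := by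
  unfold fnl
  rw [Finsupp.linearCombination_single, one_smul]

lemma fnl_zero {W : Type*} (g : W → ℚ) {ψ : V → V → (W →₀ ℚ)} (hψ : ∀ u v, ψ u v = - ψ v u)
    {I : Set (Sym2 V)} (h : ∀ u v, s(u, v) ∈ I → fnl g (ψ u v) = 0) {x : W →₀ ℚ}
    (hx : x ∈ Submodule.span ℚ (evec ψ '' I)) : fnl g x = 0 := by
  have : Submodule.span ℚ (evec ψ '' I) ≤ LinearMap.ker (fnl g) := by
    rw [Submodule.span_le]
    rintro _ ⟨e, he, rfl⟩
    rw [SetLike.mem_coe, LinearMap.mem_ker]
    induction e using Sym2.ind with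
    | _ u v =>
      rcases evec_mk hψ u v with h1 | h1
      · rw [h1]; exact h u v he
      · rw [h1, map_neg, h u v he, neg_zero]
  exact this hx

/-- what the finite step gives -/
structure StepOut (G : SimpleGraph V) (C : ℕ → Set V) (n : ℕ) (I : Set (Sym2 V)) : Prop where
  walls : ∀ i < n, ∀ S ⊆ wall C i, S.Nonempty → S ≠ wall C i →
    ∃ u ∈ S, ∃ v ∈ wall C i \ S, G.Adj u v ∧ s(u, v) ∈ I
  cuts : ∀ S ⊆ C (4 * n), S.Nonempty → (∀ i < n, wall C i ⊆ S ∨ Disjoint (wall C i) S) →
    ∃ u ∈ S, ∃ v, v ∉ S ∧ G.Adj u v ∧ s(u, v) ∈ I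
  rest : ∀ S ⊆ C (4 * n), S.Nonempty → ∃ u ∈ S, ∃ v, v ∉ S ∧ G.Adj u v ∧ s(u, v) ∉ I

theorem finite_step (hlf : ∀ v, (G.neighborSet v).Finite) (h4 : Four G) [Infinite V]
    (hC : Chain G C) {n : ℕ} (hn : 0 < n) : ∃ I, StepOut G C n I := by
  classical
  obtain ⟨y, hy⟩ := (hC.fin (4 * n)).infinite_compl.nonempty
  have hEf := incE_finite hlf (hC.fin (4 * n))
  set E : Finset (Sym2 V) := hEf.toFinset with hEdef
  have hE : ∀ e, e ∈ E ↔ e ∈ incE G (C (4 * n)) := fun e => hEf.mem_toFinset
  have hwne : ∀ i, (wall C i).Nonempty := by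
    intro i
    obtain ⟨u, hu, v, hv, huv⟩ := chain_edge hC h4 (4 * i)
    exact ⟨v, hC.mono _ (hC.nbr _ u hu v huv), hv⟩
  obtain ⟨I, hIE, hI1, hI2⟩ := disjoint_bases E (lrk (evec (psi1 C n y))) (lrk (evec (psi2 C n y)))
    (isRank_lrk _) (isRank_lrk _) (by
      intro A hA
      let D : SimpleGraph V := G.deleteEdges ((E \ A : Finset (Sym2 V)) : Set (Sym2 V))
      have hDdef : ∀ u v, D.Adj u v ↔ G.Adj u v ∧ s(u, v) ∉ E \ A := fun u v => by
        simp only [D, SimpleGraph.deleteEdges_adj, Finset.mem_coe]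
      have hDG : D ≤ G := SimpleGraph.deleteEdges_le _
      obtain ⟨hr, hfr⟩ := fr_le_two_mul (G := G) (D := D) (F := E \ A) (by
        intro u v h1 h2
        by_contra h3
        exact h2 ((hDdef u v).2 ⟨h1, h3⟩))
      have hout : ∀ u, u ∉ C (4 * n) → ∀ v, v ∉ C (4 * n) → G.Adj u v → D.Adj u v := by
        intro u hu v hv huv
        refine (hDdef u v).2 ⟨huv, fun h => ?_⟩
        rw [Finset.mem_sdiff, hE, mem_incE] at h
        rcases h.1.2 with h | h
        · exact hu h
        · exact hv h
      have hcl := classes_finite hC hout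
      have hPs : ∀ P, P ∈ hcl.toFinset ↔ IsComp D univ P := fun P => hcl.mem_toFinset
      have t1 := total_ineq hlf h4 hC hDG hr hn hout hcl.toFinset hPs
      have t2 := rank2_bound (y := y) hE hDdef hPs
      have t3 := rank1_bound (y := y) hC hE hDdef hPs hn hwne
      have t4 : (hcl.toFinset.filter (NoWall C n)).card =
          (hcl.toFinset.filter (NoWall C n)).card := rfl
      omega)
  refine ⟨(I : Set (Sym2 V)), ?_, ?_, ?_⟩
  · intro i hi S hS hne hneq
    by_contra hcon
    push Not at hcon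
    obtain ⟨u, hu, v, hv, huv⟩ := wall_cc hC h4 i S hS hne hneq
    have huE : s(u, v) ∈ E := by
      rw [hE, mem_incE]
      exact ⟨huv, Or.inl (wall_subset hC hi (hS hu))⟩
    have h1 := mem_span_of_lrk_eq _ hIE hI1 huE
    rw [← psi_mem (psi1_anti C n y), psi1_pos ⟨i, hi, hS hu, hv.1⟩] at h1
    let g : (V ⊕ (V ⊕ ℕ)) → ℚ := fun w => match w with
      | Sum.inl x => if x ∈ S then 1 else 0
      | Sum.inr _ => 0
    have h2 := fnl_zero g (psi1_anti C n y) (by
      intro a b hab
      by_cases hs : SW C n a b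
      · rw [psi1_pos hs, map_sub, hl, hl, fnl_single, fnl_single]
        obtain ⟨j, hj, ha, hb⟩ := hs
        have habG : G.Adj a b := ((mem_incE.1 ((hE _).1 (hIE hab))).1)
        simp only [g]
        by_cases haS : a ∈ S
        · by_cases hbS : b ∈ S
          · rw [if_pos haS, if_pos hbS, sub_self]
          · exfalso
            have : i = j := wall_disjoint hC (hS haS) ha
            subst this
            exact hcon a haS b ⟨hb, hbS⟩ habG hab
        · by_cases hbS : b ∈ S
          · exfalso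
            have : i = j := wall_disjoint hC (hS hbS) hb
            subst this
            refine hcon b hbS a ⟨ha, haS⟩ habG.symm ?_
            rw [Sym2.eq_swap]; exact hab
          · rw [if_neg haS, if_neg hbS, sub_self]
      · rw [psi1_neg hs, map_sub, hrr, hrr, fnl_single, fnl_single]
        simp only [g, sub_self]) h1
    rw [map_sub, hl, hl, fnl_single, fnl_single] at h2
    simp only [g] at h2
    rw [if_pos hu, if_neg hv.2] at h2
    norm_num at h2
  · intro S hS hne hcomp
    by_contra hcon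
    push Not at hcon
    have hSu : S ≠ univ := by
      rintro rfl
      exact hy (hS trivial)
    obtain ⟨u, hu, v, hv, huv⟩ := h4.cc S (subset_univ _) hne hSu
    have huE : s(u, v) ∈ E := by
      rw [hE, mem_incE]
      exact ⟨huv, Or.inl (hS hu)⟩
    have hnsw : ¬ SW C n u v := by
      rintro ⟨i, hi, h1, h2⟩
      rcases hcomp i hi with h | h
      · exact hv.2 (h h2)
      · exact Set.disjoint_left.1 h h1 hu
    have h1 := mem_span_of_lrk_eq _ hIE hI1 huE
    rw [← psi_mem (psi1_anti C n y), psi1_neg hnsw] at h1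
    let g : (V ⊕ (V ⊕ ℕ)) → ℚ := fun w => match w with
      | Sum.inl _ => 0
      | Sum.inr (Sum.inl x) => if x ∈ S then 1 else 0
      | Sum.inr (Sum.inr i) => if wall C i ⊆ S then 1 else 0
    have hg : ∀ x, fnl g (hrr C n y x) = if x ∈ S then 1 else 0 := by
      intro x
      by_cases hx : ∃ i, i < n ∧ x ∈ wall C i
      · obtain ⟨i, hi, hxi⟩ := hx
        rw [hrr_wall hC hi hxi, rho, fnl_single]
        simp only [g]
        rcases hcomp i hi with h | h
        · rw [if_pos h, if_pos (h hxi)]
        · rw [if_neg, if_neg]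
          · exact fun hxS => Set.disjoint_left.1 h hxi hxS
          · exact fun hsub => Set.disjoint_left.1 h hxi (hsub hxi)
      · have e1 : pi1 C n y x = Sum.inl (pi2 (C (4 * n)) y x) := by
          unfold pi1; rw [dif_neg hx]
        rw [hrr, e1, fnl_single]
        simp only [g, pi2]
        by_cases hxΩ : x ∈ C (4 * n)
        · rw [if_pos hxΩ]
        · rw [if_neg hxΩ, if_neg, if_neg]
          · exact fun h => hxΩ (hS h)
          · exact fun h => hy (hS h)
    have h2 := fnl_zero g (psi1_anti C n y) (by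
      intro a b hab
      by_cases hs : SW C n a b
      · rw [psi1_pos hs, map_sub, hl, hl, fnl_single, fnl_single]
        simp only [g, sub_self]
      · rw [psi1_neg hs, map_sub, hg, hg]
        have habG : G.Adj a b := ((mem_incE.1 ((hE _).1 (hIE hab))).1)
        by_cases haS : a ∈ S
        · by_cases hbS : b ∈ S
          · rw [if_pos haS, if_pos hbS, sub_self]
          · exact absurd hab (hcon a haS b hbS habG)
        · by_cases hbS : b ∈ S
          · refine absurd ?_ (hcon b hbS a haS habG.symm)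
            rw [Sym2.eq_swap]; exact hab
          · rw [if_neg haS, if_neg hbS, sub_self]) h1
    rw [map_sub, hg, hg, if_pos hu, if_neg hv.2] at h2
    norm_num at h2
  · intro S hS hne
    by_contra hcon
    push Not at hcon
    have hSu : S ≠ univ := by
      rintro rfl
      exact hy (hS trivial)
    obtain ⟨u, hu, v, hv, huv⟩ := h4.cc S (subset_univ _) hne hSu
    have huE : s(u, v) ∈ E := by
      rw [hE, mem_incE]
      exact ⟨huv, Or.inl (hS hu)⟩
    have h1 := mem_span_of_lrk_eq _ Finset.sdiff_subset hI2 huE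
    rw [← psi_mem (psi2_anti C n y)] at h1
    let g : V → ℚ := fun x => if x ∈ S then 1 else 0
    have hg : ∀ x, fnl g (vec2 C n y x) = if x ∈ S then 1 else 0 := by
      intro x
      rw [vec2, fnl_single]
      simp only [g, pi2]
      by_cases hxΩ : x ∈ C (4 * n)
      · rw [if_pos hxΩ]
      · rw [if_neg hxΩ, if_neg, if_neg]
        · exact fun h => hxΩ (hS h)
        · exact fun h => hy (hS h)
    have h2 := fnl_zero g (psi2_anti C n y) (by
      intro a b hab
      rw [Finset.mem_coe, Finset.mem_sdiff] at hab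
      have habG : G.Adj a b := ((mem_incE.1 ((hE _).1 hab.1)).1)
      rw [psi2, map_sub, hg, hg]
      by_cases haS : a ∈ S
      · by_cases hbS : b ∈ S
        · rw [if_pos haS, if_pos hbS, sub_self]
        · exact absurd (hcon a haS b hbS habG) (by simpa using hab.2)
      · by_cases hbS : b ∈ S
        · refine absurd (hcon b hbS a haS habG.symm) ?_
          rw [Sym2.eq_swap]
          simpa using hab.2
        · rw [if_neg haS, if_neg hbS, sub_self]) h1
    rw [psi2, map_sub, hg, hg, if_pos hu, if_neg hv.2] at h2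
    norm_num at h2

end Pool.H66.HC
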