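import Pool.Agent.Helper66.HC.Count

/-! # The inequality for one class -/

open Set

namespace Pool.H66.HC

universe u

variable {V : Type u} {G D : SimpleGraph V} {C : ℕ → Set V}

/-- number of components of the wall `i` inside `P` -/
noncomputable def cw (D : SimpleGraph V) (C : ℕ → Set V) (i : ℕ) (P : Set V) : ℕ :=
  {K | IsComp D (wall C i) K ∧ K ⊆ P}.ncard

/-- `P` meets the walls `i` and `i + 1` -/
def CrossW (C : ℕ → Set V) (i : ℕ) (P : Set V) : Prop :=
  (P ∩ wall C i).Nonempty ∧ (P ∩ wall C (i + 1)).Nonempty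

/-- `P` is the only class that meets the walls `i` and `i + 1` -/
def Solo (D : SimpleGraph V) (C : ℕ → Set V) (i : ℕ) (P : Set V) : Prop :=
  CrossW C i P ∧ ∀ P', IsComp D univ P' → CrossW C i P' → P' = P

noncomputable def solo (D : SimpleGraph V) (C : ℕ → Set V) (n : ℕ) (P : Set V) : ℕ :=
  {i | i + 1 < n ∧ Solo D C i P}.ncard

lemma finite_comps {R : Set V} (hR : R.Finite) : {K | IsComp D R K}.Finite :=
  hR.finite_subsets.subset fun _ hK => hK.sub

section

variable (hC : Chain G C)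

include hC

lemma wall_finite (i : ℕ) : (wall C i).Finite := (hC.fin _).subset sdiff_subset

lemma meets_ring (hD : D ≤ G) {P : Set V} (hP : CC D P) {j : ℕ} (h1 : (P ∩ C j).Nonempty)
    (h2 : ¬ P ⊆ C j) : (P ∩ (C (j + 1) \ C j)).Nonempty := by
  obtain ⟨u, hu, v, hv, huv⟩ := hP (P ∩ C j) inter_subset_left h1 (fun he => h2 (by
    rw [← he]; exact inter_subset_right))
  exact ⟨v, hv.1, hC.nbr j u hu.2 v (hD huv), fun h => hv.2 ⟨hv.1, h⟩⟩

lemma cross_rings (hD : D ≤ G) {P : Set V} (hP : CC D P) {i : ℕ} (h : CrossW C i P) :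
    (P ∩ (C (4 * i + 3) \ C (4 * i + 2))).Nonempty ∧
    (P ∩ (C (4 * i + 4) \ C (4 * i + 3))).Nonempty := by
  obtain ⟨⟨x, hx, hx'⟩, ⟨y, hy, hy'⟩⟩ := h
  have hy4 : y ∉ C (4 * i + 4) := hy'.2
  constructor
  · exact meets_ring hC hD hP ⟨x, hx, hx'.1⟩ fun h => hy4 (hC.mono' (by omega) (h hy))
  · exact meets_ring hC hD hP ⟨x, hx, hC.mono _ hx'.1⟩ fun h => hy4 (hC.mono' (by omega) (h hy))

end

/-- **The inequality for one class.** -/
theorem star_ineq (hlf : ∀ v, (G.neighborSet v).Finite) (h4 : Four G) [Infinite V]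
    (hC : Chain G C) (hD : D ≤ G) (hr : (rmv G D).Finite) (n : ℕ) {P : Set V}
    (hP : IsComp D univ P) (hw : ∃ i < n, (P ∩ wall C i).Nonempty) (a b : ℕ)
    (ha : P.Finite ∨ 2 ≤ a) (hb : ¬ C 0 ⊆ P ∨ 2 ≤ b) :
    2 + 2 * ∑ i ∈ Finset.range n, cw D C i P ≤ fr G D P + a + b + 2 * solo D C n P := by
  classical
  have hcl : ∀ u ∈ P, ∀ v, D.Adj u v → v ∈ P := fun u hu v huv => hP.closed u hu v trivial huv
  -- the components of the walls inside `P`
  have hex : ∀ i, ∃ F : Finset (Set V), (∀ K ∈ F, IsComp D (wall C i) K ∧ K ⊆ P) ∧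
      F.card = cw D C i P := by
    intro i
    have hfin : {K | IsComp D (wall C i) K ∧ K ⊆ P}.Finite :=
      (finite_comps (wall_finite hC i)).subset fun _ h => h.1
    exact ⟨hfin.toFinset, fun K hK => by simpa using hK, (Set.ncard_eq_toFinset_card _ hfin).symm⟩
  have hcw0 : ∀ i, ¬ (P ∩ wall C i).Nonempty → cw D C i P = 0 := by
    intro i hi
    have : {K | IsComp D (wall C i) K ∧ K ⊆ P} = ∅ := by
      rw [Set.eq_empty_iff_forall_notMem]
      rintro K ⟨h1, h2⟩
      obtain ⟨x, hx⟩ := h1.ne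
      exact hi ⟨x, h2 hx, h1.sub hx⟩
    rw [cw, this, Set.ncard_empty]
  have hcw1 : ∀ i, (P ∩ wall C i).Nonempty → 1 ≤ cw D C i P := by
    rintro i ⟨x, hx, hx'⟩
    have hfin : {K | IsComp D (wall C i) K ∧ K ⊆ P}.Finite :=
      (finite_comps (wall_finite hC i)).subset fun _ h => h.1
    have h1 := isComp_compOf (D := D) hx'
    have h2 : 0 < cw D C i P := by
      unfold cw
      rw [Set.ncard_pos hfin]
      exact ⟨_, h1, h1.subset_of_closed (fun u hu v _ huv => hcl u hu v huv)
        ⟨x, mem_compOf hx', hx⟩⟩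
    exact h2
  set W : Finset ℕ := (Finset.range n).filter (fun i => (P ∩ wall C i).Nonempty) with hW
  have hWne : W.Nonempty := by
    obtain ⟨i, hi, hi'⟩ := hw
    exact ⟨i, Finset.mem_filter.2 ⟨Finset.mem_range.2 hi, hi'⟩⟩
  set m := W.min' hWne with hm
  set M := W.max' hWne with hM
  have hmW := W.min'_mem hWne
  have hMW := W.max'_mem hWne
  rw [← hm] at hmW
  rw [← hM] at hMW
  have hmn := Finset.mem_filter.1 hmW
  have hMn := Finset.mem_filter.1 hMW
  have hmM : m ≤ M := W.min'_le M hMW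
  have hMlt : M < n := Finset.mem_range.1 hMn.1
  obtain ⟨x, hxP, hxw⟩ := hmn.2
  obtain ⟨y, hyP, hyw⟩ := hMn.2
  have hmid : ∀ i, m ≤ i → i ≤ M → (P ∩ wall C i).Nonempty := by
    intro i h1 h2
    rcases Nat.eq_or_lt_of_le h1 with rfl | h1
    · exact ⟨x, hxP, hxw⟩
    obtain ⟨z, hz, hz'⟩ := meets_ring hC hD hP.cc (j := 4 * i)
      ⟨x, hxP, hC.mono' (by omega) hxw.1⟩ (fun h => hyw.2 (hC.mono' (by omega) (h hyP)))
    exact ⟨z, hz, hC.mono _ hz'.1, hz'.2⟩
  -- sum over the walls
  have hsum : ∑ i ∈ Finset.range n, cw D C i P = ∑ i ∈ Finset.Ico m M, cw D C i P + cw D C M P := by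
    rw [← Finset.sum_Ico_succ_top hmM]
    symm
    refine Finset.sum_subset ?_ ?_
    · intro i hi
      rw [Finset.mem_Ico] at hi
      rw [Finset.mem_range]; omega
    · intro i hi hi'
      refine hcw0 i fun hne => hi' ?_
      have hiW : i ∈ W := Finset.mem_filter.2 ⟨hi, hne⟩
      have := W.min'_le i hiW
      have := W.le_max' i hiW
      rw [Finset.mem_Ico]; omega
  -- decomposition of the number of removed edges
  have hdec : ∀ k, m ≤ k → fr G D (P ∩ C (4 * m)) +
      ∑ i ∈ Finset.Ico m k, (fr G D (P ∩ wall C i) + fr G D (P ∩ gap C i)) ≤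
      fr G D (P ∩ C (4 * k)) := by
    intro k hk
    induction k, hk using Nat.le_induction with
    | base => simp
    | succ k hk ih =>
      rw [Finset.sum_Ico_succ_top hk]
      have d1 : Disjoint (P ∩ C (4 * k)) (P ∩ wall C k) := by
        rw [Set.disjoint_left]
        rintro z hz hz'
        exact hz'.2.2 hz.2
      have d2 : Disjoint (P ∩ C (4 * k) ∪ P ∩ wall C k) (P ∩ gap C k) := by
        rw [Set.disjoint_left]
        rintro z (hz | hz) hz'
        · exact hz'.2.2 (hC.mono' (by omega) hz.2)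
        · exact hz'.2.2 hz.2.1
      have e1 := fr_union hr d1
      have e2 := fr_union hr d2
      have e3 : fr G D (P ∩ C (4 * k) ∪ P ∩ wall C k ∪ P ∩ gap C k) ≤
          fr G D (P ∩ C (4 * (k + 1))) := by
        refine fr_mono hr ?_
        rintro z ((hz | hz) | hz)
        · exact ⟨hz.1, hC.mono' (by omega) hz.2⟩
        · exact ⟨hz.1, hC.mono' (by omega) hz.2.1⟩
        · exact ⟨hz.1, hC.mono' (by omega) hz.2.1⟩
      omega
  have hPsplit : fr G D (P ∩ C (4 * M)) + fr G D (P \ C (4 * M)) ≤ fr G D P := by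
    rw [← fr_union hr (by
      rw [Set.disjoint_left]
      rintro z hz hz'
      exact hz'.2 hz.2)]
    refine fr_mono hr ?_
    rintro z (hz | hz)
    · exact hz.1
    · exact hz.1
  -- local inequalities
  have hwall : ∀ i, 2 * cw D C i P ≤ fr G D (P ∩ wall C i) + 2 := by
    intro i
    obtain ⟨F, hF, hFc⟩ := hex i
    rw [← hFc]
    exact wall_sum hC hlf hr h4 hD F hF
  have hwallM : fr G D (P ∩ wall C M) ≤ fr G D (P \ C (4 * M)) :=
    fr_mono hr fun z hz => ⟨hz.1, hz.2.2⟩
  have hgap : ∀ i ∈ Finset.Ico m M, 2 ≤ fr G D (P ∩ gap C i) + 2 * (if Solo D C i P then 1 else 0) := by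
    intro i hi
    rw [Finset.mem_Ico] at hi
    by_cases hs : Solo D C i P
    · rw [if_pos hs]; omega
    · have hcr : CrossW C i P := ⟨hmid i hi.1 (by omega), hmid (i + 1) (by omega) (by omega)⟩
      obtain ⟨P', hP', hcr', hne⟩ : ∃ P', IsComp D univ P' ∧ CrossW C i P' ∧ P' ≠ P := by
        by_contra hcon
        push Not at hcon
        exact hs ⟨hcr, hcon⟩
      have hdis := hP'.disjoint hP hne
      obtain ⟨r1, r2⟩ := cross_rings hC hD hP.cc hcr
      obtain ⟨⟨s, hs1, hs2⟩, ⟨t, ht1, ht2⟩⟩ := cross_rings hC hD hP'.cc hcr'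
      have := gap_two hC hr hcl r1 r2 (fun h => Set.disjoint_left.1 hdis hs1 (h hs2))
        (fun h => Set.disjoint_left.1 hdis ht1 (h ht2))
      omega
  have hsolo : ∑ i ∈ Finset.Ico m M, (if Solo D C i P then 1 else 0) ≤ solo D C n P := by
    rw [← Finset.card_filter]
    unfold solo
    have hfin : {i | i + 1 < n ∧ Solo D C i P}.Finite :=
      (finite_lt_nat n).subset fun i hi => by
        have := hi.1
        simp only [mem_ofPred_eq]; omega
    rw [← Set.ncard_coe_finset]
    refine Set.ncard_le_ncard ?_ hfin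
    intro i hi
    simp only [Finset.coe_filter, Finset.mem_Ico, mem_ofPred_eq] at hi
    exact ⟨by omega, hi.2⟩
  have hterm : ∀ i ∈ Finset.Ico m M, 2 * cw D C i P ≤
      (fr G D (P ∩ wall C i) + fr G D (P ∩ gap C i)) + 2 * (if Solo D C i P then 1 else 0) := by
    intro i hi
    have := hwall i
    have := hgap i hi
    omega
  have hbase : 2 * ∑ i ∈ Finset.Ico m M, cw D C i P ≤
      ∑ i ∈ Finset.Ico m M, (fr G D (P ∩ wall C i) + fr G D (P ∩ gap C i)) +
      2 * ∑ i ∈ Finset.Ico m M, (if Solo D C i P then 1 else 0) := by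
    rw [Finset.mul_sum, Finset.mul_sum, ← Finset.sum_add_distrib]
    exact Finset.sum_le_sum hterm
  have hdecM := hdec M hmM
  -- the top
  have htop : 2 * cw D C M P ≤ fr G D (P \ C (4 * M)) + a := by
    rcases ha with hfin | ha
    · obtain ⟨F, hF, hFc⟩ := hex M
      rw [← hFc]
      have := (top_sum hC hlf hr h4 hD hcl hfin F hF).1
      omega
    · have := hwall M
      omega
  rw [hsum]
  by_cases hC0 : C 0 ⊆ P
  · have hb2 : 2 ≤ b := by
      rcases hb with hb | hb
      · exact absurd hC0 hb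
      · exact hb
    omega
  · by_cases hbot : P ∩ C (4 * m) = ∅
    · have hwallm : 2 * cw D C m P ≤ fr G D (P ∩ wall C m) := by
        obtain ⟨F, hF, hFc⟩ := hex m
        rw [← hFc]
        exact wall_sum' hC hr hcl hbot F hF
      rcases Nat.eq_or_lt_of_le hmM with he | hlt
      · -- only one wall
        have hc1 := hcw1 m ⟨x, hxP, hxw⟩
        rw [← he] at htop hwallM hPsplit hdecM hbase ⊢
        rcases ha with hfin | ha
        · obtain ⟨F, hF, hFc⟩ := hex m
          have := (top_sum hC hlf hr h4 hD hcl hfin F hF).2 hbot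
          rw [hFc] at this
          simp only [Finset.Ico_self, Finset.sum_empty] at hbase ⊢
          omega
        · simp only [Finset.Ico_self, Finset.sum_empty] at hbase ⊢
          omega
      · have hmI : m ∈ Finset.Ico m M := Finset.mem_Ico.2 ⟨le_rfl, hlt⟩
        have hbase' : 2 * ∑ i ∈ Finset.Ico m M, cw D C i P + 2 ≤
            ∑ i ∈ Finset.Ico m M, (fr G D (P ∩ wall C i) + fr G D (P ∩ gap C i)) +
            2 * ∑ i ∈ Finset.Ico m M, (if Solo D C i P then 1 else 0) := by
          have hg := hgap m hmI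
          rw [Finset.sum_eq_sum_Ico_succ_bot hlt, Finset.sum_eq_sum_Ico_succ_bot hlt,
            Finset.sum_eq_sum_Ico_succ_bot hlt (fun i => if Solo D C i P then 1 else 0)]
          have h5 : 2 * ∑ i ∈ Finset.Ico (m + 1) M, cw D C i P ≤
              ∑ i ∈ Finset.Ico (m + 1) M, (fr G D (P ∩ wall C i) + fr G D (P ∩ gap C i)) +
              2 * ∑ i ∈ Finset.Ico (m + 1) M, (if Solo D C i P then 1 else 0) := by
            rw [Finset.mul_sum, Finset.mul_sum, ← Finset.sum_add_distrib]
            refine Finset.sum_le_sum fun i hi => hterm i ?_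
            rw [Finset.mem_Ico] at hi ⊢
            omega
          omega
        omega
    · have hbt : 2 ≤ fr G D (P ∩ C (4 * m)) :=
        bottom_two hC hr hcl hbot (fun h => hC0 ((hC.mono' (Nat.zero_le _)).trans h))
      omega

end Pool.H66.HC
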