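import Pool.Agent.Helper66.HC.MInter
import Pool.Agent.Helper66.HC.Star

/-! # Linear rank functions -/

open Set

namespace Pool.H66.HC

universe u

section linear

variable {α : Type*} [DecidableEq α] {U : Type*} [AddCommGroup U] [Module ℚ U]

/-- the rank function of a family of vectors -/
noncomputable def lrk (φ : α → U) (A : Finset α) : ℕ :=
  Module.finrank ℚ (Submodule.span ℚ (φ '' (A : Set α)))

instance lrk_fd (φ : α → U) (A : Finset α) :
    FiniteDimensional ℚ (Submodule.span ℚ (φ '' (A : Set α))) :=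
  FiniteDimensional.span_of_finite ℚ (A.finite_toSet.image φ)

omit [DecidableEq α] in
lemma lrk_mono (φ : α → U) {A B : Finset α} (h : A ⊆ B) : lrk φ A ≤ lrk φ B :=
  Submodule.finrank_mono (Submodule.span_mono (Set.image_mono (Finset.coe_subset.2 h)))

/-- adding finitely many vectors -/
lemma lrk_le (φ : α → U) {A E : Finset α} (T : Finset U)
    (h : ∀ e ∈ E, φ e ∈ Submodule.span ℚ (φ '' (A : Set α)) ⊔ Submodule.span ℚ (T : Set U)) :
    lrk φ E ≤ lrk φ A + T.card := by
  have fT : FiniteDimensional ℚ (Submodule.span ℚ (T : Set U)) :=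
    FiniteDimensional.span_finset ℚ T
  have h1 : Submodule.span ℚ (φ '' (E : Set α)) ≤
      Submodule.span ℚ (φ '' (A : Set α)) ⊔ Submodule.span ℚ (T : Set U) := by
    rw [Submodule.span_le]
    rintro _ ⟨e, he, rfl⟩
    exact h e he
  have h2 := Submodule.finrank_mono h1
  have h3 := Submodule.finrank_add_le_finrank_add_finrank (Submodule.span ℚ (φ '' (A : Set α)))
    (Submodule.span ℚ (T : Set U))
  have h4 := finrank_span_finset_le_card (R := ℚ) T
  have h5 : (T : Set U).finrank ℚ = Module.finrank ℚ (Submodule.span ℚ (T : Set U)) := rfl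
  unfold lrk
  omega

lemma isRank_lrk (φ : α → U) : IsRank (lrk φ) where
  empty := by simp [lrk]
  mono A e := lrk_mono φ (Finset.subset_insert _ _)
  unit A e := by
    have := lrk_le φ (A := A) (E := insert e A) {φ e} (by
      intro x hx
      rw [Finset.mem_insert] at hx
      rcases hx with rfl | hx
      · exact Submodule.mem_sup_right (Submodule.subset_span (by simp))
      · exact Submodule.mem_sup_left (Submodule.subset_span ⟨x, hx, rfl⟩))
    simpa using this
  submod A B := by
    have e1 : Submodule.span ℚ (φ '' ((A ∪ B : Finset α) : Set α)) =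
        Submodule.span ℚ (φ '' (A : Set α)) ⊔ Submodule.span ℚ (φ '' (B : Set α)) := by
      rw [Finset.coe_union, Set.image_union, Submodule.span_union]
    have e2 : Submodule.span ℚ (φ '' ((A ∩ B : Finset α) : Set α)) ≤
        Submodule.span ℚ (φ '' (A : Set α)) ⊓ Submodule.span ℚ (φ '' (B : Set α)) := by
      refine le_inf (Submodule.span_mono (Set.image_mono ?_)) (Submodule.span_mono (Set.image_mono ?_))
      · exact Finset.coe_subset.2 Finset.inter_subset_left
      · exact Finset.coe_subset.2 Finset.inter_subset_right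
    have e3 := Submodule.finrank_sup_add_finrank_inf_eq (Submodule.span ℚ (φ '' (A : Set α)))
      (Submodule.span ℚ (φ '' (B : Set α)))
    have e4 := Submodule.finrank_mono e2
    unfold lrk
    rw [e1]
    omega

omit [DecidableEq α] in
/-- equal rank means equal span -/
lemma mem_span_of_lrk_eq (φ : α → U) {A E : Finset α} (h : A ⊆ E) (he : lrk φ A = lrk φ E)
    {e : α} (hE : e ∈ E) : φ e ∈ Submodule.span ℚ (φ '' (A : Set α)) := by
  have h1 : Submodule.span ℚ (φ '' (A : Set α)) ≤ Submodule.span ℚ (φ '' (E : Set α)) :=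
    Submodule.span_mono (Set.image_mono (Finset.coe_subset.2 h))
  have h2 := Submodule.eq_of_le_of_finrank_eq h1 he
  rw [h2]
  exact Submodule.subset_span ⟨e, hE, rfl⟩

end linear

section graph

variable {V : Type u} {U : Type*} [AddCommGroup U] [Module ℚ U]

/-- vectors of edges, from an antisymmetric function -/
noncomputable def evec (ψ : V → V → U) (e : Sym2 V) : U := ψ e.out.1 e.out.2

omit [Module ℚ U] in
lemma evec_mk {ψ : V → V → U} (hψ : ∀ u v, ψ u v = - ψ v u) (u v : V) :
    evec ψ s(u, v) = ψ u v ∨ evec ψ s(u, v) = - ψ u v := by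
  unfold evec
  have h : s((s(u, v)).out.1, (s(u, v)).out.2) = s(u, v) := Quot.out_eq _
  rcases Sym2.eq_iff.1 h with ⟨h1, h2⟩ | ⟨h1, h2⟩
  · left; rw [h1, h2]
  · right; rw [h1, h2]; exact hψ v u

lemma psi_mem {ψ : V → V → U} (hψ : ∀ u v, ψ u v = - ψ v u) {S : Submodule ℚ U} {u v : V} :
    ψ u v ∈ S ↔ evec ψ s(u, v) ∈ S := by
  rcases evec_mk hψ u v with h | h
  · rw [h]
  · rw [h, Submodule.neg_mem_iff]

variable {D : SimpleGraph V}

/-- in a connected set, differences along edges generate all differences -/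
lemma conn_span {P : Set V} (hP : CC D P) (h : V → U) (S : Submodule ℚ U)
    (hS : ∀ u ∈ P, ∀ v ∈ P, D.Adj u v → h u - h v ∈ S) {u v : V} (hu : u ∈ P) (hv : v ∈ P) :
    h u - h v ∈ S := by
  by_contra hcon
  obtain ⟨a, ha, b, hb, hab⟩ := hP {x | x ∈ P ∧ h u - h x ∈ S} (fun x hx => hx.1)
    ⟨u, hu, by simp⟩ (fun he => hcon (by
      have : v ∈ {x | x ∈ P ∧ h u - h x ∈ S} := by rw [he]; exact hv
      exact this.2))
  refine hb.2 ⟨hb.1, ?_⟩
  have := S.add_mem ha.2 (hS a ha.1 b hb.1 hab)
  simpa using this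

end graph

end Pool.H66.HC
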