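import Pool.Agent.Helper66.HC.Star

/-! # Summing over all classes -/

open Set

namespace Pool.H66.HC

universe u

variable {V : Type u} {G D : SimpleGraph V} {C : ℕ → Set V}

/-- the class does not meet the first `n` walls -/
def NoWall (C : ℕ → Set V) (n : ℕ) (P : Set V) : Prop := ∀ i < n, ¬ (P ∩ wall C i).Nonempty

lemma CC.mono_graph {S : Set V} (h : CC G S) (hGD : ∀ u ∈ S, ∀ v ∈ S, G.Adj u v → D.Adj u v) :
    CC D S := by
  intro A hA hne hneq
  obtain ⟨u, hu, v, hv, huv⟩ := h A hA hne hneq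
  exact ⟨u, hu, v, hv, hGD u (hA hu) v hv.1 huv⟩

section

variable {n : ℕ} (hC : Chain G C)
  (hout : ∀ u, u ∉ C (4 * n) → ∀ v, v ∉ C (4 * n) → G.Adj u v → D.Adj u v)

include hC hout

lemma class_out {P : Set V} (hP : IsComp D univ P) (h : (P ∩ (C (4 * n))ᶜ).Nonempty) :
    (C (4 * n))ᶜ ⊆ P := by
  have hcc : CC D (C (4 * n))ᶜ := (hC.out (4 * n)).mono_graph fun u hu v hv huv =>
    hout u hu v hv huv
  by_contra hcon
  obtain ⟨u, hu, v, hv, huv⟩ := hcc (P ∩ (C (4 * n))ᶜ) inter_subset_right h (fun he => hcon (by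
    rw [← he]; exact inter_subset_left))
  exact hv.2 ⟨hP.closed u hu.1 v trivial huv, hv.1⟩

lemma class_infinite {P : Set V} (hP : IsComp D univ P) (h : ¬ P.Finite) :
    (C (4 * n))ᶜ ⊆ P := by
  refine class_out hC hout hP ?_
  by_contra hcon
  rw [Set.not_nonempty_iff_eq_empty] at hcon
  apply h
  refine (hC.fin (4 * n)).subset fun x hx => ?_
  by_contra hx'
  have : x ∈ P ∩ (C (4 * n))ᶜ := ⟨hx, hx'⟩
  rw [hcon] at this
  exact this

lemma classes_finite [Infinite V] : {P | IsComp D univ P}.Finite := by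
  obtain ⟨y, hy⟩ := (hC.fin (4 * n)).infinite_compl.nonempty
  have hf : (insert y (C (4 * n))).Finite := (hC.fin (4 * n)).insert y
  refine Set.Finite.of_finite_image (f := fun P => P ∩ insert y (C (4 * n))) ?_ ?_
  · exact hf.finite_subsets.subset (by
      rintro _ ⟨P, -, rfl⟩
      exact inter_subset_right)
  · intro P hP Q hQ he
    simp only at he
    rcases hP.eq_or_disjoint hQ with h | h
    · exact h
    · exfalso
      -- `P` meets `Ω ∪ {y}`
      have : (P ∩ insert y (C (4 * n))).Nonempty := by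
        by_cases h1 : (P ∩ (C (4 * n))ᶜ).Nonempty
        · exact ⟨y, class_out hC hout hP h1 hy, Or.inl rfl⟩
        · obtain ⟨x, hx⟩ := hP.ne
          rw [Set.not_nonempty_iff_eq_empty] at h1
          refine ⟨x, hx, Or.inr ?_⟩
          by_contra hx'
          have : x ∈ P ∩ (C (4 * n))ᶜ := ⟨hx, hx'⟩
          rw [h1] at this
          exact this
      obtain ⟨x, hx⟩ := this
      have hx2 := hx
      rw [he] at hx2
      exact Set.disjoint_left.1 h hx.1 hx2.1

end

/-- number of crossed gaps -/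
noncomputable def crossed (D : SimpleGraph V) (C : ℕ → Set V) (n : ℕ) : ℕ :=
  {i | i + 1 < n ∧ ∃ P, IsComp D univ P ∧ CrossW C i P}.ncard

open Classical in
theorem total_ineq (hlf : ∀ v, (G.neighborSet v).Finite) (h4 : Four G) [Infinite V]
    (hC : Chain G C) (hD : D ≤ G) (hr : (rmv G D).Finite) {n : ℕ} (hn : 0 < n)
    (hout : ∀ u, u ∉ C (4 * n) → ∀ v, v ∉ C (4 * n) → G.Adj u v → D.Adj u v)
    (Ps : Finset (Set V)) (hPs : ∀ P, P ∈ Ps ↔ IsComp D univ P) :
    2 * Ps.card + 2 * (Ps.filter (NoWall C n)).card +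
      2 * ∑ i ∈ Finset.range n, {K | IsComp D (wall C i) K}.ncard ≤
      fr G D univ + 4 + 2 * crossed D C n := by
  -- wall 0 is not empty
  have hw0 : (wall C 0).Nonempty := by
    obtain ⟨x, hx⟩ := hC.ne
    obtain ⟨y, hy⟩ := (hC.fin 0).infinite_compl.nonempty
    obtain ⟨u, hu, v, hv, huv⟩ := h4.cc (C 0) (subset_univ _) hC.ne (fun he => by
      rw [he] at hy; exact hy trivial)
    exact ⟨v, hC.mono _ (hC.nbr 0 u hu v huv), hv.2⟩
  let a : Set V → ℕ := fun P => if P.Finite then 0 else 2
  let b : Set V → ℕ := fun P => if C 0 ⊆ P then 2 else 0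
  have hone : ∀ P ∈ Ps, 2 + 2 * (if NoWall C n P then 1 else 0) +
      2 * ∑ i ∈ Finset.range n, cw D C i P ≤ fr G D P + a P + b P + 2 * solo D C n P := by
    intro P hPP
    have hP := (hPs P).1 hPP
    by_cases hnw : NoWall C n P
    · rw [if_pos hnw]
      have hcw : ∑ i ∈ Finset.range n, cw D C i P = 0 := by
        refine Finset.sum_eq_zero fun i hi => ?_
        have : {K | IsComp D (wall C i) K ∧ K ⊆ P} = ∅ := by
          rw [Set.eq_empty_iff_forall_notMem]
          rintro K ⟨h1, h2⟩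
          obtain ⟨x, hx⟩ := h1.ne
          exact hnw i (Finset.mem_range.1 hi) ⟨x, h2 hx, h1.sub hx⟩
        rw [cw, this, Set.ncard_empty]
      rw [hcw]
      have hPc : Pᶜ.Nonempty := by
        obtain ⟨x, hx⟩ := hw0
        exact ⟨x, fun hxP => hnw 0 hn ⟨x, hxP, hx⟩⟩
      have hno : ∀ u ∈ P, ∀ v ∈ Pᶜ, ¬ D.Adj u v := fun u hu v hv huv =>
        hv (hP.closed u hu v trivial huv)
      have hfin : (prs G P Pᶜ).Finite := hr.subset fun p hp => ⟨hp.2.2, hno _ hp.1 _ hp.2.1⟩
      have h1 := h4 P hP.ne hPc hfin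
      have h2 := ce_le_fr hr hno
      omega
    · rw [if_neg hnw]
      have hw : ∃ i < n, (P ∩ wall C i).Nonempty := by
        unfold NoWall at hnw
        push Not at hnw
        exact hnw
      have := star_ineq hlf h4 hC hD hr n hP hw (a P) (b P)
        (by
          by_cases hf : P.Finite
          · exact Or.inl hf
          · right; simp only [a]; rw [if_neg hf])
        (by
          by_cases hf : C 0 ⊆ P
          · right; simp only [b]; rw [if_pos hf]
          · exact Or.inl hf)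
      omega
  have hsum := Finset.sum_le_sum hone
  simp only [Finset.sum_add_distrib, ← Finset.mul_sum] at hsum
  have e1 : ∑ P ∈ Ps, (2 : ℕ) = 2 * Ps.card := by
    rw [Finset.sum_const, smul_eq_mul, mul_comm]
  have e2 : ∑ P ∈ Ps, (if NoWall C n P then 1 else 0) = (Ps.filter (NoWall C n)).card := by
    rw [← Finset.card_filter]
  -- disjoint classes
  have hdisj : ∀ P ∈ Ps, ∀ Q ∈ Ps, P ≠ Q → Disjoint P Q := fun P hP Q hQ hne =>
    ((hPs P).1 hP).disjoint ((hPs Q).1 hQ) hne
  have e3 : ∑ P ∈ Ps, fr G D P ≤ fr G D univ :=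
    sum_cnt Ps univ (fr_fin hr _) (fun _ _ => subset_univ _) hdisj
  have e4 : ∑ P ∈ Ps, a P ≤ 2 := by
    by_cases hex : ∃ P ∈ Ps, ¬ P.Finite
    · obtain ⟨P, hP, hPi⟩ := hex
      rw [Finset.sum_eq_single_of_mem P hP]
      · simp only [a]; rw [if_neg hPi]
      · intro Q hQ hne
        simp only [a]
        rw [if_pos]
        by_contra hQi
        have h1 := class_infinite hC hout ((hPs P).1 hP) hPi
        have h2 := class_infinite hC hout ((hPs Q).1 hQ) hQi
        obtain ⟨y, hy⟩ := (hC.fin (4 * n)).infinite_compl.nonempty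
        exact Set.disjoint_left.1 (hdisj Q hQ P hP hne) (h2 hy) (h1 hy)
    · push Not at hex
      rw [Finset.sum_eq_zero]
      · omega
      · intro P hP
        simp only [a]; rw [if_pos (hex P hP)]
  have e5 : ∑ P ∈ Ps, b P ≤ 2 := by
    by_cases hex : ∃ P ∈ Ps, C 0 ⊆ P
    · obtain ⟨P, hP, hPi⟩ := hex
      rw [Finset.sum_eq_single_of_mem P hP]
      · simp only [b]; rw [if_pos hPi]
      · intro Q hQ hne
        simp only [b]
        rw [if_neg]
        intro hQi
        obtain ⟨y, hy⟩ := hC.ne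
        exact Set.disjoint_left.1 (hdisj Q hQ P hP hne) (hQi hy) (hPi hy)
    · push Not at hex
      rw [Finset.sum_eq_zero]
      · omega
      · intro P hP
        simp only [b]; rw [if_neg (hex P hP)]
  have hcrfin : {i | i + 1 < n ∧ ∃ P, IsComp D univ P ∧ CrossW C i P}.Finite :=
    (finite_lt_nat n).subset fun i hi => by
      have := hi.1
      change i < n; omega
  have e6 : ∑ P ∈ Ps, solo D C n P ≤ crossed D C n := by
    have h1 : ∀ P, {i | i + 1 < n ∧ Solo D C i P}.Finite := fun P =>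
      (finite_lt_nat n).subset fun i hi => by
        have := hi.1
        change i < n; omega
    have h2 : ∀ P, solo D C n P = (h1 P).toFinset.card := fun P =>
      Set.ncard_eq_toFinset_card _ (h1 P)
    simp only [h2]
    rw [← Finset.card_biUnion]
    · unfold crossed
      rw [Set.ncard_eq_toFinset_card _ hcrfin]
      refine Finset.card_le_card ?_
      intro i hi
      simp only [Finset.mem_biUnion, Set.Finite.mem_toFinset] at hi ⊢
      obtain ⟨P, hP, hi1, hi2⟩ := hi
      exact ⟨hi1, P, (hPs P).1 hP, hi2.1⟩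
    · intro P hP Q hQ hne
      simp only [Function.onFun]
      rw [Finset.disjoint_left]
      intro i hi hi'
      simp only [Set.Finite.mem_toFinset] at hi hi'
      exact hne (hi'.2.2 P ((hPs P).1 hP) hi.2.1)
  have e7 : ∀ i, {K | IsComp D (wall C i) K}.ncard ≤ ∑ P ∈ Ps, cw D C i P := by
    intro i
    have hf := finite_comps (D := D) (wall_finite hC i)
    have h1 : ∀ P, {K | IsComp D (wall C i) K ∧ K ⊆ P}.Finite := fun P =>
      hf.subset fun _ h => h.1
    have h2 : ∀ P, cw D C i P = (h1 P).toFinset.card := fun P =>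
      Set.ncard_eq_toFinset_card _ (h1 P)
    rw [Set.ncard_eq_toFinset_card _ hf]
    simp only [h2]
    refine le_trans (Finset.card_le_card ?_) Finset.card_biUnion_le
    intro K hK
    simp only [Finset.mem_biUnion, Set.Finite.mem_toFinset] at hK ⊢
    obtain ⟨x, hx⟩ := id (IsComp.ne hK)
    have hP := isComp_compOf (D := D) (mem_univ x)
    exact ⟨compOf D univ x, (hPs _).2 hP, hK, hK.subset_of_closed
      (fun u hu v _ huv => hP.closed u hu v trivial huv) ⟨x, hx, mem_compOf (mem_univ x)⟩⟩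
  have e8 : ∑ i ∈ Finset.range n, {K | IsComp D (wall C i) K}.ncard ≤
      ∑ P ∈ Ps, ∑ i ∈ Finset.range n, cw D C i P := by
    rw [Finset.sum_comm]
    exact Finset.sum_le_sum fun i _ => e7 i
  omega

end Pool.H66.HC
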