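import Pool.Agent.Helper66.HC.Rank
import Pool.Agent.Helper66.HC.Total

/-! # Disjoint bases: the finite step -/

open Set

namespace Pool.H66.HC

universe u

variable {V : Type u} {G : SimpleGraph V} {C : ℕ → Set V}

section walls

variable (hC : Chain G C)

include hC

lemma wall_disjoint {i j : ℕ} {x : V} (hi : x ∈ wall C i) (hj : x ∈ wall C j) : i = j := by
  rcases lt_trichotomy i j with h | h | h
  · exact absurd (hC.mono' (by omega) hi.1) hj.2
  · exact h
  · exact absurd (hC.mono' (by omega) hj.1) hi.2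

lemma wall_subset {i n : ℕ} (hi : i < n) : wall C i ⊆ C (4 * n) :=
  fun _ hx => hC.mono' (by omega) hx.1

lemma chain_edge [Infinite V] (h4 : Four G) (j : ℕ) : ∃ u ∈ C j, ∃ v, v ∉ C j ∧ G.Adj u v := by
  obtain ⟨x, hx⟩ := hC.ne
  obtain ⟨y, hy⟩ := (hC.fin j).infinite_compl.nonempty
  obtain ⟨u, hu, v, hv, huv⟩ := h4.cc (C j) (subset_univ _) ⟨x, hC.mono' (Nat.zero_le _) hx⟩
    (fun he => by rw [he] at hy; exact hy trivial)
  exact ⟨u, hu, v, hv.2, huv⟩

lemma wall_cc [Infinite V] (h4 : Four G) (i : ℕ) : CC G (wall C i) := by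
  obtain ⟨a, ha, b, hb, hab⟩ := chain_edge hC h4 (4 * i + 1)
  have ha' : a ∉ C (4 * i) := fun h => hb (hC.nbr _ a h b hab)
  have hb' : b ∈ C (4 * i + 2) := hC.nbr _ a ha b hab
  intro S hS hne hneq
  by_contra hcon
  push Not at hcon
  have w0 : C (4 * i + 1) \ C (4 * i) ⊆ wall C i := fun x hx => ⟨hC.mono _ hx.1, hx.2⟩
  have w1 : C (4 * i + 1 + 1) \ C (4 * i + 1) ⊆ wall C i :=
    fun x hx => ⟨hx.1, fun h => hx.2 (hC.mono _ h)⟩
  have key : ∀ j, C (j + 1) \ C j ⊆ wall C i → (C (j + 1) \ C j) ⊆ S ∨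
      Disjoint (C (j + 1) \ C j) S := by
    intro j hj
    by_cases h1 : (S ∩ (C (j + 1) \ C j)).Nonempty
    · left
      by_contra h2
      obtain ⟨u, hu, v, hv, huv⟩ := hC.ring j _ inter_subset_right h1
        (fun he => h2 (by rw [← he]; exact inter_subset_left))
      exact hcon u hu.1 v ⟨hj hv.1, fun h => hv.2 ⟨h, hv.1⟩⟩ huv
    · right
      rw [Set.disjoint_left]
      intro x hx hx'
      exact h1 ⟨x, hx', hx⟩
  have hsplit : ∀ x ∈ wall C i, x ∈ C (4 * i + 1) \ C (4 * i) ∨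
      x ∈ C (4 * i + 1 + 1) \ C (4 * i + 1) := by
    intro x hx
    by_cases h : x ∈ C (4 * i + 1)
    · exact Or.inl ⟨h, hx.2⟩
    · exact Or.inr ⟨hx.1, h⟩
  have haw : a ∈ C (4 * i + 1) \ C (4 * i) := ⟨ha, ha'⟩
  have hbw : b ∈ C (4 * i + 1 + 1) \ C (4 * i + 1) := ⟨hb', hb⟩
  rcases key _ w0 with h0 | h0 <;> rcases key _ w1 with h1 | h1
  · apply hneq
    refine hS.antisymm fun x hx => ?_
    rcases hsplit x hx with h | h
    · exact h0 h
    · exact h1 h
  · exact hcon a (h0 haw) b ⟨w1 hbw, fun h => Set.disjoint_left.1 h1 hbw h⟩ hab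
  · exact hcon b (h1 hbw) a ⟨w0 haw, fun h => Set.disjoint_left.1 h0 haw h⟩ hab.symm
  · obtain ⟨x, hx⟩ := hne
    rcases hsplit x (hS hx) with h | h
    · exact Set.disjoint_left.1 h0 h hx
    · exact Set.disjoint_left.1 h1 h hx

end walls

open Classical in
/-- contracting everything outside `Ω` -/
noncomputable def pi2 (Ω : Set V) (y : V) (v : V) : V := if v ∈ Ω then v else y

/-- both in the same wall -/
def SW (C : ℕ → Set V) (n : ℕ) (u v : V) : Prop := ∃ i < n, u ∈ wall C i ∧ v ∈ wall C i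

open Classical in
/-- contracting everything outside `Ω` and every wall -/
noncomputable def pi1 (C : ℕ → Set V) (n : ℕ) (y : V) (v : V) : V ⊕ ℕ :=
  if h : ∃ i, i < n ∧ v ∈ wall C i then Sum.inr (Nat.find h)
  else Sum.inl (pi2 (C (4 * n)) y v)

noncomputable def vec2 (C : ℕ → Set V) (n : ℕ) (y : V) (v : V) : V →₀ ℚ :=
  Finsupp.single (pi2 (C (4 * n)) y v) 1

noncomputable def psi2 (C : ℕ → Set V) (n : ℕ) (y : V) (u v : V) : V →₀ ℚ :=
  vec2 C n y u - vec2 C n y v

noncomputable def hl (v : V) : (V ⊕ (V ⊕ ℕ)) →₀ ℚ := Finsupp.single (Sum.inl v) 1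

noncomputable def hrr (C : ℕ → Set V) (n : ℕ) (y : V) (v : V) : (V ⊕ (V ⊕ ℕ)) →₀ ℚ :=
  Finsupp.single (Sum.inr (pi1 C n y v)) 1

noncomputable def rho (i : ℕ) : (V ⊕ (V ⊕ ℕ)) →₀ ℚ := Finsupp.single (Sum.inr (Sum.inr i)) 1

open Classical in
noncomputable def psi1 (C : ℕ → Set V) (n : ℕ) (y : V) (u v : V) : (V ⊕ (V ⊕ ℕ)) →₀ ℚ :=
  if SW C n u v then hl u - hl v else hrr C n y u - hrr C n y v

lemma psi2_anti (C : ℕ → Set V) (n : ℕ) (y : V) (u v : V) :
    psi2 C n y u v = - psi2 C n y v u := by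
  unfold psi2; abel

lemma SW_comm {C : ℕ → Set V} {n : ℕ} {u v : V} : SW C n u v ↔ SW C n v u := by
  constructor <;> rintro ⟨i, hi, h1, h2⟩ <;> exact ⟨i, hi, h2, h1⟩

lemma psi1_anti (C : ℕ → Set V) (n : ℕ) (y : V) (u v : V) :
    psi1 C n y u v = - psi1 C n y v u := by
  unfold psi1
  by_cases h : SW C n u v
  · rw [if_pos h, if_pos (SW_comm.1 h)]; abel
  · rw [if_neg h, if_neg (fun h' => h (SW_comm.1 h'))]; abel

lemma psi1_pos {C : ℕ → Set V} {n : ℕ} {y u v : V} (h : SW C n u v) :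
    psi1 C n y u v = hl u - hl v := by
  unfold psi1; rw [if_pos h]

lemma psi1_neg {C : ℕ → Set V} {n : ℕ} {y u v : V} (h : ¬ SW C n u v) :
    psi1 C n y u v = hrr C n y u - hrr C n y v := by
  unfold psi1; rw [if_neg h]

lemma hrr_wall (hC : Chain G C) {n : ℕ} {y : V} {i : ℕ} (hi : i < n) {v : V}
    (hv : v ∈ wall C i) : hrr C n y v = rho i := by
  classical
  have h : ∃ i, i < n ∧ v ∈ wall C i := ⟨i, hi, hv⟩
  unfold hrr rho pi1
  rw [dif_pos h]
  have := (Nat.find_spec h).2
  rw [wall_disjoint hC this hv]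

lemma hrr_out {n : ℕ} (hC : Chain G C) {y : V} {v : V} (hv : v ∉ C (4 * n)) :
    hrr C n y v = Finsupp.single (Sum.inr (Sum.inl y)) 1 := by
  classical
  have h : ¬ ∃ i, i < n ∧ v ∈ wall C i := by
    rintro ⟨i, hi, h⟩
    exact hv (wall_subset hC hi h)
  unfold hrr pi1 pi2
  rw [dif_neg h, if_neg hv]

lemma vec2_out {n : ℕ} {y : V} {v : V} (hv : v ∉ C (4 * n)) :
    vec2 C n y v = Finsupp.single y 1 := by
  unfold vec2 pi2
  rw [if_neg hv]

/-- the edges incident with `Ω` -/
def incE (G : SimpleGraph V) (Ω : Set V) : Set (Sym2 V) := {e | e ∈ G.edgeSet ∧ ∃ v ∈ Ω, v ∈ e}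

lemma incE_finite (hlf : ∀ v, (G.neighborSet v).Finite) {Ω : Set V} (h : Ω.Finite) :
    (incE G Ω).Finite := by
  refine (h.biUnion fun v _ => ((hlf v).image fun w => s(v, w))).subset ?_
  rintro e ⟨he, v, hv, hve⟩
  obtain ⟨w, rfl⟩ := Sym2.mem_iff_exists.1 hve
  simp only [mem_iUnion]
  exact ⟨v, hv, w, he, rfl⟩

lemma mem_incE {Ω : Set V} {u v : V} : s(u, v) ∈ incE G Ω ↔ G.Adj u v ∧ (u ∈ Ω ∨ v ∈ Ω) := by
  unfold incE
  simp only [mem_ofPred_eq, SimpleGraph.mem_edgeSet, Sym2.mem_iff]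
  constructor
  · rintro ⟨h, w, hw, rfl | rfl⟩
    · exact ⟨h, Or.inl hw⟩
    · exact ⟨h, Or.inr hw⟩
  · rintro ⟨h, hw | hw⟩
    · exact ⟨h, u, hw, Or.inl rfl⟩
    · exact ⟨h, v, hw, Or.inr rfl⟩

section bounds

variable [DecidableEq V] (hC : Chain G C) {n : ℕ} {y : V} (hy : y ∉ C (4 * n))
  {E A : Finset (Sym2 V)} (hE : ∀ e, e ∈ E ↔ e ∈ incE G (C (4 * n))) (hA : A ⊆ E)
  {D : SimpleGraph V} (hDdef : ∀ u v, D.Adj u v ↔ G.Adj u v ∧ s(u, v) ∉ E \ A)
  {Ps : Finset (Set V)} (hPs : ∀ P, P ∈ Ps ↔ IsComp D univ P)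

include hE hDdef in
lemma adj_cases {u v : V} (h : D.Adj u v) :
    s(u, v) ∈ A ∨ (u ∉ C (4 * n) ∧ v ∉ C (4 * n)) := by
  obtain ⟨h1, h2⟩ := (hDdef u v).1 h
  by_cases hEe : s(u, v) ∈ E
  · left
    by_contra hA
    exact h2 (Finset.mem_sdiff.2 ⟨hEe, hA⟩)
  · right
    rw [hE, mem_incE] at hEe
    exact ⟨fun h => hEe ⟨h1, Or.inl h⟩, fun h => hEe ⟨h1, Or.inr h⟩⟩

include hE hDdef hPs in
lemma rank2_bound : lrk (evec (psi2 C n y)) E + 1 ≤ lrk (evec (psi2 C n y)) A + Ps.card := by
  classical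
  have hstep : ∀ u v, D.Adj u v → vec2 C n y u - vec2 C n y v ∈
      Submodule.span ℚ (evec (psi2 C n y) '' (A : Set (Sym2 V))) := by
    intro u v huv
    rcases adj_cases hE hDdef huv with h | ⟨h1, h2⟩
    · exact (psi_mem (psi2_anti C n y)).2 (Submodule.subset_span ⟨_, h, rfl⟩)
    · rw [vec2_out h1, vec2_out h2, sub_self]
      exact Submodule.zero_mem _
  -- representatives
  have hrep : ∀ P : Set V, ∃ p : V, P ∈ Ps → p ∈ P := by
    intro P
    by_cases hP : P ∈ Ps
    · obtain ⟨p, hp⟩ := ((hPs P).1 hP).ne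
      exact ⟨p, fun _ => hp⟩
    · exact ⟨y, fun h => absurd h hP⟩
  choose p hp using hrep
  set P₀ := compOf D univ y with hP₀
  have hP₀m : P₀ ∈ Ps := (hPs _).2 (isComp_compOf (mem_univ y))
  let T : Finset (V →₀ ℚ) := (Ps.erase P₀).image fun P => vec2 C n y (p P) - vec2 C n y y
  have hall : ∀ u, vec2 C n y u - vec2 C n y y ∈
      Submodule.span ℚ (evec (psi2 C n y) '' (A : Set (Sym2 V))) ⊔ Submodule.span ℚ (T : Set _) := by
    intro u
    have hc := isComp_compOf (D := D) (mem_univ u)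
    by_cases he : compOf D univ u = P₀
    · refine Submodule.mem_sup_left (conn_span hc.cc (vec2 C n y) _
        (fun a _ b _ hab => hstep a b hab) (mem_compOf (mem_univ u)) ?_)
      rw [he]; exact mem_compOf (mem_univ y)
    · have hm : compOf D univ u ∈ Ps := (hPs _).2 hc
      have h1 := conn_span hc.cc (vec2 C n y) _
        (fun a _ b _ hab => hstep a b hab) (mem_compOf (mem_univ u)) (hp _ hm)
      have h2 : vec2 C n y (p (compOf D univ u)) - vec2 C n y y ∈ Submodule.span ℚ (T : Set _) :=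
        Submodule.subset_span (Finset.mem_coe.2 (Finset.mem_image.2
          ⟨_, Finset.mem_erase.2 ⟨he, hm⟩, rfl⟩))
      have := Submodule.add_mem _ (Submodule.mem_sup_left (T := Submodule.span ℚ (T : Set _)) h1)
        (Submodule.mem_sup_right h2)
      simpa using this
  have h1 := lrk_le (evec (psi2 C n y)) (A := A) (E := E) T (by
    intro e he
    induction e using Sym2.ind with
    | _ u v =>
      rw [← psi_mem (psi2_anti C n y)]
      have := Submodule.sub_mem _ (hall u) (hall v)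
      change vec2 C n y u - vec2 C n y v ∈ _
      simpa using this)
  have h2 : T.card ≤ Ps.card - 1 := by
    refine Finset.card_image_le.trans ?_
    rw [Finset.card_erase_of_mem hP₀m]
  have h3 : 0 < Ps.card := Finset.card_pos.2 ⟨_, hP₀m⟩
  omega

open Classical in
include hC hE hDdef hPs in
lemma rank1_bound (hn : 0 < n) (hwne : ∀ i, (wall C i).Nonempty) :
    lrk (evec (psi1 C n y)) E + 1 + crossed D C n ≤ lrk (evec (psi1 C n y)) A +
      ∑ i ∈ Finset.range n, {K | IsComp D (wall C i) K}.ncard +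
      (Ps.filter (NoWall C n)).card := by
  have hSW : ∀ u v, u ∈ C (4 * n) → v ∉ C (4 * n) → ¬ SW C n u v := by
    rintro u v _ hv ⟨i, hi, _, h⟩
    exact hv (wall_subset hC hi h)
  -- edges inside walls
  have hstepl : ∀ i < n, ∀ u ∈ wall C i, ∀ v ∈ wall C i, D.Adj u v → hl u - hl v ∈
      Submodule.span ℚ (evec (psi1 C n y) '' (A : Set (Sym2 V))) := by
    intro i hi u hu v hv huv
    rcases adj_cases hE hDdef huv with h | ⟨h1, h2⟩
    · have := (psi_mem (psi1_anti C n y)).2
        (Submodule.subset_span (R := ℚ) (s := evec (psi1 C n y) '' (A : Set (Sym2 V))) ⟨_, h, rfl⟩)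
      rw [psi1_pos ⟨i, hi, hu, hv⟩] at this
      exact this
    · exact absurd (wall_subset hC hi hu) h1
  have hstepr : ∀ u v, D.Adj u v → hrr C n y u - hrr C n y v ∈
      Submodule.span ℚ (evec (psi1 C n y) '' (A : Set (Sym2 V))) := by
    intro u v huv
    rcases adj_cases hE hDdef huv with h | ⟨h1, h2⟩
    · by_cases hs : SW C n u v
      · obtain ⟨i, hi, hu, hv⟩ := hs
        rw [hrr_wall hC hi hu, hrr_wall hC hi hv, sub_self]
        exact Submodule.zero_mem _
      · have := (psi_mem (psi1_anti C n y)).2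
          (Submodule.subset_span (R := ℚ) (s := evec (psi1 C n y) '' (A : Set (Sym2 V))) ⟨_, h, rfl⟩)
        rw [psi1_neg hs] at this
        exact this
    · rw [hrr_out hC h1, hrr_out hC h2, sub_self]
      exact Submodule.zero_mem _
  -- representatives
  have hrep : ∀ P : Set V, ∃ p : V, P.Nonempty → p ∈ P := by
    intro P
    by_cases hP : P.Nonempty
    · obtain ⟨p, hp⟩ := hP
      exact ⟨p, fun _ => hp⟩
    · exact ⟨y, fun h => absurd h hP⟩
  choose p hp using hrep
  choose w hw using hwne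
  have hKfin : ∀ i, {K | IsComp D (wall C i) K}.Finite := fun i => finite_comps (wall_finite hC i)
  set K₀ : ℕ → Set V := fun i => compOf D (wall C i) (w i) with hK₀
  have hK₀m : ∀ i, IsComp D (wall C i) (K₀ i) := fun i => isComp_compOf (hw i)
  let Tw : ℕ → Finset ((V ⊕ (V ⊕ ℕ)) →₀ ℚ) := fun i =>
    ((hKfin i).toFinset.erase (K₀ i)).image fun K => hl (p K) - hl (w i)
  let Tn : Finset ((V ⊕ (V ⊕ ℕ)) →₀ ℚ) :=
    (Ps.filter (NoWall C n)).image fun P => hrr C n y (p P) - rho (n - 1)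
  let Ng : Finset ℕ := (Finset.range (n - 1)).filter
    fun i => ¬ ∃ P, IsComp D univ P ∧ CrossW C i P
  let Tg : Finset ((V ⊕ (V ⊕ ℕ)) →₀ ℚ) := Ng.image fun i => rho i - rho (i + 1)
  let T : Finset ((V ⊕ (V ⊕ ℕ)) →₀ ℚ) := ((Finset.range n).biUnion Tw ∪ Tn) ∪ Tg
  set S := Submodule.span ℚ (evec (psi1 C n y) '' (A : Set (Sym2 V))) ⊔
    Submodule.span ℚ (T : Set ((V ⊕ (V ⊕ ℕ)) →₀ ℚ)) with hS
  have hTS : ∀ x ∈ T, x ∈ S := fun x hx => Submodule.mem_sup_right
    (Submodule.subset_span (Finset.mem_coe.2 hx))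
  -- the walls
  have hL : ∀ i < n, ∀ u ∈ wall C i, hl u - hl (w i) ∈ S := by
    intro i hi u hu
    have hc := isComp_compOf (D := D) hu
    by_cases he : compOf D (wall C i) u = K₀ i
    · refine Submodule.mem_sup_left (conn_span hc.cc hl _
        (fun a ha b hb hab => hstepl i hi a (hc.sub ha) b (hc.sub hb) hab) (mem_compOf hu) ?_)
      rw [he]; exact mem_compOf (hw i)
    · have h1 := conn_span hc.cc hl _
        (fun a ha b hb hab => hstepl i hi a (hc.sub ha) b (hc.sub hb) hab) (mem_compOf hu)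
        (hp _ hc.ne)
      have h2 : hl (p (compOf D (wall C i) u)) - hl (w i) ∈ S := by
        apply hTS
        refine Finset.mem_union_left _ (Finset.mem_union_left _ (Finset.mem_biUnion.2
          ⟨i, Finset.mem_range.2 hi, Finset.mem_image.2 ⟨_, Finset.mem_erase.2 ⟨he, ?_⟩, rfl⟩⟩))
        rw [Set.Finite.mem_toFinset]
        exact hc
      have := Submodule.add_mem _ (Submodule.mem_sup_left h1 : _ ∈ S) h2
      simpa using this
  -- consecutive walls
  have hG1 : ∀ i, i + 1 < n → (rho i : (V ⊕ (V ⊕ ℕ)) →₀ ℚ) - rho (i + 1) ∈ S := by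
    intro i hi
    by_cases hcr : ∃ P, IsComp D univ P ∧ CrossW C i P
    · obtain ⟨P, hP, ⟨a, ha, ha'⟩, ⟨b, hb, hb'⟩⟩ := hcr
      have h1 := conn_span hP.cc (hrr C n y) _ (fun a _ b _ hab => hstepr a b hab) ha hb
      rw [hrr_wall hC (by omega) ha', hrr_wall hC hi hb'] at h1
      exact Submodule.mem_sup_left h1
    · apply hTS
      refine Finset.mem_union_right _ (Finset.mem_image.2 ⟨i, Finset.mem_filter.2
        ⟨Finset.mem_range.2 (by omega), hcr⟩, rfl⟩)
  have hG2 : ∀ k, ∀ i, i + k = n - 1 → (rho i : (V ⊕ (V ⊕ ℕ)) →₀ ℚ) - rho (n - 1) ∈ S := by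
    intro k
    induction k with
    | zero => intro i hi; rw [show i = n - 1 by omega, sub_self]; exact Submodule.zero_mem _
    | succ k ih =>
      intro i hi
      have := Submodule.add_mem _ (hG1 i (by omega)) (ih (i + 1) (by omega))
      simpa using this
  have hR : ∀ u, hrr C n y u - rho (n - 1) ∈ S := by
    intro u
    have hc := isComp_compOf (D := D) (mem_univ u)
    by_cases hnw : NoWall C n (compOf D univ u)
    · have h1 := conn_span hc.cc (hrr C n y) _ (fun a _ b _ hab => hstepr a b hab)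
        (mem_compOf (mem_univ u)) (hp _ hc.ne)
      have h2 : hrr C n y (p (compOf D univ u)) - rho (n - 1) ∈ S := by
        apply hTS
        exact Finset.mem_union_left _ (Finset.mem_union_right _ (Finset.mem_image.2
          ⟨_, Finset.mem_filter.2 ⟨(hPs _).2 hc, hnw⟩, rfl⟩))
      have := Submodule.add_mem _ (Submodule.mem_sup_left h1 : _ ∈ S) h2
      simpa using this
    · unfold NoWall at hnw
      push Not at hnw
      obtain ⟨i, hi, a, ha, ha'⟩ := hnw
      have h1 := conn_span hc.cc (hrr C n y) _ (fun a _ b _ hab => hstepr a b hab)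
        (mem_compOf (mem_univ u)) ha
      rw [hrr_wall hC hi ha'] at h1
      have := Submodule.add_mem _ (Submodule.mem_sup_left h1 : _ ∈ S)
        (hG2 (n - 1 - i) i (by omega))
      simpa using this
  have h1 := lrk_le (evec (psi1 C n y)) (A := A) (E := E) T (by
    intro e he
    induction e using Sym2.ind with
    | _ u v =>
      rw [← psi_mem (psi1_anti C n y)]
      by_cases hs : SW C n u v
      · rw [psi1_pos hs]
        obtain ⟨i, hi, hu, hv⟩ := hs
        have := Submodule.sub_mem _ (hL i hi u hu) (hL i hi v hv)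
        simpa using this
      · rw [psi1_neg hs]
        have := Submodule.sub_mem _ (hR u) (hR v)
        simpa using this)
  have c1 : ∀ i, (Tw i).card + 1 ≤ {K | IsComp D (wall C i) K}.ncard := by
    intro i
    have hm : K₀ i ∈ (hKfin i).toFinset := by
      rw [Set.Finite.mem_toFinset]; exact hK₀m i
    have h3 : (Tw i).card ≤ (hKfin i).toFinset.card - 1 := by
      refine Finset.card_image_le.trans ?_
      rw [Finset.card_erase_of_mem hm]
    have h4 : 0 < (hKfin i).toFinset.card := Finset.card_pos.2 ⟨_, hm⟩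
    rw [Set.ncard_eq_toFinset_card _ (hKfin i)]
    omega
  have c2 : ((Finset.range n).biUnion Tw).card + n ≤
      ∑ i ∈ Finset.range n, {K | IsComp D (wall C i) K}.ncard := by
    have h3 : ((Finset.range n).biUnion Tw).card ≤ ∑ i ∈ Finset.range n, (Tw i).card :=
      Finset.card_biUnion_le
    have h4 : ∑ i ∈ Finset.range n, ((Tw i).card + 1) ≤
        ∑ i ∈ Finset.range n, {K | IsComp D (wall C i) K}.ncard :=
      Finset.sum_le_sum fun i _ => c1 i
    rw [Finset.sum_add_distrib, Finset.sum_const, Finset.card_range, smul_eq_mul, mul_one] at h4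
    omega
  have c3 : Tn.card ≤ (Ps.filter (NoWall C n)).card := Finset.card_image_le
  have c4 : Tg.card + crossed D C n ≤ n - 1 := by
    have h3 : Tg.card ≤ Ng.card := Finset.card_image_le
    have h4 : crossed D C n = ((Finset.range (n - 1)).filter
        fun i => ∃ P, IsComp D univ P ∧ CrossW C i P).card := by
      unfold crossed
      rw [← Set.ncard_coe_finset]
      congr 1
      ext i
      simp only [Finset.coe_filter, Finset.mem_range, mem_ofPred_eq]
      constructor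
      · rintro ⟨h1, h2⟩; exact ⟨by omega, h2⟩
      · rintro ⟨h1, h2⟩; exact ⟨by omega, h2⟩
    have h5 := Finset.card_filter_add_card_filter_not (s := Finset.range (n - 1))
      (fun i => ∃ P, IsComp D univ P ∧ CrossW C i P)
    rw [Finset.card_range] at h5
    change ((Finset.range (n - 1)).filter _).card + Ng.card = n - 1 at h5
    omega
  have c5 : T.card ≤ ((Finset.range n).biUnion Tw).card + Tn.card + Tg.card := by
    refine (Finset.card_union_le _ _).trans ?_
    have := Finset.card_union_le ((Finset.range n).biUnion Tw) Tn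
    omega
  omega

end bounds

end Pool.H66.HC
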