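import Pool.Agent.Helper66.HC.Hull

/-! # Chains of good finite sets in a one-ended graph -/

open Set

namespace Pool.H66.HC

universe u

variable {V : Type u} {G : SimpleGraph V}

/-- no finite set separates two infinite sets -/
def OneEnded (G : SimpleGraph V) : Prop :=
  ∀ K : Set V, K.Finite → ∀ A : Set V, A ⊆ Kᶜ →
    (∀ u ∈ A, ∀ v, v ∉ K → v ∉ A → ¬ G.Adj u v) → A.Finite ∨ (Kᶜ \ A).Finite

/-- the chain of finite sets used to build the walls -/
structure Chain (G : SimpleGraph V) (C : ℕ → Set V) : Prop where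
  fin : ∀ j, (C j).Finite
  ne : (C 0).Nonempty
  mono : ∀ j, C j ⊆ C (j + 1)
  nbr : ∀ j, ∀ u ∈ C j, ∀ v, G.Adj u v → v ∈ C (j + 1)
  n1 : ∀ j, N1 G (C j)
  tc : ∀ j, TC G (C j)
  ring : ∀ j, CC G (C (j + 1) \ C j)
  out : ∀ j, CC G (C j)ᶜ

lemma ce_eq_zero {S T : Set V} (h : ∀ u ∈ S, ∀ v ∈ T, ¬ G.Adj u v) : ce G S T = 0 := by
  have : prs G S T = ∅ := by
    rw [Set.eq_empty_iff_forall_notMem]
    rintro ⟨a, b⟩ ⟨ha, hb, hab⟩
    exact h a ha b hb hab
  rw [ce, this, Set.ncard_empty]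

variable (hlf : ∀ v, (G.neighborSet v).Finite) (h4 : Four G) (h1 : OneEnded G) [Infinite V]

include hlf h4

omit [Infinite V] in
lemma isolated [Infinite V] {C A : Set V} (hn : N1 G C) (hA : A ⊆ Cᶜ) (hne : A.Nonempty)
    (hA' : A.Finite) (h : ∀ u ∈ A, ∀ v, v ∉ C → v ∉ A → ¬ G.Adj u v) : False := by
  have hd : Disjoint C A := by
    rw [Set.disjoint_left]
    intro v hv hv'
    exact hA hv' hv
  have e1 := hn A hA' hd
  have e2 := ce_compl_split hlf hA' hd
  have e3 := h4.fin hlf hA' hne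
  have e4 : ce G A (C ∪ A)ᶜ = 0 := ce_eq_zero fun u hu v hv =>
    h u hu v (fun hc => hv (Or.inl hc)) (fun hc => hv (Or.inr hc))
  omega

include h1

lemma out_cc {C : Set V} (hC : C.Finite) (hn : N1 G C) : CC G Cᶜ := by
  intro A hA hne hneq
  by_contra hcon
  push Not at hcon
  have hno : ∀ u ∈ A, ∀ v, v ∉ C → v ∉ A → ¬ G.Adj u v :=
    fun u hu v hv hv' => hcon u hu v ⟨hv, hv'⟩
  rcases h1 C hC A hA hno with hf | hf
  · exact isolated hlf h4 hn hA hne hf hno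
  · refine isolated hlf h4 hn (A := Cᶜ \ A) sdiff_subset ?_ hf ?_
    · rw [nonempty_iff_ne_empty]
      intro he
      exact hneq (hA.antisymm (sdiff_eq_empty.1 he))
    · intro u hu v hv hv' huv
      have hvA : v ∈ A := by
        by_contra hvA
        exact hv' ⟨hv, hvA⟩
      exact hno v hvA u hu.1 hu.2 huv.symm

lemma next_set {C : Set V} (hC : C.Finite) (hn : N1 G C) :
    ∃ C' : Set V, C'.Finite ∧ C ⊆ C' ∧ (∀ u ∈ C, ∀ v, G.Adj u v → v ∈ C') ∧ N1 G C' ∧ TC G C' ∧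
      CC G (C' \ C) := by
  have hout := out_cc hlf h4 h1 hC hn
  have hcne : (Cᶜ : Set V).Nonempty := hC.infinite_compl.nonempty
  have hnf : ((⋃ u ∈ C, G.neighborSet u) ∩ Cᶜ).Finite :=
    (hC.biUnion fun v _ => hlf v).subset inter_subset_left
  obtain ⟨A, hA, hAC, hAcc, hAne, hAn⟩ := cc_hull hout hnf inter_subset_right hcne
  obtain ⟨F, hF, hFt, -, hFA⟩ := tc_hull hlf h4 (hC.union hA)
  obtain ⟨X, hX, hFX, hXn, hXt⟩ := min_cut hlf h4 hF hFt
  have hAX : A ⊆ X := (subset_union_right.trans hFA).trans hFX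
  have hCX : C ⊆ X := (subset_union_left.trans hFA).trans hFX
  have hnb : ∀ u ∈ C, ∀ v, G.Adj u v → v ∉ C → v ∈ A := fun u hu v huv hv => by
    apply hAn
    refine ⟨?_, hv⟩
    simp only [mem_iUnion]
    exact ⟨u, hu, huv⟩
  refine ⟨X, hX, hCX, ?_, hXn, hXt, ?_⟩
  · intro u hu v huv
    by_cases hv : v ∈ C
    · exact hCX hv
    · exact hAX (hnb u hu v huv hv)
  · -- a part of the ring that does not meet `A` is joined to the rest of the ring
    have one : ∀ S ⊆ X \ C, S.Nonempty → Disjoint S A →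
        ∃ u ∈ S, ∃ v ∈ (X \ C) \ S, G.Adj u v := by
      intro S hS hne hSA
      by_contra hcon
      push Not at hcon
      have hSX : S ⊆ X := fun x hx => (hS hx).1
      have hneq : S ≠ X := by
        rintro rfl
        obtain ⟨a, ha⟩ := hAne
        exact Set.disjoint_left.1 hSA (hAX ha) ha
      have h2 := hXt S hSX hne hneq
      rw [ce_eq_zero] at h2
      · omega
      · intro u hu v hv huv
        by_cases hvC : v ∈ C
        · exact Set.disjoint_left.1 hSA hu (hnb v hvC u huv.symm (hS hu).2)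
        · exact hcon u hu v ⟨⟨hv.1, hvC⟩, hv.2⟩ huv
    intro S hS hne hneq
    by_cases hd : Disjoint S A
    · exact one S hS hne hd
    by_cases hd' : Disjoint ((X \ C) \ S) A
    · have hne' : ((X \ C) \ S).Nonempty := by
        rw [nonempty_iff_ne_empty]
        intro he
        exact hneq (hS.antisymm (sdiff_eq_empty.1 he))
      obtain ⟨u, hu, v, hv, huv⟩ := one _ sdiff_subset hne' hd'
      rw [sdiff_sdiff_cancel_left hS] at hv
      exact ⟨v, hv, u, hu, huv.symm⟩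
    · rw [Set.not_disjoint_iff] at hd hd'
      obtain ⟨x, hx, hxA⟩ := hd
      obtain ⟨y, hy, hyA⟩ := hd'
      obtain ⟨u, hu, v, hv, huv⟩ := hAcc (S ∩ A) inter_subset_right ⟨x, hx, hxA⟩ (by
        intro he
        have : y ∈ S ∩ A := by rw [he]; exact hyA
        exact hy.2 this.1)
      exact ⟨u, hu.1, v, ⟨⟨hAX hv.1, hAC hv.1⟩, fun h => hv.2 ⟨h, hv.1⟩⟩, huv⟩

theorem exists_chain : ∃ C : ℕ → Set V, Chain G C := by
  classical
  obtain ⟨F, hF, hFt, ⟨x, hx⟩, -⟩ := tc_hull hlf h4 (F := ∅) finite_empty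
  obtain ⟨X, hX, hFX, hXn, hXt⟩ := min_cut hlf h4 hF hFt
  let P : Type u := {C : Set V // C.Finite ∧ N1 G C ∧ TC G C}
  have hstep : ∀ C : P, ∃ C' : P, C.1 ⊆ C'.1 ∧ (∀ u ∈ C.1, ∀ v, G.Adj u v → v ∈ C'.1) ∧
      CC G (C'.1 \ C.1) := by
    rintro ⟨C, hC, hn, ht⟩
    obtain ⟨C', a, b, c, d, e, f⟩ := next_set hlf h4 h1 hC hn
    exact ⟨⟨C', a, d, e⟩, b, c, f⟩
  choose nx hnx using hstep
  let C : ℕ → P := fun n => Nat.rec ⟨X, hX, hXn, hXt⟩ (fun _ c => nx c) n
  have hC : ∀ j, C (j + 1) = nx (C j) := fun j => rfl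
  refine ⟨fun j => (C j).1, ⟨fun j => (C j).2.1, ⟨x, hFX hx⟩, fun j => ?_, fun j => ?_,
    fun j => (C j).2.2.1, fun j => (C j).2.2.2, fun j => ?_, fun j => ?_⟩⟩
  · rw [hC]; exact (hnx (C j)).1
  · rw [hC]; exact (hnx (C j)).2.1
  · rw [hC]; exact (hnx (C j)).2.2
  · exact out_cc hlf h4 h1 (C j).2.1 (C j).2.2.1

end Pool.H66.HC
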