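import Pool.Agent.Helper66.HC.Chain

/-! # Components of a vertex set in terms of cuts, counting of removed edges -/

open Set

namespace Pool.H66.HC

universe u

variable {V : Type u} {G D : SimpleGraph V}

/-- `K` is (the vertex set of) a component of `D[R]` -/
structure IsComp (D : SimpleGraph V) (R K : Set V) : Prop where
  ne : K.Nonempty
  sub : K ⊆ R
  closed : ∀ u ∈ K, ∀ v ∈ R, D.Adj u v → v ∈ K
  cc : CC D K

/-- the component of `v` -/
def compOf (D : SimpleGraph V) (R : Set V) (v : V) : Set V :=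
  {x | x ∈ R ∧ ∀ S ⊆ R, v ∈ S → (∀ u ∈ S, ∀ w ∈ R, D.Adj u w → w ∈ S) → x ∈ S}

lemma mem_compOf {R : Set V} {v : V} (hv : v ∈ R) : v ∈ compOf D R v :=
  ⟨hv, fun _ _ h _ => h⟩

lemma isComp_compOf {R : Set V} {v : V} (hv : v ∈ R) : IsComp D R (compOf D R v) := by
  have hcl : ∀ u ∈ compOf D R v, ∀ w ∈ R, D.Adj u w → w ∈ compOf D R v := by
    intro u hu w hw huw
    exact ⟨hw, fun S hS hvS hcl => hcl u (hu.2 S hS hvS hcl) w hw huw⟩
  refine ⟨⟨v, mem_compOf hv⟩, fun x hx => hx.1, hcl, ?_⟩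
  intro A hA hne hneq
  by_contra hcon
  push Not at hcon
  by_cases hvA : v ∈ A
  · apply hneq
    refine hA.antisymm fun x hx => ?_
    refine hx.2 A (fun y hy => (hA hy).1) hvA ?_
    intro u hu w hw huw
    by_contra hwA
    exact hcon u hu w ⟨hcl u (hA hu) w hw huw, hwA⟩ huw
  · obtain ⟨x, hx⟩ := hne
    have := (hA hx).2 (compOf D R v \ A) (fun y hy => hy.1.1) ⟨mem_compOf hv, hvA⟩ (by
      intro u hu w hw huw
      refine ⟨hcl u hu.1 w hw huw, fun hwA => ?_⟩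
      exact hcon w hwA u hu huw.symm)
    exact this.2 hx

lemma IsComp.subset_of_closed {R K S : Set V} (hK : IsComp D R K)
    (hS : ∀ u ∈ S, ∀ v ∈ R, D.Adj u v → v ∈ S) (h : (K ∩ S).Nonempty) : K ⊆ S := by
  by_contra hcon
  obtain ⟨u, hu, v, hv, huv⟩ := hK.cc (K ∩ S) inter_subset_left h (fun he => hcon (by
    rw [← he]; exact inter_subset_right))
  exact hv.2 ⟨hv.1, hS u hu.2 v (hK.sub hv.1) huv⟩

lemma IsComp.eq_or_disjoint {R K K' : Set V} (hK : IsComp D R K) (hK' : IsComp D R K') :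
    K = K' ∨ Disjoint K K' := by
  by_cases h : (K ∩ K').Nonempty
  · left
    refine (hK.subset_of_closed hK'.closed h).antisymm (hK'.subset_of_closed hK.closed ?_)
    rwa [inter_comm]
  · right
    rw [Set.disjoint_iff_inter_eq_empty]
    exact Set.not_nonempty_iff_eq_empty.1 h

lemma IsComp.disjoint {R K K' : Set V} (hK : IsComp D R K) (hK' : IsComp D R K') (h : K ≠ K') :
    Disjoint K K' := (hK.eq_or_disjoint hK').resolve_left h

/-- counting pairs with the first coordinate in `S` -/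
noncomputable def cnt (Q : Set (V × V)) (S : Set V) : ℕ := {p | p ∈ Q ∧ p.1 ∈ S}.ncard

lemma cnt_mono {Q : Set (V × V)} {S T : Set V} (h : S ⊆ T) (hfin : {p | p ∈ Q ∧ p.1 ∈ T}.Finite) :
    cnt Q S ≤ cnt Q T :=
  Set.ncard_le_ncard (fun _ hp => ⟨hp.1, h hp.2⟩) hfin

lemma cnt_union {Q : Set (V × V)} {S T : Set V} (h : Disjoint S T)
    (hS : {p | p ∈ Q ∧ p.1 ∈ S}.Finite) (hT : {p | p ∈ Q ∧ p.1 ∈ T}.Finite) :
    cnt Q (S ∪ T) = cnt Q S + cnt Q T := by
  unfold cnt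
  rw [← Set.ncard_union_eq _ hS hT]
  · congr 1
    ext p
    constructor
    · rintro ⟨h1, h2 | h2⟩
      · exact Or.inl ⟨h1, h2⟩
      · exact Or.inr ⟨h1, h2⟩
    · rintro (⟨h1, h2⟩ | ⟨h1, h2⟩)
      · exact ⟨h1, Or.inl h2⟩
      · exact ⟨h1, Or.inr h2⟩
  · rw [Set.disjoint_left]
    rintro p ⟨_, h1⟩ ⟨_, h1'⟩
    exact Set.disjoint_left.1 h h1 h1'

lemma sum_cnt {Q : Set (V × V)} (F : Finset (Set V)) : ∀ (B : Set V),
    {p | p ∈ Q ∧ p.1 ∈ B}.Finite → (∀ K ∈ F, K ⊆ B) →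
    (∀ K ∈ F, ∀ K' ∈ F, K ≠ K' → Disjoint K K') → ∑ K ∈ F, cnt Q K ≤ cnt Q B := by
  classical
  induction F using Finset.induction_on with
  | empty => intro B _ _ _; simp
  | insert K F hK ih =>
    intro B hB h1 h2
    rw [Finset.sum_insert hK]
    have hKB := h1 K (Finset.mem_insert_self _ _)
    have e1 : cnt Q (K ∪ (B \ K)) = cnt Q K + cnt Q (B \ K) := by
      refine cnt_union disjoint_sdiff_right ?_ ?_
      · exact hB.subset fun p hp => ⟨hp.1, hKB hp.2⟩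
      · exact hB.subset fun p hp => ⟨hp.1, hp.2.1⟩
    rw [union_sdiff_cancel hKB] at e1
    rw [e1]
    have := ih (B \ K) (hB.subset fun p hp => ⟨hp.1, hp.2.1⟩) (fun K' hK' x hx => ?_)
      (fun A hA A' hA' => h2 A (Finset.mem_insert_of_mem hA) A' (Finset.mem_insert_of_mem hA'))
    · omega
    · refine ⟨h1 K' (Finset.mem_insert_of_mem hK') hx, fun hxK => ?_⟩
      have hne : K ≠ K' := by rintro rfl; exact hK hK'
      exact Set.disjoint_left.1 (h2 K (Finset.mem_insert_self _ _) K'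
        (Finset.mem_insert_of_mem hK') hne) hxK hx

lemma ce_eq_cnt (S T : Set V) : ce G S T = cnt {p | p.2 ∈ T ∧ G.Adj p.1 p.2} S := by
  unfold ce cnt
  congr 1
  ext p
  exact ⟨fun h => ⟨⟨h.2.1, h.2.2⟩, h.1⟩, fun h => ⟨h.2, h.1.1, h.1.2⟩⟩

/-- the removed pairs -/
def rmv (G D : SimpleGraph V) : Set (V × V) := {p | G.Adj p.1 p.2 ∧ ¬ D.Adj p.1 p.2}

/-- number of removed edges, counted at `S` -/
noncomputable def fr (G D : SimpleGraph V) (S : Set V) : ℕ := cnt (rmv G D) S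

section

variable (hr : (rmv G D).Finite)

include hr

lemma fr_fin (S : Set V) : {p | p ∈ rmv G D ∧ p.1 ∈ S}.Finite := hr.subset fun _ h => h.1

lemma fr_mono {S T : Set V} (h : S ⊆ T) : fr G D S ≤ fr G D T := cnt_mono h (fr_fin hr T)

lemma fr_union {S T : Set V} (h : Disjoint S T) : fr G D (S ∪ T) = fr G D S + fr G D T :=
  cnt_union h (fr_fin hr S) (fr_fin hr T)

lemma ce_le_fr {S T : Set V} (h : ∀ u ∈ S, ∀ v ∈ T, ¬ D.Adj u v) : ce G S T ≤ fr G D S := by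
  unfold ce fr cnt
  refine Set.ncard_le_ncard ?_ (fr_fin hr S)
  rintro ⟨u, v⟩ ⟨h1, h2, h3⟩
  exact ⟨⟨h3, h u h1 v h2⟩, h1⟩

lemma one_le_fr {S : Set V} {u v : V} (hu : u ∈ S) (h : G.Adj u v) (h' : ¬ D.Adj u v) :
    1 ≤ fr G D S := by
  have : 0 < fr G D S := by
    unfold fr cnt
    rw [Set.ncard_pos (fr_fin hr S)]
    exact ⟨(u, v), ⟨h, h'⟩, hu⟩
  exact this

lemma two_le_fr {S A B : Set V} (hA : A ⊆ S) (hB : B ⊆ S) (hAB : Disjoint A B)
    (h1 : 1 ≤ fr G D A) (h2 : 1 ≤ fr G D B) : 2 ≤ fr G D S := by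
  have := fr_union hr hAB
  have h3 := fr_mono hr (union_subset hA hB)
  omega

end

lemma sum_almost {F : Finset (Set V)} {g : Set V → ℕ}
    (h : ∀ K ∈ F, ∀ K' ∈ F, K ≠ K' → 2 ≤ g K ∨ 2 ≤ g K') : 2 * F.card ≤ (∑ K ∈ F, g K) + 2 := by
  classical
  by_cases hb : ∃ K ∈ F, g K < 2
  · obtain ⟨K, hK, hlt⟩ := hb
    have h1 : ∀ K' ∈ F.erase K, 2 ≤ g K' := by
      intro K' hK'
      rw [Finset.mem_erase] at hK'
      rcases h K hK K' hK'.2 (Ne.symm hK'.1) with h2 | h2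
      · omega
      · exact h2
    have h2 : (F.erase K).card * 2 ≤ ∑ K' ∈ F.erase K, g K' :=
      Finset.card_nsmul_le_sum _ _ _ h1
    have h3 : ∑ K' ∈ F.erase K, g K' ≤ ∑ K' ∈ F, g K' :=
      Finset.sum_le_sum_of_subset (Finset.erase_subset _ _)
    have h4 := Finset.card_erase_of_mem hK
    have h5 : 0 < F.card := Finset.card_pos.2 ⟨K, hK⟩
    omega
  · push Not at hb
    have h2 : F.card * 2 ≤ ∑ K ∈ F, g K := Finset.card_nsmul_le_sum _ _ _ hb
    omega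

end Pool.H66.HC
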