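import Pool.Agent.Helper66.HC.Comp

/-! # Counting removed edges at one class -/

open Set

namespace Pool.H66.HC

universe u

variable {V : Type u} {G D : SimpleGraph V}

section walls

variable {C : ℕ → Set V}

/-- the walls -/
def wall (C : ℕ → Set V) (i : ℕ) : Set V := C (4 * i + 2) \ C (4 * i)

/-- the gaps -/
def gap (C : ℕ → Set V) (i : ℕ) : Set V := C (4 * i + 4) \ C (4 * i + 2)

variable (hC : Chain G C)

include hC

lemma Chain.mono' {a b : ℕ} (h : a ≤ b) : C a ⊆ C b := monotone_nat_of_le_succ hC.mono h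

variable (hlf : ∀ v, (G.neighborSet v).Finite) (hr : (rmv G D).Finite)

include hlf hr

omit hlf in
/-- a part of a ring that is closed in `D` and not everything has a removed edge -/
lemma ring_cut {j : ℕ} {P : Set V} (h1 : (P ∩ (C (j + 1) \ C j)).Nonempty)
    (h2 : ¬ (C (j + 1) \ C j) ⊆ P)
    (hcl : ∀ u ∈ P, ∀ v ∈ C (j + 1) \ C j, D.Adj u v → v ∈ P) :
    1 ≤ fr G D (P ∩ (C (j + 1) \ C j)) := by
  obtain ⟨u, hu, v, hv, huv⟩ := hC.ring j (P ∩ (C (j + 1) \ C j)) inter_subset_right h1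
    (fun he => h2 (by rw [← he]; exact inter_subset_left))
  refine one_le_fr hr hu huv fun hD => hv.2 ⟨hcl u hu.1 v hv.1 hD, hv.1⟩

omit hlf in
lemma wall_no_in {i : ℕ} {K : Set V} (hK : IsComp D (wall C i) K)
    (h : ∀ u ∈ K, ∀ v ∈ C (4 * i), ¬ D.Adj u v) : 2 ≤ fr G D K := by
  obtain ⟨x, hx⟩ := hC.ne
  have hx2 : x ∈ C (4 * i + 2) := hC.mono' (Nat.zero_le _) hx
  have hx0 : x ∈ C (4 * i) := hC.mono' (Nat.zero_le _) hx
  refine (hC.tc (4 * i + 2) K (fun y hy => (hK.sub hy).1) hK.ne ?_).trans (ce_le_fr hr ?_)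
  · rintro rfl
    exact (hK.sub hx2).2 hx0
  · intro u hu v hv huv
    by_cases hv0 : v ∈ C (4 * i)
    · exact h u hu v hv0 huv
    · exact hv.2 (hK.closed u hu v ⟨hv.1, hv0⟩ huv)

lemma wall_no_out [Infinite V] (h4 : Four G) {i : ℕ} {K : Set V} (hK : IsComp D (wall C i) K)
    (h : ∀ u ∈ K, ∀ v, v ∉ C (4 * i + 2) → ¬ D.Adj u v) : 2 ≤ fr G D K := by
  have hKf : K.Finite := (hC.fin (4 * i + 2)).subset fun x hx => (hK.sub hx).1
  have hd : Disjoint (C (4 * i)) K := by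
    rw [Set.disjoint_left]
    intro x hx hx'
    exact (hK.sub hx').2 hx
  have h1 := hC.n1 (4 * i) K hKf hd
  have h2 := ce_compl_split hlf hKf hd
  have h3 := h4.fin hlf hKf hK.ne
  have h5 : ce G K (C (4 * i) ∪ K)ᶜ ≤ fr G D K := by
    refine ce_le_fr hr ?_
    intro u hu v hv huv
    by_cases hv2 : v ∈ C (4 * i + 2)
    · exact hv (Or.inr (hK.closed u hu v ⟨hv2, fun h0 => hv (Or.inl h0)⟩ huv))
    · exact h u hu v hv2 huv
  omega

omit hlf in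
lemma wall_cross {i : ℕ} {K K' : Set V} (hK : IsComp D (wall C i) K)
    (hK' : IsComp D (wall C i) K') (hne : K ≠ K') (hD : D ≤ G)
    (h1 : ∃ u ∈ K, ∃ v ∈ C (4 * i), D.Adj u v) (h2 : ∃ u ∈ K, ∃ v, v ∉ C (4 * i + 2) ∧ D.Adj u v)
    (h1' : ∃ u ∈ K', ∃ v ∈ C (4 * i), D.Adj u v)
    (h2' : ∃ u ∈ K', ∃ v, v ∉ C (4 * i + 2) ∧ D.Adj u v) : 2 ≤ fr G D K := by
  have hdis := hK.disjoint hK' hne
  have meet : ∀ L : Set V, IsComp D (wall C i) L → (∃ u ∈ L, ∃ v ∈ C (4 * i), D.Adj u v) →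
      (∃ u ∈ L, ∃ v, v ∉ C (4 * i + 2) ∧ D.Adj u v) →
      (∃ u ∈ L, u ∈ C (4 * i + 1) \ C (4 * i)) ∧
      (∃ u ∈ L, u ∈ C (4 * i + 2) \ C (4 * i + 1)) := by
    intro L hL ha hb
    constructor
    · obtain ⟨u, hu, v, hv, huv⟩ := ha
      exact ⟨u, hu, hC.nbr _ v hv u (hD huv.symm), (hL.sub hu).2⟩
    · obtain ⟨u, hu, v, hv, huv⟩ := hb
      exact ⟨u, hu, (hL.sub hu).1, fun h => hv (hC.nbr _ u h v (hD huv))⟩
  obtain ⟨⟨a, ha, ha'⟩, ⟨b, hb, hb'⟩⟩ := meet K hK h1 h2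
  obtain ⟨⟨c, hc, hc'⟩, ⟨d, hd, hd'⟩⟩ := meet K' hK' h1' h2'
  have w0 : C (4 * i + 1) \ C (4 * i) ⊆ wall C i := fun x hx => ⟨hC.mono _ hx.1, hx.2⟩
  have w1 : C (4 * i + 1 + 1) \ C (4 * i + 1) ⊆ wall C i :=
    fun x hx => ⟨hx.1, fun h => hx.2 (hC.mono _ h)⟩
  have r0 := ring_cut hC (j := 4 * i) (P := K) hr ⟨a, ha, ha'⟩
    (fun h => Set.disjoint_left.1 hdis (h hc') hc)
    (fun u hu v hv huv => hK.closed u hu v (w0 hv) huv)
  have r1 := ring_cut hC (j := 4 * i + 1) (P := K) hr ⟨b, hb, hb'⟩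
    (fun h => Set.disjoint_left.1 hdis (h hd') hd)
    (fun u hu v hv huv => hK.closed u hu v (w1 hv) huv)
  refine two_le_fr hr inter_subset_left inter_subset_left ?_ r0 r1
  rw [Set.disjoint_left]
  rintro x ⟨_, hx⟩ ⟨_, hx'⟩
  exact hx'.2 hx.1

/-- at most one component of a wall has less than two removed edges -/
lemma wall_two [Infinite V] (h4 : Four G) (hD : D ≤ G) {i : ℕ} {K K' : Set V}
    (hK : IsComp D (wall C i) K) (hK' : IsComp D (wall C i) K') (hne : K ≠ K') :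
    2 ≤ fr G D K ∨ 2 ≤ fr G D K' := by
  by_contra hcon
  push Not at hcon
  obtain ⟨c1, c2⟩ := hcon
  have in1 : ∃ u ∈ K, ∃ v ∈ C (4 * i), D.Adj u v := by
    by_contra h
    push Not at h
    have := wall_no_in hC hr hK h
    omega
  have in2 : ∃ u ∈ K', ∃ v ∈ C (4 * i), D.Adj u v := by
    by_contra h
    push Not at h
    have := wall_no_in hC hr hK' h
    omega
  have out1 : ∃ u ∈ K, ∃ v, v ∉ C (4 * i + 2) ∧ D.Adj u v := by
    by_contra h
    push Not at h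
    have := wall_no_out hC hlf hr h4 hK h
    omega
  have out2 : ∃ u ∈ K', ∃ v, v ∉ C (4 * i + 2) ∧ D.Adj u v := by
    by_contra h
    push Not at h
    have := wall_no_out hC hlf hr h4 hK' h
    omega
  have := wall_cross hC hr hK hK' hne hD in1 out1 in2 out2
  omega

/-- the components of the wall `i` inside `P`, at least all but one with two removed edges -/
lemma wall_sum [Infinite V] (h4 : Four G) (hD : D ≤ G) {i : ℕ} {P : Set V}
    (F : Finset (Set V)) (hF : ∀ K ∈ F, IsComp D (wall C i) K ∧ K ⊆ P) :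
    2 * F.card ≤ fr G D (P ∩ wall C i) + 2 := by
  have h1 := sum_almost (F := F) (g := fr G D) (fun K hK K' hK' hne =>
    wall_two hC hlf hr h4 hD (hF K hK).1 (hF K' hK').1 hne)
  have h2 : ∑ K ∈ F, fr G D K ≤ fr G D (P ∩ wall C i) :=
    sum_cnt F (P ∩ wall C i) (fr_fin hr _)
      (fun K hK x hx => ⟨(hF K hK).2 hx, (hF K hK).1.sub hx⟩)
      (fun K hK K' hK' hne => (hF K hK).1.disjoint (hF K' hK').1 hne)
  omega

omit hlf in
/-- no loss if `P` does not meet the inner side -/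
lemma wall_sum' {i : ℕ} {P : Set V} (hP : ∀ u ∈ P, ∀ v, D.Adj u v → v ∈ P)
    (hin : P ∩ C (4 * i) = ∅)
    (F : Finset (Set V)) (hF : ∀ K ∈ F, IsComp D (wall C i) K ∧ K ⊆ P) :
    2 * F.card ≤ fr G D (P ∩ wall C i) := by
  have h1 : ∀ K ∈ F, 2 ≤ fr G D K := by
    intro K hK
    refine wall_no_in hC hr (hF K hK).1 ?_
    intro u hu v hv huv
    have : v ∈ P ∩ C (4 * i) := ⟨hP u ((hF K hK).2 hu) v huv, hv⟩
    rw [hin] at this
    exact this
  have h1' : F.card * 2 ≤ ∑ K ∈ F, fr G D K := Finset.card_nsmul_le_sum _ _ _ h1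
  have h2 : ∑ K ∈ F, fr G D K ≤ fr G D (P ∩ wall C i) :=
    sum_cnt F (P ∩ wall C i) (fr_fin hr _)
      (fun K hK x hx => ⟨(hF K hK).2 hx, (hF K hK).1.sub hx⟩)
      (fun K hK K' hK' hne => (hF K hK).1.disjoint (hF K' hK').1 hne)
  omega

/-- a finite class at its last wall -/
lemma top_sum [Infinite V] (h4 : Four G) (hD : D ≤ G) {i : ℕ} {P : Set V}
    (hP : ∀ u ∈ P, ∀ v, D.Adj u v → v ∈ P) (hPf : P.Finite)
    (F : Finset (Set V)) (hF : ∀ K ∈ F, IsComp D (wall C i) K ∧ K ⊆ P) :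
    2 * F.card ≤ fr G D (P \ C (4 * i)) ∧
    (P ∩ C (4 * i) = ∅ → 4 * F.card ≤ fr G D (P \ C (4 * i))) := by
  set X := C (4 * i) with hX
  set X' := C (4 * i + 2) with hX'
  have hXX' : X ⊆ X' := hC.mono' (by omega)
  set Q := P \ X with hQ
  set Z := P \ X' with hZ
  have hDlf : ∀ v, (D.neighborSet v).Finite := fun v => (hlf v).subset fun w hw => hD hw
  have hQf : Q.Finite := hPf.subset sdiff_subset
  have hZf : Z.Finite := hPf.subset sdiff_subset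
  -- `α ≤ fr Q`
  have a1 : ce D Q X ≤ fr G D Q := by
    have e1 : ce D Q X ≤ ce G Q X := Set.ncard_le_ncard
      (fun p hp => ⟨hp.1, hp.2.1, hD hp.2.2⟩) (prs_finite hlf hQf _)
    have e2 := hC.n1 (4 * i) Q hQf disjoint_sdiff_right
    have e3 : ce G Q (X ∪ Q)ᶜ ≤ fr G D Q := by
      refine ce_le_fr hr ?_
      intro u hu v hv huv
      exact hv (Or.inr ⟨hP u hu.1 v huv, fun h => hv (Or.inl h)⟩)
    exact e1.trans (e2.trans e3)
  have a2 : ce D Z X' ≤ fr G D Z := by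
    have e1 : ce D Z X' ≤ ce G Z X' := Set.ncard_le_ncard
      (fun p hp => ⟨hp.1, hp.2.1, hD hp.2.2⟩) (prs_finite hlf hZf _)
    have e2 := hC.n1 (4 * i + 2) Z hZf disjoint_sdiff_right
    have e3 : ce G Z (X' ∪ Z)ᶜ ≤ fr G D Z := by
      refine ce_le_fr hr ?_
      intro u hu v hv huv
      exact hv (Or.inr ⟨hP u hu.1 v huv, fun h => hv (Or.inl h)⟩)
    exact e1.trans (e2.trans e3)
  set W := P ∩ wall C i with hW
  have hWf : W.Finite := hPf.subset inter_subset_left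
  -- sums over the components
  have s1 : ∑ K ∈ F, fr G D K ≤ fr G D W :=
    sum_cnt F W (fr_fin hr _)
      (fun K hK x hx => ⟨(hF K hK).2 hx, (hF K hK).1.sub hx⟩)
      (fun K hK K' hK' hne => (hF K hK).1.disjoint (hF K' hK').1 hne)
  have hfinQ : ∀ T : Set V, {p : V × V | p ∈ {p : V × V | p.2 ∈ T ∧ D.Adj p.1 p.2} ∧ p.1 ∈ W}.Finite :=
    fun T => (prs_finite hDlf hWf T).subset fun p hp => ⟨hp.2, hp.1.1, hp.1.2⟩
  have s2 : ∀ T : Set V, ∑ K ∈ F, ce D K T ≤ ce D W T := by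
    intro T
    simp only [ce_eq_cnt]
    exact sum_cnt F W (hfinQ T)
      (fun K hK x hx => ⟨(hF K hK).2 hx, (hF K hK).1.sub hx⟩)
      (fun K hK K' hK' hne => (hF K hK).1.disjoint (hF K' hK').1 hne)
  have s3 : ∀ K ∈ F, 4 ≤ fr G D K + ce D K X + ce D K X'ᶜ := by
    intro K hK
    have hKf : K.Finite := hPf.subset (hF K hK).2
    refine (h4.fin hlf hKf (hF K hK).1.ne).trans ?_
    unfold ce fr cnt
    have e1 : prs G K Kᶜ ⊆ ({p | p ∈ rmv G D ∧ p.1 ∈ K} ∪ prs D K X) ∪ prs D K X'ᶜ := by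
      rintro ⟨u, v⟩ ⟨h1, h2, h3⟩
      by_cases hadj : D.Adj u v
      · by_cases hvX : v ∈ X
        · exact Or.inl (Or.inr ⟨h1, hvX, hadj⟩)
        · by_cases hvX' : v ∈ X'
          · exact absurd ((hF K hK).1.closed u h1 v ⟨hvX', hvX⟩ hadj) h2
          · exact Or.inr ⟨h1, hvX', hadj⟩
      · exact Or.inl (Or.inl ⟨⟨h3, hadj⟩, h1⟩)
    have f1 := fr_fin hr K
    have f2 := prs_finite hDlf hKf X
    have f3 := prs_finite hDlf hKf X'ᶜ
    refine (Set.ncard_le_ncard e1 ((f1.union f2).union f3)).trans ?_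
    refine (Set.ncard_union_le _ _).trans ?_
    have := Set.ncard_union_le {p | p ∈ rmv G D ∧ p.1 ∈ K} (prs D K X)
    omega
  have s4 : 4 * F.card ≤ fr G D W + ce D W X + ce D W X'ᶜ := by
    have h1 : F.card * 4 ≤ ∑ K ∈ F, (fr G D K + ce D K X + ce D K X'ᶜ) :=
      Finset.card_nsmul_le_sum _ _ _ s3
    rw [Finset.sum_add_distrib, Finset.sum_add_distrib] at h1
    have := s2 X
    have := s2 X'ᶜ
    omega
  have s5 : ce D W X'ᶜ ≤ ce D Z X' := by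
    have e1 : ce D W X'ᶜ ≤ ce D W Z := Set.ncard_le_ncard
      (fun p hp => ⟨hp.1, ⟨hP p.1 hp.1.1 p.2 hp.2.2, hp.2.1⟩, hp.2.2⟩) (prs_finite hDlf hWf _)
    rw [ce_comm W Z] at e1
    exact e1.trans (ce_mono hDlf hZf subset_rfl fun x hx => hx.2.1)
  have s6 : fr G D W + fr G D Z ≤ fr G D Q := by
    rw [← fr_union hr]
    · refine fr_mono hr ?_
      rintro x (hx | hx)
      · exact ⟨hx.1, hx.2.2⟩
      · exact ⟨hx.1, fun h => hx.2 (hXX' h)⟩
    · rw [Set.disjoint_left]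
      rintro x hx hx'
      exact hx'.2 hx.2.1
  have s7 : ce D W X ≤ ce D Q X := ce_mono hDlf hQf (fun x hx => ⟨hx.1, hx.2.2⟩) subset_rfl
  refine ⟨by omega, fun hin => ?_⟩
  have s8 : ce D Q X = 0 := by
    refine ce_eq_zero ?_
    intro u hu v hv huv
    have : v ∈ P ∩ X := ⟨hP u hu.1 v huv, hv⟩
    rw [hin] at this
    exact this
  omega

omit hlf in
/-- a class crossing a gap that is also crossed by something else -/
lemma gap_two {i : ℕ} {P : Set V}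
    (hP : ∀ u ∈ P, ∀ v, D.Adj u v → v ∈ P)
    (h1 : (P ∩ (C (4 * i + 3) \ C (4 * i + 2))).Nonempty)
    (h2 : (P ∩ (C (4 * i + 4) \ C (4 * i + 3))).Nonempty)
    (h3 : ¬ (C (4 * i + 3) \ C (4 * i + 2)) ⊆ P)
    (h4 : ¬ (C (4 * i + 4) \ C (4 * i + 3)) ⊆ P) : 2 ≤ fr G D (P ∩ gap C i) := by
  have r0 := ring_cut hC (j := 4 * i + 2) (P := P) hr h1 h3 (fun u hu v _ huv => hP u hu v huv)
  have r1 := ring_cut hC (j := 4 * i + 3) (P := P) hr h2 h4 (fun u hu v _ huv => hP u hu v huv)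
  refine two_le_fr hr ?_ ?_ ?_ r0 r1
  · rintro x ⟨hx, hx'⟩
    exact ⟨hx, hC.mono _ hx'.1, hx'.2⟩
  · rintro x ⟨hx, hx'⟩
    exact ⟨hx, hx'.1, fun h => hx'.2 (hC.mono _ h)⟩
  · rw [Set.disjoint_left]
    rintro x ⟨_, hx⟩ ⟨_, hx'⟩
    exact hx'.2 hx.1

omit hlf in
/-- the bottom of a class -/
lemma bottom_two {j : ℕ} {P : Set V}
    (hP : ∀ u ∈ P, ∀ v, D.Adj u v → v ∈ P) (h1 : P ∩ C j ≠ ∅) (h2 : ¬ C j ⊆ P) :
    2 ≤ fr G D (P ∩ C j) := by
  refine (hC.tc j (P ∩ C j) inter_subset_right (nonempty_iff_ne_empty.2 h1)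
    (fun he => h2 (by rw [← he]; exact inter_subset_left))).trans (ce_le_fr hr ?_)
  intro u hu v hv huv
  exact hv.2 ⟨hP u hu.1 v huv, hv.1⟩

end walls

end Pool.H66.HC
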