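import Mathlib

/-! # Counting edges between vertex sets; minimum cuts; two-edge-connected hulls -/

open Set

namespace Pool.H66.HC

universe u

variable {V : Type u} (G : SimpleGraph V)

/-- the ordered pairs `(u, v)` of adjacent vertices with `u ∈ S`, `v ∈ T` -/
def prs (S T : Set V) : Set (V × V) := {p | p.1 ∈ S ∧ p.2 ∈ T ∧ G.Adj p.1 p.2}

/-- the number of edges between `S` and `T` (for disjoint sets) -/
noncomputable def ce (S T : Set V) : ℕ := (prs G S T).ncard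

variable {G}

lemma prs_finite (hlf : ∀ v, (G.neighborSet v).Finite) {S : Set V} (hS : S.Finite) (T : Set V) :
    (prs G S T).Finite := by
  refine (hS.biUnion fun v _ => ((hlf v).image fun w => (v, w))).subset ?_
  rintro ⟨u, v⟩ ⟨h1, -, h3⟩
  simp only [mem_iUnion]
  exact ⟨u, h1, v, h3, rfl⟩

lemma prs_swap (S T : Set V) : Prod.swap '' prs G S T = prs G T S := by
  ext ⟨u, v⟩
  constructor
  · rintro ⟨⟨a, b⟩, ⟨h1, h2, h3⟩, he⟩
    simp only [Prod.swap_prod_mk, Prod.mk.injEq] at he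
    obtain ⟨rfl, rfl⟩ := he
    exact ⟨h2, h1, h3.symm⟩
  · rintro ⟨h1, h2, h3⟩
    exact ⟨(v, u), ⟨h2, h1, h3.symm⟩, rfl⟩

lemma ce_comm (S T : Set V) : ce G S T = ce G T S := by
  unfold ce
  rw [← prs_swap S T]
  exact (Set.ncard_image_of_injective _ Prod.swap_injective).symm

lemma prs_mono {S S' T T' : Set V} (h : S ⊆ S') (h' : T ⊆ T') : prs G S T ⊆ prs G S' T' :=
  fun _ hp => ⟨h hp.1, h' hp.2.1, hp.2.2⟩

variable (hlf : ∀ v, (G.neighborSet v).Finite)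

include hlf

lemma ce_mono {S S' T T' : Set V} (hS : S'.Finite) (h : S ⊆ S') (h' : T ⊆ T') :
    ce G S T ≤ ce G S' T' :=
  Set.ncard_le_ncard (prs_mono h h') (prs_finite hlf hS T')

lemma ce_union_right {S T T' : Set V} (hS : S.Finite) (h : Disjoint T T') :
    ce G S (T ∪ T') = ce G S T + ce G S T' := by
  unfold ce
  rw [← Set.ncard_union_eq _ (prs_finite hlf hS T) (prs_finite hlf hS T')]
  · congr 1
    ext p
    constructor
    · rintro ⟨h1, h2 | h2, h3⟩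
      · exact Or.inl ⟨h1, h2, h3⟩
      · exact Or.inr ⟨h1, h2, h3⟩
    · rintro (⟨h1, h2, h3⟩ | ⟨h1, h2, h3⟩)
      · exact ⟨h1, Or.inl h2, h3⟩
      · exact ⟨h1, Or.inr h2, h3⟩
  · rw [Set.disjoint_left]
    rintro p ⟨_, h2, _⟩ ⟨_, h2', _⟩
    exact Set.disjoint_left.1 h h2 h2'

lemma ce_union_left {S S' T : Set V} (hS : S.Finite) (hS' : S'.Finite) (h : Disjoint S S') :
    ce G (S ∪ S') T = ce G S T + ce G S' T := by
  unfold ce
  rw [← Set.ncard_union_eq _ (prs_finite hlf hS T) (prs_finite hlf hS' T)]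
  · congr 1
    ext p
    constructor
    · rintro ⟨h1 | h1, h2, h3⟩
      · exact Or.inl ⟨h1, h2, h3⟩
      · exact Or.inr ⟨h1, h2, h3⟩
    · rintro (⟨h1, h2, h3⟩ | ⟨h1, h2, h3⟩)
      · exact ⟨Or.inl h1, h2, h3⟩
      · exact ⟨Or.inr h1, h2, h3⟩
  · rw [Set.disjoint_left]
    rintro p ⟨h1, _, _⟩ ⟨h1', _, _⟩
    exact Set.disjoint_left.1 h h1 h1'

/-- the effect of adding a disjoint set to a cut -/
lemma delta_union {X Z : Set V} (hX : X.Finite) (hZ : Z.Finite) (h : Disjoint X Z) :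
    ce G (X ∪ Z) (X ∪ Z)ᶜ + ce G Z X = ce G X Xᶜ + ce G Z (X ∪ Z)ᶜ := by
  have e1 : Xᶜ = Z ∪ (X ∪ Z)ᶜ := by
    ext v
    simp only [mem_compl_iff, mem_union, not_or]
    constructor
    · intro hv
      by_cases hz : v ∈ Z
      · exact Or.inl hz
      · exact Or.inr ⟨hv, hz⟩
    · rintro (hz | hz)
      · exact fun hx => Set.disjoint_left.1 h hx hz
      · exact hz.1
  have d1 : Disjoint Z (X ∪ Z)ᶜ := by
    rw [Set.disjoint_left]
    intro v hv hv'
    exact hv' (Or.inr hv)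
  have h1 : ce G X Xᶜ = ce G X Z + ce G X (X ∪ Z)ᶜ := by
    conv_lhs => rw [e1]
    exact ce_union_right hlf hX d1
  rw [ce_union_left hlf hX hZ h, h1, ce_comm X Z]
  omega

lemma ce_compl_split {X Z : Set V} (hZ : Z.Finite) (h : Disjoint X Z) :
    ce G Z Zᶜ = ce G Z X + ce G Z (X ∪ Z)ᶜ := by
  have e1 : Zᶜ = X ∪ (X ∪ Z)ᶜ := by
    ext v
    simp only [mem_compl_iff, mem_union, not_or]
    constructor
    · intro hv
      by_cases hx : v ∈ X
      · exact Or.inl hx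
      · exact Or.inr ⟨hx, hv⟩
    · rintro (hx | hx)
      · exact fun hz => Set.disjoint_left.1 h hx hz
      · exact hx.2
  have d1 : Disjoint X (X ∪ Z)ᶜ := by
    rw [Set.disjoint_left]
    intro v hv hv'
    exact hv' (Or.inl hv)
  conv_lhs => rw [e1]
  exact ce_union_right hlf hZ d1

omit hlf

/-- connectedness of a vertex set in terms of cuts -/
def CC (G : SimpleGraph V) (S : Set V) : Prop :=
  ∀ A ⊆ S, A.Nonempty → A ≠ S → ∃ u ∈ A, ∃ v ∈ S \ A, G.Adj u v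

/-- two-edge-connectedness of a vertex set in terms of cuts -/
def TC (G : SimpleGraph V) (S : Set V) : Prop :=
  ∀ A ⊆ S, A.Nonempty → A ≠ S → 2 ≤ ce G A (S \ A)

/-- minimum cut property from the outside -/
def N1 (G : SimpleGraph V) (X : Set V) : Prop :=
  ∀ Z : Set V, Z.Finite → Disjoint X Z → ce G Z X ≤ ce G Z (X ∪ Z)ᶜ

lemma cc_singleton (x : V) : CC G {x} := by
  intro A hA hne hneq
  exact absurd (hne.subset_singleton_iff.1 hA) hneq

lemma tc_singleton (x : V) : TC G {x} := by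
  intro A hA hne hneq
  exact absurd (hne.subset_singleton_iff.1 hA) hneq

lemma cc_union {S T : Set V} (hS : CC G S) (hT : CC G T) {r : V} (h1 : r ∈ S) (h2 : r ∈ T) :
    CC G (S ∪ T) := by
  intro A hA hne hneq
  by_cases c1 : (A ∩ S).Nonempty ∧ A ∩ S ≠ S
  · obtain ⟨u, hu, v, hv, huv⟩ := hS _ inter_subset_right c1.1 c1.2
    exact ⟨u, hu.1, v, ⟨Or.inl hv.1, fun h => hv.2 ⟨h, hv.1⟩⟩, huv⟩
  by_cases c2 : (A ∩ T).Nonempty ∧ A ∩ T ≠ T
  · obtain ⟨u, hu, v, hv, huv⟩ := hT _ inter_subset_right c2.1 c2.2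
    exact ⟨u, hu.1, v, ⟨Or.inr hv.1, fun h => hv.2 ⟨h, hv.1⟩⟩, huv⟩
  exfalso
  push Not at c1 c2
  by_cases hr : r ∈ A
  · have e1 := c1 ⟨r, hr, h1⟩
    have e2 := c2 ⟨r, hr, h2⟩
    apply hneq
    refine hA.antisymm ?_
    rintro x (hx | hx)
    · rw [← e1] at hx; exact hx.1
    · rw [← e2] at hx; exact hx.1
  · obtain ⟨x, hx⟩ := hne
    rcases hA hx with hx' | hx'
    · have e1 := c1 ⟨x, hx, hx'⟩
      rw [← e1] at h1; exact hr h1.1
    · have e2 := c2 ⟨x, hx, hx'⟩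
      rw [← e2] at h2; exact hr h2.1

include hlf in
lemma tc_union {S T : Set V} (fS : S.Finite) (fT : T.Finite) (hS : TC G S) (hT : TC G T) {r : V}
    (h1 : r ∈ S) (h2 : r ∈ T) : TC G (S ∪ T) := by
  intro A hA hne hneq
  have fA : A.Finite := (fS.union fT).subset hA
  by_cases c1 : (A ∩ S).Nonempty ∧ A ∩ S ≠ S
  · refine (hS _ inter_subset_right c1.1 c1.2).trans (ce_mono hlf fA inter_subset_left ?_)
    rintro v hv
    exact ⟨Or.inl hv.1, fun h => hv.2 ⟨h, hv.1⟩⟩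
  by_cases c2 : (A ∩ T).Nonempty ∧ A ∩ T ≠ T
  · refine (hT _ inter_subset_right c2.1 c2.2).trans (ce_mono hlf fA inter_subset_left ?_)
    rintro v hv
    exact ⟨Or.inr hv.1, fun h => hv.2 ⟨h, hv.1⟩⟩
  exfalso
  push Not at c1 c2
  by_cases hr : r ∈ A
  · have e1 := c1 ⟨r, hr, h1⟩
    have e2 := c2 ⟨r, hr, h2⟩
    apply hneq
    refine hA.antisymm ?_
    rintro x (hx | hx)
    · rw [← e1] at hx; exact hx.1
    · rw [← e2] at hx; exact hx.1
  · obtain ⟨x, hx⟩ := hne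
    rcases hA hx with hx' | hx'
    · have e1 := c1 ⟨x, hx, hx'⟩
      rw [← e1] at h1; exact hr h1.1
    · have e2 := c2 ⟨x, hx, hx'⟩
      rw [← e2] at h2; exact hr h2.1

/-- hulls: a property of finite sets that holds for singletons, passes to unions of sets with a
common point and joins adjacent vertices of a connected set `S` -/
lemma hull {S : Set V} (hS : CC G S) (Q : Set V → Prop) (h0 : ∀ x, Q {x})
    (h1 : ∀ A B : Set V, A.Finite → B.Finite → Q A → Q B → ∀ r, r ∈ A → r ∈ B → Q (A ∪ B))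
    (h2 : ∀ u ∈ S, ∀ v ∈ S, G.Adj u v → ∃ T : Set V, T.Finite ∧ T ⊆ S ∧ Q T ∧ u ∈ T ∧ v ∈ T)
    {F : Set V} (hF : F.Finite) (hFS : F ⊆ S) (hS0 : S.Nonempty) :
    ∃ T : Set V, T.Finite ∧ T ⊆ S ∧ Q T ∧ T.Nonempty ∧ F ⊆ T := by
  obtain ⟨r, hr⟩ := hS0
  have key : ∀ x ∈ S, ∃ T : Set V, T.Finite ∧ T ⊆ S ∧ Q T ∧ r ∈ T ∧ x ∈ T := by
    by_contra hcon
    push Not at hcon
    obtain ⟨x, hx, hx'⟩ := hcon
    obtain ⟨u, hu, v, hv, huv⟩ := hS {x | x ∈ S ∧ ∃ T : Set V, T.Finite ∧ T ⊆ S ∧ Q T ∧ r ∈ T ∧ x ∈ T}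
      (fun x hx => hx.1)
      ⟨r, hr, {r}, finite_singleton r, singleton_subset_iff.2 hr, h0 r, rfl, rfl⟩
      (by
        intro he
        have : x ∈ {x | x ∈ S ∧ ∃ T : Set V, T.Finite ∧ T ⊆ S ∧ Q T ∧ r ∈ T ∧ x ∈ T} := by
          rw [he]; exact hx
        obtain ⟨-, T, a, b, c, d, e⟩ := this
        exact hx' T a b c d e)
    obtain ⟨huS, T, a, b, c, d, e⟩ := hu
    obtain ⟨T', a', b', c', d', e'⟩ := h2 u huS v hv.1 huv
    exact hv.2 ⟨hv.1, T ∪ T', a.union a', union_subset b b', h1 T T' a a' c c' u e d',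
      Or.inl d, Or.inr e'⟩
  induction F, hF using Set.Finite.induction_on with
  | empty =>
    exact ⟨{r}, finite_singleton r, singleton_subset_iff.2 hr, h0 r, singleton_nonempty r,
      empty_subset _⟩
  | @insert x s hx hs ih =>
    -- strengthen: the hull contains `r`
    obtain ⟨T, a, b, c, d, e⟩ := ih (fun y hy => hFS (Or.inr hy))
    obtain ⟨y, hy⟩ := d
    obtain ⟨T1, a1, b1, c1, d1, e1⟩ := key x (hFS (Or.inl rfl))
    obtain ⟨T2, a2, b2, c2, d2, e2⟩ := key y (b hy)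
    refine ⟨(T ∪ T2) ∪ T1, (a.union a2).union a1, union_subset (union_subset b b2) b1,
      h1 _ _ (a.union a2) a1 (h1 _ _ a a2 c c2 y hy e2) c1 r (Or.inr d2) d1,
      ⟨y, Or.inl (Or.inl hy)⟩, ?_⟩
    rintro z (rfl | hz)
    · exact Or.inr e1
    · exact Or.inl (Or.inl (e hz))

lemma cc_pair {u v : V} (h : G.Adj u v) : CC G {u, v} := by
  intro A hA hne hneq
  by_cases hu : u ∈ A
  · refine ⟨u, hu, v, ⟨Or.inr rfl, fun hv => hneq ?_⟩, h⟩
    refine hA.antisymm ?_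
    rintro x (rfl | rfl)
    · exact hu
    · exact hv
  · obtain ⟨x, hx⟩ := hne
    rcases hA hx with rfl | rfl
    · exact absurd hx hu
    · exact ⟨x, hx, u, ⟨Or.inl rfl, hu⟩, h.symm⟩

lemma cc_hull {S : Set V} (hS : CC G S) {F : Set V} (hF : F.Finite) (hFS : F ⊆ S)
    (hS0 : S.Nonempty) : ∃ T : Set V, T.Finite ∧ T ⊆ S ∧ CC G T ∧ T.Nonempty ∧ F ⊆ T := by
  refine hull hS (CC G) cc_singleton (fun A B _ _ h1 h2 r hr hr' => cc_union h1 h2 hr hr') ?_
    hF hFS hS0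
  intro u hu v hv huv
  refine ⟨{u, v}, (finite_singleton v).insert u, ?_, cc_pair huv, Or.inl rfl, Or.inr rfl⟩
  rintro x (rfl | rfl)
  · exact hu
  · exact hv

end Pool.H66.HC
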