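import Mathlib

/-! # The end compactification `|H|` of a graph and Hamilton circles

* `Complex1 H`: the 1-complex of `H`, in barycentric coordinates (functions `V → ℝ` that are
  convex combinations of the indicator functions of one vertex or of two adjacent vertices);
* `FC H`: the points of the 1-complex of `H` together with the ends of `H` (Mathlib's
  `SimpleGraph.end`);
* the topology of `FC H` is generated by the open stars `{x : x v > r}` (`v` a vertex, `0 ≤ r`)
  and, for every finite vertex set `K` and every component `C` of `H - K`, by the set of all
  points of the 1-complex with a positive coordinate in `C` together with all ends living in `C`.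
  For a locally finite connected graph this is the Freudenthal compactification.
* `HasHamiltonCircle H`: some subspace of `FC H` is homeomorphic to the unit circle and contains
  every vertex of `H`.
-/

open Set Topology

namespace Pool.H66.HC

universe u

variable {V : Type u}

open Classical in
/-- The point `(1 - t) • a + t • b` of the segment between the vertices `a` and `b`. -/
noncomputable def edgePt (a b : V) (t : ℝ) : V → ℝ := fun v =>
  (1 - t) * (if v = a then 1 else 0) + t * (if v = b then 1 else 0)

/-- The 1-complex of `H` in barycentric coordinates. -/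
def Complex1 (H : SimpleGraph V) : Type u :=
  {x : V → ℝ // ∃ a b t, (a = b ∨ H.Adj a b) ∧ 0 ≤ t ∧ t ≤ 1 ∧ x = edgePt a b t}

/-- The points of `|H|`: points of the 1-complex of `H`, and ends of `H`. -/
inductive FC (H : SimpleGraph V) : Type u
  | pt (x : Complex1 H)
  | en (ω : H.end)

/-- The vertex `v` as a point of the 1-complex. -/
noncomputable def vtx (H : SimpleGraph V) (v : V) : Complex1 H :=
  ⟨edgePt v v 0, v, v, 0, Or.inl rfl, le_rfl, zero_le_one, rfl⟩

/-- The open star of radius `1 - r` around the vertex `v`. -/
def starSet (H : SimpleGraph V) (v : V) (r : ℝ) : Set (FC H) :=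
  {p | ∃ x, p = FC.pt x ∧ r < x.1 v}

/-- For a component `C` of `H - K`: the points of the 1-complex with a positive coordinate
at some vertex of `C`, and the ends of `H` that live in `C`. -/
def regionSet (H : SimpleGraph V) (K : Finset V) (C : H.ComponentCompl K) : Set (FC H) :=
  {p | (∃ x, p = FC.pt x ∧ ∃ v ∈ C, 0 < x.1 v) ∨ (∃ ω, p = FC.en ω ∧ ω.1 (Opposite.op K) = C)}

/-- The topology of `|H|`. -/
instance (H : SimpleGraph V) : TopologicalSpace (FC H) :=
  TopologicalSpace.generateFrom
    ({U | ∃ v r, 0 ≤ r ∧ U = starSet H v r} ∪ {U | ∃ K C, U = regionSet H K C})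

/-- `H` has a Hamilton circle: a subspace of `|H|` that is homeomorphic to the circle and
contains every vertex of `H`. -/
def HasHamiltonCircle (H : SimpleGraph V) : Prop :=
  ∃ S : Set (FC H), Nonempty (S ≃ₜ Circle) ∧ ∀ v, FC.pt (vtx H v) ∈ S

end Pool.H66.HC
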