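import Pool.Agent.Helper66.HC.Order

/-! # From a multigraph with even finite cuts to a Hamilton circle -/

open Set

namespace Pool.H66.HC

universe u v

variable {V : Type u} {E : Type v} {G : MG V E} {idx : E → ℕ} [Nonempty E]

section descend

variable (hidx : Function.Injective idx) (hlf : ∀ x, {e | ∃ v, G.lk e x v}.Finite)
  {p₀ : Finset E × V} (h0 : Good G p₀)

include hlf h0

/-- `A` is a gap for the order below `p₀` -/
structure LGap (G : MG V E) (idx : E → ℕ) (p₀ : Finset E × V) (A : Set E) : Prop where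
  lower : ∀ a ∈ A, ∀ b ∈ dom G p₀, Lt G idx p₀ b a → b ∈ A
  nomax : ∀ a ∈ A, ∃ a' ∈ A, Lt G idx p₀ a a'
  nomin : ∀ b ∈ dom G p₀, b ∉ A → ∃ b' ∈ dom G p₀, b' ∉ A ∧ Lt G idx p₀ b' b
  sub : A ⊆ dom G p₀

include hidx

lemma LGap.lt {A : Set E} (hA : LGap G idx p₀ A) {a b : E} (ha : a ∈ A) (hb : b ∈ dom G p₀)
    (hb' : b ∉ A) : Lt G idx p₀ a b := by
  have hne : a ≠ b := fun h => hb' (h ▸ ha)
  rcases Lt.total hidx hlf h0 (hA.sub ha) hb hne with h | h
  · exact h
  · exact absurd (hA.lower a ha b hb h) hb'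

/-- splitting nodes -/
structure Split (G : MG V E) (idx : E → ℕ) (A : Set E) (q : Finset E × V) : Prop where
  fe : fe G idx q ∈ A
  la : la G idx q ∉ A

lemma split_step {A : Set E} (hA : LGap G idx p₀ A) {q : Finset E × V}
    (hq : Desc G idx p₀ q) (hs : Split G idx A q) :
    ∃ j, IsKid G idx q j ∧ Split G idx A (kid G idx q j) := by
  classical
  have hg := hq.good hlf h0
  have hl := len_pos (idx := idx) hlf hg
  -- find consecutive edges
  have hex : ∃ j, j < len G idx q ∧ ed G idx q j ∉ A := ⟨len G idx q - 1, by omega, hs.la⟩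
  obtain ⟨h1, h2⟩ := Nat.find_spec hex
  obtain ⟨j, hj⟩ : ∃ j, Nat.find hex = j + 1 := by
    rcases Nat.eq_zero_or_pos (Nat.find hex) with h | h
    · exfalso; rw [h] at h2; exact h2 hs.fe
    · exact ⟨Nat.find hex - 1, by omega⟩
  have hjA : ed G idx q j ∈ A := by
    by_contra hcon
    exact Nat.find_min hex (show j < Nat.find hex by omega) ⟨by omega, hcon⟩
  rw [hj] at h1 h2
  have hjd : ed G idx q j ∈ dom G q := tr_sub_dom hlf hg (ed_mem (by omega))
  have hjd1 : ed G idx q (j + 1) ∈ dom G q := tr_sub_dom hlf hg (ed_mem h1)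
  have hc := code_ed (idx := idx) hlf hg (show j < len G idx q by omega)
  have hc1 := code_ed (idx := idx) hlf hg h1
  -- elements strictly between lie in the child
  have hbetween : ∀ g ∈ dom G p₀, Lt G idx p₀ (ed G idx q j) g →
      Lt G idx p₀ g (ed G idx q (j + 1)) → IsKid G idx q j ∧ g ∈ dom G (kid G idx q j) := by
    intro g hg' g1 g2
    have hgq := hq.convex hlf h0 hjd hjd1 hg' g1 g2
    rw [hq.lt_iff hlf h0 hjd hgq] at g1
    rw [hq.lt_iff hlf h0 hgq hjd1] at g2
    have c1 := g1.code_le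
    have c2 := g2.code_le
    rw [hc] at c1
    rw [hc1] at c2
    rcases code_cases (idx := idx) hlf hg hgq with ⟨i, hi, rfl, hc'⟩ | ⟨i, hi, _, hig, hc'⟩
    · have : i = j ∨ i = j + 1 := by omega
      rcases this with h | h <;> subst h
      · exact absurd g1 Lt.irrefl
      · exact absurd g2 Lt.irrefl
    · have : i = j := by omega
      subst this
      exact ⟨hi, hig⟩
  obtain ⟨a, ha, hja⟩ := hA.nomax _ hjA
  have hjd1' : ed G idx q (j + 1) ∈ dom G p₀ := hq.sub hlf h0 hjd1
  obtain ⟨hk, hak⟩ := hbetween a (hA.sub ha) hja (hA.lt hidx hlf h0 ha hjd1' h2)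
  obtain ⟨b, hb, hbA, hbj⟩ := hA.nomin _ hjd1' h2
  obtain ⟨_, hbk⟩ := hbetween b hb (hA.lt hidx hlf h0 hjA hb hbA) hbj
  have hkg := kid_good hlf hg hk
  have hkd := Desc.kid hq hk
  refine ⟨j, hk, ?_, ?_⟩
  · have hf := fe_mem (idx := idx) hlf hkg
    by_cases h : a = fe G idx (kid G idx q j)
    · rw [← h]; exact ha
    · apply hA.lower a ha _ (hkd.sub hlf h0 hf)
      rw [hkd.lt_iff hlf h0 hf hak]
      exact first_min hlf hkg hak h
  · intro hla
    have hf := la_mem (idx := idx) hlf hkg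
    by_cases h : b = la G idx (kid G idx q j)
    · exact hbA (h ▸ hla)
    · have h3 := hA.lt hidx hlf h0 hla hb hbA
      rw [hkd.lt_iff hlf h0 hf hbk] at h3
      exact Lt.asymm h3 (last_max hlf hkg hbk h)

lemma split_deep {A : Set E} (hA : LGap G idx p₀ A) (N : ℕ) {q : Finset E × V}
    (hq : Desc G idx p₀ q) (hs : Split G idx A q) :
    ∃ q', Desc G idx q q' ∧ Split G idx A q' ∧ ∀ e ∈ dom G q', N < idx e := by
  have key : ∀ n : ℕ, ∀ q, Desc G idx p₀ q → Split G idx A q →
      {g ∈ dom G q | idx g ≤ N}.ncard = n →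
      ∃ q', Desc G idx q q' ∧ Split G idx A q' ∧ ∀ e ∈ dom G q', N < idx e := by
    intro n
    induction n using Nat.strong_induction_on with
    | _ n ih =>
      intro q hq hs hn
      by_cases hN : ∃ e ∈ dom G q, idx e ≤ N
      · obtain ⟨j, hj, hsj⟩ := split_step hidx hlf h0 hA hq hs
        have hlt := measure_lt hidx hlf (hq.good hlf h0) (j := j) hN
        rw [hn] at hlt
        obtain ⟨q', h1, h2, h3⟩ := ih _ hlt _ (Desc.kid hq hj) hsj rfl
        exact ⟨q', (Desc.kid Desc.root hj).trans h1, h2, h3⟩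
      · push Not at hN
        exact ⟨q, Desc.root, hs, hN⟩
  exact key _ q hq hs rfl

/-- two different gaps are separated at some node -/
lemma split_sep {A A' : Set E} (hA : LGap G idx p₀ A) (hA' : LGap G idx p₀ A') {e : E}
    (he : e ∈ A') (he' : e ∉ A) {q : Finset E × V} (hq : Desc G idx p₀ q)
    (heq : e ∈ dom G q) (hs : Split G idx A q) (hs' : Split G idx A' q) :
    ∃ p i j, Desc G idx p₀ p ∧ i ≠ j ∧ IsKid G idx p i ∧ IsKid G idx p j ∧
      Split G idx A (kid G idx p i) ∧ Split G idx A' (kid G idx p j) := by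
  have key : ∀ n : ℕ, ∀ q, Desc G idx p₀ q → e ∈ dom G q → Split G idx A q →
      Split G idx A' q → {g ∈ dom G q | idx g ≤ idx e}.ncard = n →
      ∃ p i j, Desc G idx p₀ p ∧ i ≠ j ∧ IsKid G idx p i ∧ IsKid G idx p j ∧
      Split G idx A (kid G idx p i) ∧ Split G idx A' (kid G idx p j) := by
    intro n
    induction n using Nat.strong_induction_on with
    | _ n ih =>
      intro q hq heq hs hs' hn
      obtain ⟨i, hi, hsi⟩ := split_step hidx hlf h0 hA hq hs
      obtain ⟨j, hj, hsj⟩ := split_step hidx hlf h0 hA' hq hs'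
      by_cases hij : i = j
      · subst hij
        have hg := hq.good hlf h0
        have hkg := kid_good hlf hg hi
        have hkd := Desc.kid hq hi
        have hf := fe_mem (idx := idx) hlf hkg
        have hl := la_mem (idx := idx) hlf hkg
        have heq0 := hq.sub hlf h0 heq
        have hek : e ∈ dom G (kid G idx q i) :=
          hkd.convex hlf h0 hf hl heq0 (hA.lt hidx hlf h0 hsi.fe heq0 he')
            (hA'.lt hidx hlf h0 he (hkd.sub hlf h0 hl) hsj.la)
        have hlt := measure_lt hidx hlf hg (j := i) (N := idx e) ⟨e, heq, le_rfl⟩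
        rw [hn] at hlt
        exact ih _ hlt _ hkd hek hsi hsj rfl
      · exact ⟨q, i, j, hq, hij, hi, hj, hsi, hsj⟩
  exact key _ q hq heq hs hs' rfl

end descend

/-- **Topological Euler tours.** Let `G` be a connected locally finite multigraph all of whose
finite cuts are even and let `H` be a locally finite graph on its edges that contains its line
graph and such that different `G`-ends are different `H`-ends. Then `H` has a Hamilton circle. -/
theorem tour (G : MG V E) [Countable E] (hlf : ∀ x, {e | ∃ v, G.lk e x v}.Finite)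
    (heven : EvenCuts G univ) (r : V) (hconn : ∀ e, ∃ u v, G.lk e u v ∧ Reach G univ r u)
    (H : SimpleGraph E) (hH : ∀ e e', Shares G e e' → H.Adj e e')
    (hHlf : ∀ e, (H.neighborSet e).Finite)
    (hef : ∀ F : Finset E, ∃ K : Finset E, ∀ e e' (he : e ∉ K) (he' : e' ∉ K),
      (H.induce (K : Set E)ᶜ).Reachable ⟨e, he⟩ ⟨e', he'⟩ → ∀ x, e ∈ comp G (co F) x →
      e' ∈ comp G (co F) x)
    (h3 : ∃ a b c : E, a ≠ b ∧ b ≠ c ∧ a ≠ c) : HasHamiltonCircle H := by
  classical
  obtain ⟨idx, hidx⟩ := exists_injective_nat E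
  let p₀ : Finset E × V := (∅, r)
  have hdom : dom G p₀ = univ := by
    ext e
    simp only [mem_univ, iff_true]
    obtain ⟨u, v, huv, hr⟩ := hconn e
    refine ⟨by simp [co, p₀], u, v, huv, hr.mono (by intro f _; simp [co, p₀])⟩
  have hmem : ∀ e, e ∈ dom G p₀ := by rw [hdom]; exact mem_univ
  have h0 : Good G p₀ := by
    refine ⟨?_, ?_⟩
    · have : co p₀.1 = (univ : Set E) := by ext e; simp [co, p₀]
      rw [this]; exact heven
    · rw [hdom]; exact univ_nonempty
  -- the linear order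
  have hinj : Function.Injective (fun e => (toLex (fun n => addr G idx n p₀ e) : Lex (ℕ → ℕ))) := by
    intro e e' h
    apply addr_inj hidx hlf p₀ e h0 (hmem e) e' (hmem e')
    intro n
    exact congrFun (toLex.injective h) n
  let lo : LinearOrder E := LinearOrder.lift' _ hinj
  have hlt : ∀ e e' : E, e < e' ↔ Lt G idx p₀ e e' := fun e e' => Iff.rfl
  have hle : ∀ e e' : E, e ≤ e' ↔ (e = e' ∨ Lt G idx p₀ e e') := by
    intro e e'
    rw [le_iff_lt_or_eq, hlt, or_comm]
  let ob : OrderBot E :=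
    { bot := fe G idx p₀
      bot_le := by
        intro a
        rw [hle]
        by_cases h : a = fe G idx p₀
        · exact Or.inl h.symm
        · exact Or.inr (first_min hlf h0 (hmem a) h) }
  let ot : OrderTop E :=
    { top := la G idx p₀
      le_top := by
        intro a
        rw [hle]
        by_cases h : a = la G idx p₀
        · exact Or.inl h
        · exact Or.inr (last_max hlf h0 (hmem a) h) }
  have hbot : (⊥ : E) = fe G idx p₀ := rfl
  have htop : (⊤ : E) = la G idx p₀ := rfl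
  have hpred : ∀ x : E, x ≠ ⊥ → ∃ y, y ⋖ x := by
    intro x hx
    rcases exists_pred hidx hlf p₀ x h0 (hmem x) with h | ⟨y, _, h1, h2⟩
    · exact absurd h hx
    · exact ⟨y, h1, fun g g1 g2 => h2 g (hmem g) ⟨g1, g2⟩⟩
  have hgap : ∀ A : Set E, Gap A → LGap G idx p₀ A := by
    intro A hA
    refine ⟨?_, ?_, ?_, ?_⟩
    · intro a ha b _ hba
      exact hA.lower a ha b (le_of_lt hba)
    · intro a ha
      exact hA.nomax a ha
    · intro b _ hb
      have hbne : b ≠ ⊥ := by
        intro h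
        obtain ⟨a, ha⟩ := hA.ne
        exact hb (hA.lower a ha b (h ▸ bot_le))
      obtain ⟨b', hb'⟩ := hpred b hbne
      refine ⟨b', hmem b', ?_, hb'.lt⟩
      intro hbA
      obtain ⟨a', ha', hlt'⟩ := hA.nomax b' hbA
      exact hb'.2 hlt' (hA.lt ha' hb)
    · intro a _; exact hmem a
  have hsplit : ∀ A : Set E, Gap A → Split G idx A p₀ := by
    intro A hA
    refine ⟨?_, ?_⟩
    · obtain ⟨a, ha⟩ := hA.ne
      exact hA.lower a ha _ (bot_le : (⊥ : E) ≤ a)
    · intro h
      obtain ⟨b, hb⟩ := hA.cne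
      exact hb (hA.lower _ h b (le_top : b ≤ (⊤ : E)))
  -- the interval of a node
  have hconv : ∀ (A : Set E), Gap A → ∀ (K : Finset E) (q : Finset E × V), Desc G idx p₀ q →
      Split G idx A q → (∀ e ∈ dom G q, e ∉ K) →
      ∃ C : H.ComponentCompl K, (∀ e ∈ dom G q, e ∈ C) ∧
        ∃ a ∈ A, ∃ b, b ∉ A ∧ ∀ x, a ≤ x → x ≤ b → x ∈ C := by
    intro A hA K q hq hs hK
    have hqg := hq.good hlf h0
    have hf := fe_mem (idx := idx) hlf hqg
    have hl := la_mem (idx := idx) hlf hqg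
    have hK' : ∀ e ∈ dom G q, e ∉ (K : Set E) := hK
    refine ⟨H.componentComplMk (hK' _ hf), ?_, ?_⟩
    · intro e he
      refine ⟨hK' e he, ?_⟩
      rw [SimpleGraph.ConnectedComponent.eq]
      exact dom_connected hH hK' he hf
    · refine ⟨fe G idx q, hs.fe, la G idx q, hs.la, ?_⟩
      intro x hx1 hx2
      have hxd : x ∈ dom G q := by
        rw [hle] at hx1 hx2
        rcases hx1 with rfl | hx1
        · exact hf
        · rcases hx2 with rfl | hx2
          · exact hl
          · exact hq.convex hlf h0 hf hl (hmem x) hx1 hx2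
      refine ⟨hK' x hxd, ?_⟩
      rw [SimpleGraph.ConnectedComponent.eq]
      exact dom_connected hH hK' hxd hf
  have hdeepK : ∀ (A : Set E), Gap A → ∀ (K : Finset E) (q : Finset E × V), Desc G idx p₀ q →
      Split G idx A q → ∃ q', Desc G idx q q' ∧ Split G idx A q' ∧ ∀ e ∈ dom G q', e ∉ K := by
    intro A hA K q hq hs
    obtain ⟨q', h1, h2, h4⟩ := split_deep hidx hlf h0 (hgap A hA) (K.sup idx) hq hs
    refine ⟨q', h1, h2, fun e he heK => ?_⟩
    have := Finset.le_sup (f := idx) heK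
    have := h4 e he
    omega
  have hsepaux : ∀ A A' : Set E, Gap A → Gap A' → A ⊆ A' → A ≠ A' → ∃ K : Finset E,
      ∃ C C' : H.ComponentCompl K, C ≠ C' ∧
      (∃ a ∈ A, ∃ b, b ∉ A ∧ ∀ x, a ≤ x → x ≤ b → x ∈ C) ∧
      (∃ a ∈ A', ∃ b, b ∉ A' ∧ ∀ x, a ≤ x → x ≤ b → x ∈ C') := by
    intro A A' hA hA' hsub hne
    obtain ⟨e, he, he'⟩ : ∃ e ∈ A', e ∉ A := by
      by_contra hcon
      push Not at hcon
      exact hne (subset_antisymm hsub hcon)
    obtain ⟨p, i, j, hp, hij, hi, hj, hsi, hsj⟩ := split_sep hidx hlf h0 (hgap A hA) (hgap A' hA')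
      he he' Desc.root (hmem e) (hsplit A hA) (hsplit A' hA')
    obtain ⟨K, hK⟩ := hef (nF G idx p)
    obtain ⟨q, q1, q2, q3⟩ := hdeepK A hA K _ (Desc.kid hp hi) hsi
    obtain ⟨q', q1', q2', q3'⟩ := hdeepK A' hA' K _ (Desc.kid hp hj) hsj
    have hpg := hp.good hlf h0
    have hqg := (q1.good hlf (kid_good hlf hpg hi))
    have hqg' := (q1'.good hlf (kid_good hlf hpg hj))
    obtain ⟨C, c1, c2⟩ := hconv A hA K q ((Desc.kid hp hi).trans q1) q2 q3
    obtain ⟨C', c1', c2'⟩ := hconv A' hA' K q' ((Desc.kid hp hj).trans q1') q2' q3'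
    refine ⟨K, C, C', ?_, c2, c2'⟩
    intro hCC
    have hf := fe_mem (idx := idx) hlf hqg
    have hf' := fe_mem (idx := idx) hlf hqg'
    obtain ⟨n1, m1⟩ := c1 _ hf
    obtain ⟨n2, m2⟩ := c1' _ hf'
    rw [← hCC, ← m1] at m2
    rw [SimpleGraph.ConnectedComponent.eq] at m2
    have h5 := hK _ _ n1 n2 m2.symm (vx G idx p (i + 1))
      (q1.sub hlf (kid_good hlf hpg hi) hf)
    exact hij (kid_uniq hi hj h5 (q1'.sub hlf (kid_good hlf hpg hj) hf'))
  have hO : CircOrder H := by
    refine ⟨?_, hpred, ?_, ?_, ?_⟩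
    · intro x hx
      rcases exists_succ hidx hlf p₀ x h0 (hmem x) with h | ⟨y, _, h1, h2, h3⟩
      · exact absurd h hx
      · exact ⟨y, ⟨h1, fun g g1 g2 => h2 g (hmem g) ⟨g1, g2⟩⟩, hH _ _ h3⟩
    · -- wrap
      obtain ⟨v, hv⟩ := fe_lk (idx := idx) hlf h0
      obtain ⟨w, hw⟩ := la_lk (idx := idx) hlf h0
      apply hH
      refine ⟨?_, p₀.2, w, v, hw, hv⟩
      intro h
      have hall : ∀ e : E, e = (⊥ : E) := fun e => le_antisymm (h ▸ le_top) bot_le
      obtain ⟨a, b, c, hab, _, _⟩ := h3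
      exact hab ((hall a).trans (hall b).symm)
    · intro A hA K
      obtain ⟨q, q1, q2, q3⟩ := hdeepK A hA K p₀ Desc.root (hsplit A hA)
      obtain ⟨C, _, a, ha, b, hb, hab⟩ := hconv A hA K q q1 q2 q3
      exact ⟨a, ha, b, hb, C, hab⟩
    · intro A A' hA hA' hne
      rcases hA.total hA' with h | h
      · exact hsepaux A A' hA hA' h hne
      · obtain ⟨K, C, C', h1, h2, h3⟩ := hsepaux A' A hA' hA h (Ne.symm hne)
        exact ⟨K, C', C, h1.symm, h3, h2⟩
  exact hasHamiltonCircle hHlf h3 hO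

end Pool.H66.HC
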