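import Pool.Agent.Helper66.HC.Cut

/-! # Two-edge-connected finite hulls and minimum cuts -/

open Set

namespace Pool.H66.HC

universe u

variable {V : Type u} {G : SimpleGraph V}

/-- every finite cut has at least four edges -/
def Four (G : SimpleGraph V) : Prop :=
  ∀ Z : Set V, Z.Nonempty → Zᶜ.Nonempty → (prs G Z Zᶜ).Finite → 4 ≤ ce G Z Zᶜ

lemma Four.reach (h4 : Four G) {u v : V} :
    (G.deleteEdges {s(u, v)}).Reachable u v := by
  by_contra hcon
  set A : Set V := {x | (G.deleteEdges {s(u, v)}).Reachable u x} with hA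
  have hsub : prs G A Aᶜ ⊆ {(u, v)} := by
    rintro ⟨a, b⟩ ⟨ha, hb, hab⟩
    by_cases he : s(a, b) = s(u, v)
    · rcases Sym2.eq_iff.1 he with ⟨h1, h2⟩ | ⟨h1, h2⟩
      · rw [h1, h2]; rfl
      · change a ∈ A at ha
        rw [h1] at ha
        exact absurd ha hcon
    · exfalso
      apply hb
      refine SimpleGraph.Reachable.trans ha ?_
      refine SimpleGraph.Adj.reachable ?_
      rw [SimpleGraph.deleteEdges_adj]
      exact ⟨hab, he⟩
  have hfin : (prs G A Aᶜ).Finite := (finite_singleton _).subset hsub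
  have h1 := h4 A ⟨u, SimpleGraph.Reachable.refl _⟩ ⟨v, hcon⟩ hfin
  have h2 : ce G A Aᶜ ≤ 1 := by
    have := Set.ncard_le_ncard hsub (finite_singleton _)
    rwa [Set.ncard_singleton] at this
  omega

lemma Four.cc (h4 : Four G) : CC G univ := by
  intro A hA hne hneq
  by_contra hcon
  push Not at hcon
  have h0 : prs G A Aᶜ = ∅ := by
    rw [Set.eq_empty_iff_forall_notMem]
    rintro ⟨a, b⟩ ⟨ha, hb, hab⟩
    exact hcon a ha b ⟨trivial, hb⟩ hab
  have hc : Aᶜ.Nonempty := by
    rw [Set.nonempty_compl]; exact hneq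
  have := h4 A hne hc (by rw [h0]; exact finite_empty)
  rw [ce, h0, Set.ncard_empty] at this
  omega

lemma Four.fin (h4 : Four G) (hlf : ∀ v, (G.neighborSet v).Finite) [Infinite V] {Z : Set V}
    (hZ : Z.Finite) (hne : Z.Nonempty) : 4 ≤ ce G Z Zᶜ :=
  h4 Z hne hZ.infinite_compl.nonempty (prs_finite hlf hZ _)

/-- the two-element lower bound -/
lemma two_le_ce {S T : Set V} (hfin : (prs G S T).Finite) {p q : V × V} (hp : p ∈ prs G S T)
    (hq : q ∈ prs G S T) (hpq : p ≠ q) : 2 ≤ ce G S T := by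
  have h1 : ({p, q} : Set (V × V)) ⊆ prs G S T := by
    rintro x (rfl | rfl)
    · exact hp
    · exact hq
  have := Set.ncard_le_ncard h1 hfin
  rwa [Set.ncard_pair hpq] at this

lemma tc_support (hlf : ∀ v, (G.neighborSet v).Finite) {u v : V} (huv : G.Adj u v)
    (p : (G.deleteEdges {s(u, v)}).Walk u v) (hp : p.IsTrail) :
    TC G {x | x ∈ p.support} := by
  classical
  set T : Set V := {x | x ∈ p.support} with hT
  have hTfin : T.Finite := p.support.finite_toSet
  -- a set containing both `u` and `v`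
  have both : ∀ A ⊆ T, u ∈ A → v ∈ A → A ≠ T → 2 ≤ ce G A (T \ A) := by
    intro A hA hu hv hne
    obtain ⟨x, hx, hxA⟩ : ∃ x ∈ T, x ∉ A := by
      by_contra hcon
      push Not at hcon
      exact hne (hA.antisymm hcon)
    have hx' : x ∈ p.support := hx
    obtain ⟨d1, hd1, h11, h12⟩ := (p.takeUntil x hx').exists_boundary_dart A hu hxA
    obtain ⟨d2, hd2, h21, h22⟩ := (p.dropUntil x hx').exists_boundary_dart Aᶜ hxA
      (by simpa using hv)
    have hd1p : d1 ∈ p.darts := p.darts_takeUntil_subset_darts hx' hd1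
    have hd2p : d2 ∈ p.darts := p.darts_dropUntil_subset_darts hx' hd2
    have hs : ∀ d ∈ p.darts, d.fst ∈ T ∧ d.snd ∈ T := fun d hd =>
      ⟨p.dart_fst_mem_support_of_mem_darts hd, p.dart_snd_mem_support_of_mem_darts hd⟩
    have hadj : ∀ d : (G.deleteEdges {s(u, v)}).Dart, G.Adj d.fst d.snd := fun d => by
      have := d.adj
      rw [SimpleGraph.deleteEdges_adj] at this
      exact this.1
    refine two_le_ce (prs_finite hlf (hTfin.subset hA) _) (p := (d1.fst, d1.snd))
      (q := (d2.snd, d2.fst)) ⟨h11, ⟨(hs d1 hd1p).2, h12⟩, hadj d1⟩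
      ⟨by simpa using h22, ⟨(hs d2 hd2p).1, h21⟩, (hadj d2).symm⟩ ?_
    intro he
    have he' : d1.edge = d2.edge := by
      obtain ⟨e1, e2⟩ := Prod.mk.injEq .. ▸ he
      simp only [Prod.mk.injEq] at he
      unfold SimpleGraph.Dart.edge
      rcases d1 with ⟨⟨a, b⟩, _⟩
      rcases d2 with ⟨⟨c, d⟩, _⟩
      simp only at he ⊢
      rw [he.1, he.2]
      exact Sym2.eq_swap
    have hnd := hp.edges_nodup
    rw [← p.take_spec hx', SimpleGraph.Walk.edges_append, List.nodup_append] at hnd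
    exact hnd.2.2 d1.edge (List.mem_map_of_mem hd1) d2.edge (List.mem_map_of_mem hd2) he'
  -- a set separating `u` and `v`
  have sep : ∀ A ⊆ T, u ∈ A → v ∉ A → 2 ≤ ce G A (T \ A) := by
    intro A hA hu hv
    obtain ⟨d, hd, h1, h2⟩ := p.exists_boundary_dart A hu hv
    have hadj := d.adj
    rw [SimpleGraph.deleteEdges_adj] at hadj
    refine two_le_ce (prs_finite hlf (hTfin.subset hA) _) (p := (u, v)) (q := (d.fst, d.snd))
      ⟨hu, ⟨p.end_mem_support, hv⟩, huv⟩
      ⟨h1, ⟨p.dart_snd_mem_support_of_mem_darts hd, h2⟩, hadj.1⟩ ?_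
    intro he
    simp only [Prod.mk.injEq] at he
    apply hadj.2
    rw [mem_singleton_iff, Sym2.eq_iff]
    exact Or.inl ⟨he.1.symm, he.2.symm⟩
  intro A hA hne hneq
  have hfl : ce G A (T \ A) = ce G (T \ A) (T \ (T \ A)) := by
    rw [Set.sdiff_sdiff_cancel_left hA, ce_comm]
  have hne' : T \ A ≠ T := by
    intro he
    obtain ⟨x, hx⟩ := hne
    have : x ∈ T \ A := by rw [he]; exact hA hx
    exact this.2 hx
  by_cases hu : u ∈ A
  · by_cases hv : v ∈ A
    · exact both A hA hu hv hneq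
    · exact sep A hA hu hv
  · rw [hfl]
    have hu' : u ∈ T \ A := ⟨p.start_mem_support, hu⟩
    by_cases hv : v ∈ A
    · exact sep _ sdiff_subset hu' (fun h => h.2 hv)
    · exact both _ sdiff_subset hu' ⟨p.end_mem_support, hv⟩ hne'

lemma tc_hull (hlf : ∀ v, (G.neighborSet v).Finite) (h4 : Four G) [Nonempty V] {F : Set V}
    (hF : F.Finite) : ∃ T : Set V, T.Finite ∧ TC G T ∧ T.Nonempty ∧ F ⊆ T := by
  classical
  obtain ⟨T, a, -, c, d, e⟩ := hull h4.cc (TC G) tc_singleton
    (fun A B hA hB h1 h2 r hr hr' => tc_union hlf hA hB h1 h2 hr hr') (by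
      intro u _ v _ huv
      obtain ⟨p, hp⟩ := (h4.reach (u := u) (v := v)).exists_isPath
      exact ⟨{x | x ∈ p.support}, p.support.finite_toSet, subset_univ _,
        tc_support hlf huv p hp.isTrail, p.start_mem_support, p.end_mem_support⟩)
    hF (subset_univ _) univ_nonempty
  exact ⟨T, a, c, d, e⟩

/-- minimum cuts around a finite two-edge-connected set -/
lemma min_cut (hlf : ∀ v, (G.neighborSet v).Finite) (h4 : Four G) [Infinite V] {F : Set V}
    (hF : F.Finite) (hFt : TC G F) :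
    ∃ X : Set V, X.Finite ∧ F ⊆ X ∧ N1 G X ∧ TC G X := by
  classical
  obtain ⟨X, ⟨hX, hFX⟩, hmin⟩ : ∃ X : Set V, (X.Finite ∧ F ⊆ X) ∧
      ∀ Y : Set V, Y.Finite → F ⊆ Y → ce G X Xᶜ ≤ ce G Y Yᶜ := by
    have hex : ∃ n, ∃ X : Set V, (X.Finite ∧ F ⊆ X) ∧ ce G X Xᶜ = n := ⟨_, F, ⟨hF, subset_rfl⟩, rfl⟩
    obtain ⟨X, hX, he⟩ := Nat.find_spec hex
    refine ⟨X, hX, fun Y h1 h2 => ?_⟩
    rw [he]
    exact Nat.find_min' hex ⟨Y, ⟨h1, h2⟩, rfl⟩
  refine ⟨X, hX, hFX, ?_, ?_⟩
  · intro Z hZ hd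
    have h1 := hmin (X ∪ Z) (hX.union hZ) (hFX.trans subset_union_left)
    have h2 := delta_union hlf hX hZ hd
    omega
  · have one : ∀ A ⊆ X, A ≠ X → F ⊆ A → 2 ≤ ce G A (X \ A) := by
      intro A hA hne hFA
      have hAf := hX.subset hA
      have hBf : (X \ A).Finite := hX.subset sdiff_subset
      have hd : Disjoint A (X \ A) := disjoint_sdiff_right
      have hu : A ∪ (X \ A) = X := union_sdiff_cancel hA
      have h1 := hmin A hAf hFA
      have h2 := delta_union hlf hAf hBf hd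
      have h3 := ce_compl_split hlf hBf hd
      have hBne : (X \ A).Nonempty := by
        rw [nonempty_iff_ne_empty]
        intro he
        exact hne (hA.antisymm (sdiff_eq_empty.1 he))
      have h5 := h4.fin hlf hBf hBne
      rw [hu] at h2 h3
      rw [ce_comm A]
      omega
    intro A hA hne hneq
    by_cases c1 : F ⊆ A
    · exact one A hA hneq c1
    by_cases c2 : F ⊆ X \ A
    · have hne' : X \ A ≠ X := by
        intro he
        obtain ⟨x, hx⟩ := hne
        have : x ∈ X \ A := by rw [he]; exact hA hx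
        exact this.2 hx
      have := one (X \ A) sdiff_subset hne' c2
      rwa [Set.sdiff_sdiff_cancel_left hA, ce_comm] at this
    have h6 := hFt (F ∩ A) inter_subset_left
      (by
        by_contra hcon
        rw [not_nonempty_iff_eq_empty] at hcon
        exact c2 fun x hx => ⟨hFX hx, fun hxA => (hcon ▸ (⟨hx, hxA⟩ : x ∈ F ∩ A) : x ∈ (∅ : Set V))⟩)
      (fun he => c1 (by rw [← he]; exact inter_subset_right))
    refine h6.trans (ce_mono hlf (hX.subset hA) inter_subset_right ?_)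
    rintro x ⟨h1, h2⟩
    exact ⟨hFX h1, fun h => h2 ⟨h1, h⟩⟩

end Pool.H66.HC
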