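import Pool.Agent.Helper66.HC.FromH

/-! # Theorem A: the combinatorial input gives a Hamilton circle of the line graph -/

open Set

namespace Pool.H66.HC

universe u

variable {V : Type u} {G H : SimpleGraph V}

/-- a path in `H - S` leaving `X` has an edge leaving `X` whose ends are outside `S` -/
lemma exists_cross {H : SimpleGraph V} {S : Set V} {X : Set V} {a b : (Sᶜ : Set V)}
    (h : (H.induce Sᶜ).Reachable a b) (ha : a.1 ∈ X) (hb : b.1 ∉ X) :
    ∃ u ∈ X, ∃ v, v ∉ X ∧ u ∉ S ∧ v ∉ S ∧ H.Adj u v := by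
  obtain ⟨p⟩ := h
  induction p with
  | nil => exact absurd ha hb
  | @cons a c b hac p ih =>
    by_cases hc : c.1 ∈ X
    · exact ih hc hb
    · exact ⟨a.1, ha, c.1, hc, a.2, c.2, hac⟩

theorem theoremA (hlf : ∀ v, (G.neighborSet v).Finite) (hGc : G.Preconnected)
    (h3 : ∃ a b c : G.edgeSet, a ≠ b ∧ b ≠ c ∧ a ≠ c) (hH : Good2 G H) :
    HasHamiltonCircle G.lineGraph := by
  classical
  have hcount := countable_edgeSet hlf hGc
  obtain ⟨e₀, _⟩ := id h3
  have hne : Nonempty G.edgeSet := ⟨e₀⟩
  obtain ⟨T, hT1, hT2⟩ := exists_even hH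
  -- walks of `H` are walks of the multigraph
  have hwalk : ∀ (F : Finset G.edgeSet) (S : Finset V) (_ : ∀ e ∈ F, ∀ v ∈ e.1, v ∈ S)
      (u v : ((S : Set V)ᶜ : Set V)), (H.induce (S : Set V)ᶜ).Reachable u v →
      Reach (mg T) (co F) u.1 v.1 := by
    intro F S hFS u v h
    obtain ⟨p⟩ := h
    induction p with
    | nil => exact Reach.refl _
    | @cons a c b hac p ih =>
      refine Reach.trans ?_ ih
      have hadj : H.Adj a.1 c.1 := hac
      let e : G.edgeSet := ⟨s(a.1, c.1), hH.le hadj⟩
      have he : e ∈ T := hT1 e hadj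
      refine Reach.of_lk (e := e) (Or.inl ⟨he, rfl⟩) ?_
      intro heF
      exact a.2 (hFS e heF a.1 (by simp [e]))
  apply tour (mg T) (r := base e₀)
  · -- local finiteness
    intro x
    refine (finite_incident hlf x).subset ?_
    rintro e ⟨v, hv⟩
    exact (mg_mem T hv).1
  · -- even cuts
    intro X hfin
    have hset : {e | e ∈ (univ : Set G.edgeSet) ∧ Cross (mg T) X e}
        = {e | e ∈ T ∧ e ∈ cutE G X} := by
      ext e
      simp only [mem_univ, true_and, mem_ofPred_eq, mg_cross]
    rw [hset] at hfin ⊢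
    apply hT2
    -- a `T`-finite cut is finite
    obtain ⟨L, hKL, hL⟩ := hH.ef (vset hfin.toFinset)
    refine (finite_incident_set hlf L).subset ?_
    rintro e ⟨u, hu, v, hv, huv⟩
    by_contra hcon
    have huL : u ∉ L := fun h => hcon ⟨u, h, by rw [huv]; simp⟩
    have hvL : v ∉ L := fun h => hcon ⟨v, h, by rw [huv]; simp⟩
    have huK : u ∉ vset hfin.toFinset := fun h => huL (hKL h)
    have hvK : v ∉ vset hfin.toFinset := fun h => hvL (hKL h)
    have hadj : G.Adj u v := by
      have := e.2
      rw [huv] at this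
      exact this
    have hr := hL u v huL hvL huK hvK (SimpleGraph.Adj.reachable
      (G := G.induce (L : Set V)ᶜ) (show G.Adj u v from hadj))
    obtain ⟨a, ha, b, hb, haS, hbS, hab⟩ := exists_cross hr hu hv
    let f : G.edgeSet := ⟨s(a, b), hH.le hab⟩
    have hf : f ∈ hfin.toFinset := by
      rw [Set.Finite.mem_toFinset]
      exact ⟨hT1 f hab, a, ha, b, hb, rfl⟩
    exact haS (mem_vset hf (by simp [f]))
  · -- connectedness
    intro e
    obtain ⟨u, v, huv⟩ := (mg T).ex e
    refine ⟨u, v, huv, ?_⟩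
    obtain ⟨p⟩ := hH.conn (base e₀) u
    have key : ∀ (a b : V) (p : H.Walk a b), Reach (mg T) univ a b := by
      intro a b p
      induction p with
      | nil => exact Reach.refl _
      | @cons a c b hac p ih =>
        let e : G.edgeSet := ⟨s(a, c), hH.le hac⟩
        exact (Reach.of_lk (e := e) (Or.inl ⟨hT1 e hac, rfl⟩) (mem_univ _)).trans ih
    exact key _ _ p
  · -- the line graph contains the sharing relation
    rintro e e' ⟨hne, u, v, w, h1, h2⟩
    rw [SimpleGraph.lineGraph_adj_iff_exists]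
    exact ⟨hne, u, (mg_mem T h1).1, (mg_mem T h2).1⟩
  · exact lineGraph_lf hlf
  · -- end-faithfulness
    intro F
    obtain ⟨L, hSL, hL⟩ := hH.ef (vset F)
    refine ⟨(finite_incident_set hlf L).toFinset, ?_⟩
    intro e e' he he' hr x hx
    have hout : ∀ (f : G.edgeSet), f ∉ (finite_incident_set hlf L).toFinset →
        ∀ v ∈ f.1, v ∉ L := by
      intro f hf v hv hvL
      apply hf
      rw [Set.Finite.mem_toFinset]
      exact ⟨v, hvL, hv⟩
    -- vertices of the same edge are connected outside `L`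
    have hsame : ∀ (f : G.edgeSet) (hf : f ∉ (finite_incident_set hlf L).toFinset) (a b : V)
        (ha : a ∈ f.1) (hb : b ∈ f.1), (G.induce (L : Set V)ᶜ).Reachable
          ⟨a, hout f hf a ha⟩ ⟨b, hout f hf b hb⟩ := by
      intro f hf a b ha hb
      by_cases hab : a = b
      · subst hab; exact SimpleGraph.Reachable.refl _
      · apply SimpleGraph.Adj.reachable
        show G.Adj a b
        have h1 : f.1 = s(a, b) := by
          have := (Sym2.mem_and_mem_iff hab).1 ⟨ha, hb⟩
          exact this
        have := f.2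
        rw [h1] at this
        exact this
    have hkey : ∀ (f f' : (((finite_incident_set hlf L).toFinset : Set G.edgeSet)ᶜ :
        Set G.edgeSet)) (p : (G.lineGraph.induce
          ((finite_incident_set hlf L).toFinset : Set G.edgeSet)ᶜ).Walk f f') (a b : V)
        (ha : a ∈ f.1.1) (hb : b ∈ f'.1.1), (G.induce (L : Set V)ᶜ).Reachable
          ⟨a, hout f.1 f.2 a ha⟩ ⟨b, hout f'.1 f'.2 b hb⟩ := by
      intro f f' p
      induction p with
      | @nil f => intro a b ha hb; exact hsame f.1 f.2 a b ha hb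
      | @cons f g f' hfg p ih =>
        intro a b ha hb
        have hfg' : G.lineGraph.Adj f.1 g.1 := hfg
        rw [SimpleGraph.lineGraph_adj_iff_exists] at hfg'
        obtain ⟨_, c, hc, hc'⟩ := hfg'
        exact (hsame f.1 f.2 a c ha hc).trans (ih c b hc' hb)
    obtain ⟨p⟩ := hr
    obtain ⟨u, v, huv⟩ := (mg T).ex e
    obtain ⟨u', v', huv'⟩ := (mg T).ex e'
    have hu := (mg_mem T huv).1
    have hu' := (mg_mem T huv').1
    have h1 := hkey _ _ p u u' hu hu'
    have h2 := hL u u' (hout e he u hu) (hout e' he' u' hu')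
      (fun h => hout e he u hu (hSL h)) (fun h => hout e' he' u' hu' (hSL h)) h1
    have h3' := hwalk F (vset F) (fun f hf v hv => mem_vset hf hv) _ _ h2
    refine ⟨?_, u', v', huv', (comp_reach hx huv).trans h3'⟩
    intro heF
    exact hout e' he' u' hu' (hSL (mem_vset heF hu'))
  · exact h3

end Pool.H66.HC
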