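import Pool.Agent.Helper66.HC.Step
import Pool.Agent.Helper66.HC.ThmA

/-! # The limit: one-ended graphs -/

open Set Filter

namespace Pool.H66.HC

universe u

variable {V : Type u} {G H : SimpleGraph V} {C : ℕ → Set V}

lemma Chain.cover (hC : Chain G C) (h4 : Four G) (v : V) : ∃ j, v ∈ C j := by
  by_contra hcon
  obtain ⟨x, hx⟩ := hC.ne
  obtain ⟨a, ha, b, hb, hab⟩ := h4.cc {x | ∃ j, x ∈ C j} (subset_univ _) ⟨x, 0, hx⟩ (fun he => by
    have : v ∈ {x | ∃ j, x ∈ C j} := by rw [he]; trivial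
    exact hcon this)
  obtain ⟨j, hj⟩ := ha
  exact hb.2 ⟨j + 1, hC.nbr j a hj b hab⟩

lemma Chain.cover_finite (hC : Chain G C) (h4 : Four G) {S : Set V} (hS : S.Finite) :
    ∃ n, S ⊆ C (4 * n) := by
  induction S, hS using Set.Finite.induction_on with
  | empty => exact ⟨0, empty_subset _⟩
  | @insert x s _ _ ih =>
    obtain ⟨n, hn⟩ := ih
    obtain ⟨j, hj⟩ := hC.cover h4 x
    refine ⟨max n j, ?_⟩
    rintro y (rfl | hy)
    · exact hC.mono' (by omega) hj
    · exact hC.mono' (by omega) (hn hy)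

/-- the properties of the limit graph -/
structure LimOut (G H : SimpleGraph V) (C : ℕ → Set V) : Prop where
  le : H ≤ G
  walls : ∀ i, ∀ S ⊆ wall C i, S.Nonempty → S ≠ wall C i → ∃ u ∈ S, ∃ v ∈ wall C i \ S, H.Adj u v
  cuts : ∀ S : Set V, S.Finite → S.Nonempty → (∀ i, wall C i ⊆ S ∨ Disjoint (wall C i) S) →
    ∃ u ∈ S, ∃ v, v ∉ S ∧ H.Adj u v
  rest : ∀ S : Set V, S.Finite → S.Nonempty → ∃ u ∈ S, ∃ v, v ∉ S ∧ G.Adj u v ∧ ¬ H.Adj u v

theorem exists_limit (hlf : ∀ v, (G.neighborSet v).Finite) (h4 : Four G) [Infinite V]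
    (hC : Chain G C) : ∃ H, LimOut G H C := by
  classical
  choose J hJ using fun n : ℕ => finite_step hlf h4 hC (n := n + 1) (Nat.succ_pos n)
  let U : Ultrafilter ℕ := hyperfilter ℕ
  have hU : ∀ {p : ℕ → Prop}, (∀ᶠ n in atTop, p n) → ∀ᶠ n in (U : Filter ℕ), p n :=
    fun h => Nat.hyperfilter_le_atTop h
  let H : SimpleGraph V :=
    { Adj := fun u v => G.Adj u v ∧ ∀ᶠ n in (U : Filter ℕ), s(u, v) ∈ J n
      symm := ⟨fun u v h => ⟨h.1.symm, by rw [Sym2.eq_swap]; exact h.2⟩⟩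
      loopless := ⟨fun v h => G.loopless.irrefl v h.1⟩ }
  refine ⟨H, fun u v h => h.1, ?_, ?_, ?_⟩
  · intro i S hS hne hneq
    have hfin : (prs G S (wall C i \ S)).Finite :=
      prs_finite hlf ((wall_finite hC i).subset hS) _
    have h1 : ∀ᶠ n in (U : Filter ℕ), ∃ p ∈ prs G S (wall C i \ S), s(p.1, p.2) ∈ J n := by
      refine hU (eventually_atTop.2 ⟨i, fun n hn => ?_⟩)
      obtain ⟨u, hu, v, hv, h1, h2⟩ := (hJ n).walls i (by omega) S hS hne hneq
      exact ⟨(u, v), ⟨hu, hv, h1⟩, h2⟩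
    rw [Ultrafilter.eventually_exists_mem_iff hfin] at h1
    obtain ⟨⟨u, v⟩, ⟨hu, hv, h2⟩, h3⟩ := h1
    exact ⟨u, hu, v, hv, h2, h3⟩
  · intro S hS hne hcomp
    have hfin : (prs G S Sᶜ).Finite := prs_finite hlf hS _
    obtain ⟨m, hm⟩ := hC.cover_finite h4 hS
    have h1 : ∀ᶠ n in (U : Filter ℕ), ∃ p ∈ prs G S Sᶜ, s(p.1, p.2) ∈ J n := by
      refine hU (eventually_atTop.2 ⟨m, fun n hn => ?_⟩)
      obtain ⟨u, hu, v, hv, h1, h2⟩ := (hJ n).cuts S (hm.trans (hC.mono' (by omega))) hne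
        (fun i _ => hcomp i)
      exact ⟨(u, v), ⟨hu, hv, h1⟩, h2⟩
    rw [Ultrafilter.eventually_exists_mem_iff hfin] at h1
    obtain ⟨⟨u, v⟩, ⟨hu, hv, h2⟩, h3⟩ := h1
    exact ⟨u, hu, v, hv, h2, h3⟩
  · intro S hS hne
    have hfin : (prs G S Sᶜ).Finite := prs_finite hlf hS _
    obtain ⟨m, hm⟩ := hC.cover_finite h4 hS
    have h1 : ∀ᶠ n in (U : Filter ℕ), ∃ p ∈ prs G S Sᶜ, s(p.1, p.2) ∉ J n := by
      refine hU (eventually_atTop.2 ⟨m, fun n hn => ?_⟩)
      obtain ⟨u, hu, v, hv, h1, h2⟩ := (hJ n).rest S (hm.trans (hC.mono' (by omega))) hne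
      exact ⟨(u, v), ⟨hu, hv, h1⟩, h2⟩
    rw [Ultrafilter.eventually_exists_mem_iff hfin] at h1
    obtain ⟨⟨u, v⟩, ⟨hu, hv, h2⟩, h3⟩ := h1
    refine ⟨u, hu, v, hv, h2, fun h => ?_⟩
    obtain ⟨n, hn1, hn2⟩ := (h3.and h.2).exists
    exact hn1 hn2

lemma CC.reachable {S : Set V} (h : CC H S) {u v : V} (hu : u ∈ S) (hv : v ∈ S) :
    (H.induce S).Reachable ⟨u, hu⟩ ⟨v, hv⟩ := by
  by_contra hcon
  obtain ⟨a, ha, b, hb, hab⟩ := h {x | ∃ hx : x ∈ S, (H.induce S).Reachable ⟨u, hu⟩ ⟨x, hx⟩}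
    (fun x hx => hx.1) ⟨u, hu, SimpleGraph.Reachable.refl _⟩ (fun he => hcon (by
      have : v ∈ {x | ∃ hx : x ∈ S, (H.induce S).Reachable ⟨u, hu⟩ ⟨x, hx⟩} := by
        rw [he]; exact hv
      obtain ⟨_, h⟩ := this
      exact h))
  obtain ⟨ha', hr⟩ := ha
  refine hb.2 ⟨hb.1, hr.trans (SimpleGraph.Adj.reachable ?_)⟩
  exact hab

lemma CC.preconnected (h : CC H univ) : H.Preconnected := by
  intro u v
  have := h.reachable (mem_univ u) (mem_univ v)
  exact this.map (SimpleGraph.Embedding.induce (G := H) univ).toHom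

/-- if all components agree then the set is connected -/
lemma cc_of_comp {S : Set V} (h : ∀ P Q, IsComp H S P → IsComp H S Q → P = Q) : CC H S := by
  by_cases hne : S.Nonempty
  · obtain ⟨x, hx⟩ := hne
    have h1 := isComp_compOf (D := H) hx
    have h2 : compOf H S x = S := by
      refine h1.sub.antisymm fun z hz => ?_
      rw [h _ _ h1 (isComp_compOf (D := H) hz)]
      exact mem_compOf hz
    rw [← h2]; exact h1.cc
  · intro A hA hAne
    obtain ⟨x, hx⟩ := hAne
    exact absurd ⟨x, hA hx⟩ hne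

theorem LimOut.good2 (_hlf : ∀ v, (G.neighborSet v).Finite) (h4 : Four G) [Infinite V]
    (hC : Chain G C) (hL : LimOut G H C) : Good2 G H := by
  classical
  have hwne : ∀ i, (wall C i).Nonempty := by
    intro i
    obtain ⟨u, hu, v, hv, huv⟩ := chain_edge hC h4 (4 * i)
    exact ⟨v, hC.mono _ (hC.nbr _ u hu v huv), hv⟩
  -- closed sets and walls
  have hw : ∀ P : Set V, ∀ i, (∀ u ∈ P, ∀ v ∈ wall C i, H.Adj u v → v ∈ P) →
      (P ∩ wall C i).Nonempty → wall C i ⊆ P := by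
    intro P i hP hne
    by_contra hcon
    obtain ⟨u, hu, v, hv, huv⟩ := hL.walls i _ inter_subset_right hne (fun he => hcon (by
      rw [← he]; exact inter_subset_left))
    exact hv.2 ⟨hP u hu.1 v hv.1 huv, hv.1⟩
  -- connectedness
  have hccU : CC H univ := by
    refine cc_of_comp fun P Q hP hQ => ?_
    have hinf : ∀ P, IsComp H univ P → ∃ j, ∀ i, j ≤ i → wall C i ⊆ P := by
      intro P hP
      have hPi : ¬ P.Finite := by
        intro hPf
        obtain ⟨u, hu, v, hv, huv⟩ := hL.cuts P hPf hP.ne (by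
          intro i
          by_cases h : (P ∩ wall C i).Nonempty
          · exact Or.inl (hw P i (fun u hu v _ huv => hP.closed u hu v trivial huv) h)
          · right
            rw [Set.disjoint_left]
            intro x hx hx'
            exact h ⟨x, hx', hx⟩)
        exact hv (hP.closed u hu v trivial huv)
      obtain ⟨x, hx⟩ := hP.ne
      obtain ⟨j, hj⟩ := hC.cover h4 x
      refine ⟨j, fun i hi => ?_⟩
      obtain ⟨z, hz, hz'⟩ := meets_ring hC hL.le hP.cc (j := 4 * i)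
        ⟨x, hx, hC.mono' (by omega) hj⟩ (fun h => hPi ((hC.fin _).subset h))
      exact hw P i (fun u hu v _ huv => hP.closed u hu v trivial huv)
        ⟨z, hz, hC.mono _ hz'.1, hz'.2⟩
    obtain ⟨j, hj⟩ := hinf P hP
    obtain ⟨j', hj'⟩ := hinf Q hQ
    rcases hP.eq_or_disjoint hQ with h | h
    · exact h
    · exfalso
      obtain ⟨x, hx⟩ := hwne (max j j')
      exact Set.disjoint_left.1 h (hj _ (le_max_left _ _) hx) (hj' _ (le_max_right _ _) hx)
  have hccO : ∀ i, CC H (C (4 * i))ᶜ := by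
    intro i
    refine cc_of_comp fun P Q hP hQ => ?_
    have hmeet : ∀ P, IsComp H (C (4 * i))ᶜ P → wall C i ⊆ P := by
      intro P hP
      refine hw P i (fun u hu v hv huv => hP.closed u hu v hv.2 huv) ?_
      by_contra hcon
      obtain ⟨u, hu, v, hv, huv⟩ := hccU P (subset_univ _) hP.ne (by
        rintro rfl
        obtain ⟨x, hx⟩ := hC.ne
        exact hP.sub (mem_univ x) (hC.mono' (Nat.zero_le _) hx))
      by_cases hvC : v ∈ C (4 * i)
      · have h1 : u ∈ C (4 * i + 1) := hC.nbr _ v hvC u (hL.le huv.symm)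
        exact hcon ⟨u, hu, hC.mono _ h1, hP.sub hu⟩
      · exact hv.2 (hP.closed u hu v hvC huv)
    rcases hP.eq_or_disjoint hQ with h | h
    · exact h
    · exfalso
      obtain ⟨x, hx⟩ := hwne i
      exact Set.disjoint_left.1 h (hmeet P hP hx) (hmeet Q hQ hx)
  refine ⟨hL.le, hccU.preconnected, ?_, ?_⟩
  · intro K
    obtain ⟨n, hn⟩ := hC.cover_finite h4 K.finite_toSet
    refine ⟨(hC.fin (4 * n)).toFinset, ?_, ?_⟩
    · intro x hx
      rw [Set.Finite.mem_toFinset]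
      exact hn hx
    · intro u v hu hv hu' hv' _
      have hu2 : u ∈ (C (4 * n))ᶜ := fun h => hu (by rw [Set.Finite.mem_toFinset]; exact h)
      have hv2 : v ∈ (C (4 * n))ᶜ := fun h => hv (by rw [Set.Finite.mem_toFinset]; exact h)
      have h1 := (hccO n).reachable hu2 hv2
      have hle : (C (4 * n))ᶜ ≤ ((K : Set V)ᶜ : Set V) := Set.compl_subset_compl.2 hn
      exact h1.map (SimpleGraph.induceHomOfLE H hle).toHom
  · intro X hX hXc hfin
    -- all cut edges lie inside some `C j`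
    have hKf : {v | ∃ e ∈ cutE G X, v ∈ e.1}.Finite := by
      refine (hfin.biUnion (t := fun e => {v | v ∈ e.1}) fun e _ => ?_).subset ?_
      · obtain ⟨e, he⟩ := e
        induction e using Sym2.ind with
        | _ a b =>
          refine ((finite_singleton b).insert a).subset ?_
          intro v hv
          rcases Sym2.mem_iff.1 hv with rfl | rfl
          · exact Or.inl rfl
          · exact Or.inr rfl
      · rintro v ⟨e, he, hv⟩
        simp only [mem_iUnion]
        exact ⟨e, he, hv⟩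
    obtain ⟨n, hn⟩ := hC.cover_finite h4 hKf
    have hside : (C (4 * n))ᶜ ⊆ X ∨ Disjoint (C (4 * n))ᶜ X := by
      by_cases h : ((C (4 * n))ᶜ ∩ X).Nonempty
      · left
        by_contra hcon
        obtain ⟨u, hu, v, hv, huv⟩ := hC.out (4 * n) ((C (4 * n))ᶜ ∩ X) inter_subset_left h
          (fun he => hcon (by rw [← he]; exact inter_subset_right))
        have hvX : v ∉ X := fun h => hv.2 ⟨hv.1, h⟩
        exact hu.1 (hn ⟨⟨s(u, v), huv⟩, ⟨u, hu.2, v, hvX, rfl⟩, Sym2.mem_mk_left u v⟩)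
      · right
        rw [Set.disjoint_left]
        intro x hx hx'
        exact h ⟨x, hx, hx'⟩
    rcases hside with h | h
    · have hf : (Xᶜ : Set V).Finite := (hC.fin (4 * n)).subset fun x hx => by
        by_contra hx'
        exact hx (h hx')
      obtain ⟨u, hu, v, hv, h1, h2⟩ := hL.rest Xᶜ hf hXc
      exact ⟨v, by simpa using hv, u, hu, h1.symm, fun h => h2 h.symm⟩
    · have hf : X.Finite := (hC.fin (4 * n)).subset fun x hx => by
        by_contra hx'
        exact Set.disjoint_left.1 h hx' hx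
      obtain ⟨u, hu, v, hv, h1, h2⟩ := hL.rest X hf hX
      exact ⟨u, hu, v, hv, h1, h2⟩

end Pool.H66.HC
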