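import Mathlib

/-! # Matroid intersection for rank functions on finite sets -/

namespace Pool.H66.HC

variable {α : Type*} [DecidableEq α]

/-- rank functions of matroids -/
structure IsRank (r : Finset α → ℕ) : Prop where
  empty : r ∅ = 0
  mono : ∀ A e, r A ≤ r (insert e A)
  unit : ∀ A e, r (insert e A) ≤ r A + 1
  submod : ∀ A B, r (A ∪ B) + r (A ∩ B) ≤ r A + r B

namespace IsRank

variable {r : Finset α → ℕ} (h : IsRank r)

include h

lemma monotone {A B : Finset α} (hAB : A ⊆ B) : r A ≤ r B := by
  have key : ∀ C : Finset α, r A ≤ r (A ∪ C) := by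
    intro C
    induction C using Finset.induction_on with
    | empty => simp
    | insert a s ha ih =>
      rw [Finset.union_insert]
      exact ih.trans (h.mono _ _)
  have := key B
  rwa [Finset.union_eq_right.2 hAB] at this

lemma le_card (A : Finset α) : r A ≤ A.card := by
  induction A using Finset.induction_on with
  | empty => simp [h.empty]
  | insert a s ha ih =>
    rw [Finset.card_insert_of_notMem ha]
    exact (h.unit s a).trans (Nat.add_le_add_right ih 1)

lemma le_union (A B : Finset α) : r (A ∪ B) ≤ r A + r B :=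
  le_trans (Nat.le_add_right _ _) (h.submod A B)

lemma union_le_card (A B : Finset α) : r (A ∪ B) ≤ r A + B.card :=
  (h.le_union A B).trans (Nat.add_le_add_left (h.le_card B) _)

lemma zero_of_singletons (A : Finset α) (hA : ∀ e ∈ A, r {e} = 0) : r A = 0 := by
  induction A using Finset.induction_on with
  | empty => exact h.empty
  | insert a s ha ih =>
    have h1 := h.le_union {a} s
    rw [← Finset.insert_eq] at h1
    rw [hA a (Finset.mem_insert_self _ _),
      ih (fun e he => hA e (Finset.mem_insert_of_mem he))] at h1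
    omega

lemma singleton_le (e : α) : r {e} ≤ 1 := by
  have := h.le_card {e}
  simpa using this

/-- contraction of a non-loop -/
lemma contract {e : α} (he : r {e} = 1) : IsRank (fun A => r (insert e A) - 1) := by
  have h1 : ∀ A, 1 ≤ r (insert e A) := by
    intro A
    rw [← he]
    exact h.monotone (by simp)
  refine ⟨?_, ?_, ?_, ?_⟩
  · simp [he]
  · intro A f
    have := h.monotone (A := insert e A) (B := insert e (insert f A))
      (Finset.insert_subset_insert _ (Finset.subset_insert _ _))
    omega
  · intro A f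
    have h2 := h.unit (insert e A) f
    rw [Finset.insert_comm] at h2
    have := h1 A
    omega
  · intro A B
    have h2 := h.submod (insert e A) (insert e B)
    have e1 : insert e A ∪ insert e B = insert e (A ∪ B) := by
      ext x; simp only [Finset.mem_union, Finset.mem_insert]; tauto
    have e2 : insert e A ∩ insert e B = insert e (A ∩ B) := by
      ext x; simp only [Finset.mem_inter, Finset.mem_insert]; tauto
    rw [e1, e2] at h2
    have := h1 A
    have := h1 B
    have := h1 (A ∪ B)
    have := h1 (A ∩ B)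
    omega

/-- the dual rank function on `E` -/
lemma dual (E : Finset α) : IsRank (fun A => (A ∩ E).card + r (E \ A) - r E) := by
  have hb : ∀ A, r E ≤ (A ∩ E).card + r (E \ A) := by
    intro A
    have h1 := h.union_le_card (E \ A) (A ∩ E)
    have e1 : (E \ A) ∪ (A ∩ E) = E := by
      ext x; simp only [Finset.mem_union, Finset.mem_sdiff, Finset.mem_inter]; tauto
    rw [e1] at h1
    omega
  refine ⟨?_, ?_, ?_, ?_⟩
  · simp
  · intro A e
    apply Nat.sub_le_sub_right
    by_cases he : e ∈ E
    · by_cases heA : e ∈ A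
      · rw [Finset.insert_eq_of_mem heA]
      · have e1 : (insert e A) ∩ E = insert e (A ∩ E) := by
          ext x
          simp only [Finset.mem_inter, Finset.mem_insert]
          constructor
          · rintro ⟨h1 | h1, h2⟩
            · exact Or.inl h1
            · exact Or.inr ⟨h1, h2⟩
          · rintro (h1 | ⟨h1, h2⟩)
            · exact ⟨Or.inl h1, h1 ▸ he⟩
            · exact ⟨Or.inr h1, h2⟩
        have e2 : insert e (E \ insert e A) = E \ A := by
          ext x
          simp only [Finset.mem_insert, Finset.mem_sdiff, not_or]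
          constructor
          · rintro (h1 | ⟨h1, h2, h3⟩)
            · exact ⟨h1 ▸ he, h1 ▸ heA⟩
            · exact ⟨h1, h3⟩
          · rintro ⟨h1, h2⟩
            by_cases hx : x = e
            · exact Or.inl hx
            · exact Or.inr ⟨h1, hx, h2⟩
        rw [e1, Finset.card_insert_of_notMem (by simp [heA])]
        have := h.unit (E \ insert e A) e
        rw [e2] at this
        omega
    · have e1 : (insert e A) ∩ E = A ∩ E := by
        ext x
        simp only [Finset.mem_inter, Finset.mem_insert]
        constructor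
        · rintro ⟨h1 | h1, h2⟩
          · exact absurd (h1 ▸ h2) he
          · exact ⟨h1, h2⟩
        · rintro ⟨h1, h2⟩; exact ⟨Or.inr h1, h2⟩
      have e2 : E \ insert e A = E \ A := by
        ext x
        simp only [Finset.mem_sdiff, Finset.mem_insert, not_or]
        constructor
        · rintro ⟨h1, _, h3⟩; exact ⟨h1, h3⟩
        · rintro ⟨h1, h2⟩; exact ⟨h1, fun h3 => he (h3 ▸ h1), h2⟩
      rw [e1, e2]
  · intro A e
    have h1 : ((insert e A) ∩ E).card ≤ (A ∩ E).card + 1 := by
      have : (insert e A) ∩ E ⊆ insert e (A ∩ E) := by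
        intro x
        simp only [Finset.mem_inter, Finset.mem_insert]
        tauto
      exact (Finset.card_le_card this).trans (Finset.card_insert_le _ _)
    have h2 : r (E \ insert e A) ≤ r (E \ A) := h.monotone (by
      intro x
      simp only [Finset.mem_sdiff, Finset.mem_insert, not_or]
      tauto)
    have := hb A
    omega
  · intro A B
    have h1 := h.submod (E \ A) (E \ B)
    have e1 : (E \ A) ∪ (E \ B) = E \ (A ∩ B) := by
      ext x; simp only [Finset.mem_union, Finset.mem_sdiff, Finset.mem_inter]; tauto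
    have e2 : (E \ A) ∩ (E \ B) = E \ (A ∪ B) := by
      ext x; simp only [Finset.mem_union, Finset.mem_sdiff, Finset.mem_inter]; tauto
    rw [e1, e2] at h1
    have h2 : ((A ∪ B) ∩ E).card + ((A ∩ B) ∩ E).card = (A ∩ E).card + (B ∩ E).card := by
      have := Finset.card_union_add_card_inter (A ∩ E) (B ∩ E)
      rw [← Finset.union_inter_distrib_right, ← Finset.inter_inter_distrib_right] at this
      exact this
    have := hb A
    have := hb B
    have := hb (A ∪ B)
    have := hb (A ∩ B)
    omega

end IsRank

/-- **Matroid intersection theorem.** -/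
theorem matroid_inter (n : ℕ) : ∀ (E : Finset α), E.card = n → ∀ (r₁ r₂ : Finset α → ℕ),
    IsRank r₁ → IsRank r₂ → ∀ k : ℕ, (∀ A ⊆ E, k ≤ r₁ A + r₂ (E \ A)) →
    ∃ I ⊆ E, I.card = k ∧ r₁ I = I.card ∧ r₂ I = I.card := by
  induction n with
  | zero =>
    intro E hE r₁ r₂ h₁ h₂ k hk
    rw [Finset.card_eq_zero] at hE
    subst hE
    have := hk ∅ (Finset.Subset.refl _)
    simp only [Finset.sdiff_self, h₁.empty, h₂.empty] at this
    exact ⟨∅, Finset.Subset.refl _, by simp; omega, by simp [h₁.empty], by simp [h₂.empty]⟩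
  | succ n ih =>
    intro E hE r₁ r₂ h₁ h₂ k hk
    rcases Nat.eq_zero_or_pos k with rfl | hkpos
    · exact ⟨∅, Finset.empty_subset _, rfl, by simp [h₁.empty], by simp [h₂.empty]⟩
    -- a common non-loop
    have hex : ∃ e ∈ E, r₁ {e} = 1 ∧ r₂ {e} = 1 := by
      by_contra hcon
      push Not at hcon
      have hA := hk (E.filter fun e => r₁ {e} = 0) (Finset.filter_subset _ _)
      have e1 : r₁ (E.filter fun e => r₁ {e} = 0) = 0 :=
        h₁.zero_of_singletons _ (fun e he => (Finset.mem_filter.1 he).2)
      have e2 : r₂ (E \ E.filter fun e => r₁ {e} = 0) = 0 := by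
        apply h₂.zero_of_singletons
        intro e he
        rw [Finset.mem_sdiff, Finset.mem_filter, not_and] at he
        have h3 := he.2 he.1
        have h4 := h₁.singleton_le e
        have h5 := hcon e he.1 (by omega)
        have h6 := h₂.singleton_le e
        omega
      omega
    obtain ⟨e, heE, he1, he2⟩ := hex
    have hcard : (E.erase e).card = n := by rw [Finset.card_erase_of_mem heE, hE]; rfl
    by_cases hdel : ∀ A ⊆ E.erase e, k ≤ r₁ A + r₂ (E.erase e \ A)
    · obtain ⟨I, hI, hI2⟩ := ih (E.erase e) hcard r₁ r₂ h₁ h₂ k hdel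
      exact ⟨I, hI.trans (Finset.erase_subset _ _), hI2⟩
    by_cases hcon : ∀ A ⊆ E.erase e, k - 1 ≤ (r₁ (insert e A) - 1) + (r₂ (insert e (E.erase e \ A)) - 1)
    · obtain ⟨I, hI, hI1, hI2, hI3⟩ := ih (E.erase e) hcard _ _ (h₁.contract he1) (h₂.contract he2)
        (k - 1) hcon
      have heI : e ∉ I := fun h => (Finset.mem_erase.1 (hI h)).1 rfl
      have g1 : 1 ≤ r₁ (insert e I) := by rw [← he1]; exact h₁.monotone (by simp)
      have g2 : 1 ≤ r₂ (insert e I) := by rw [← he2]; exact h₂.monotone (by simp)
      refine ⟨insert e I, Finset.insert_subset heE (hI.trans (Finset.erase_subset _ _)), ?_, ?_, ?_⟩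
      · rw [Finset.card_insert_of_notMem heI]; omega
      · rw [Finset.card_insert_of_notMem heI]; omega
      · rw [Finset.card_insert_of_notMem heI]; omega
    exfalso
    push Not at hdel hcon
    obtain ⟨A, hA, hA'⟩ := hdel
    obtain ⟨B, hB, hB'⟩ := hcon
    have heA : e ∉ A := fun h => (Finset.mem_erase.1 (hA h)).1 rfl
    have heB : e ∉ B := fun h => (Finset.mem_erase.1 (hB h)).1 rfl
    have hAE : A ⊆ E := hA.trans (Finset.erase_subset _ _)
    have hBE : B ⊆ E := hB.trans (Finset.erase_subset _ _)
    have g1 : 1 ≤ r₁ (insert e B) := by rw [← he1]; exact h₁.monotone (by simp)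
    have g2 : 1 ≤ r₂ (insert e (E.erase e \ B)) := by
      rw [← he2]; exact h₂.monotone (by simp)
    have eB : insert e (E.erase e \ B) = E \ B := by
      ext x
      simp only [Finset.mem_insert, Finset.mem_sdiff, Finset.mem_erase]
      constructor
      · rintro (h | ⟨⟨h1, h2⟩, h3⟩)
        · subst h; exact ⟨heE, heB⟩
        · exact ⟨h2, h3⟩
      · rintro ⟨h1, h2⟩
        by_cases hx : x = e
        · exact Or.inl hx
        · exact Or.inr ⟨⟨hx, h1⟩, h2⟩
    rw [eB] at hB' g2
    have s1 := h₁.submod A (insert e B)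
    have s2 := h₂.submod (E.erase e \ A) (E \ B)
    have u1 : A ∩ insert e B = A ∩ B := by
      ext x
      simp only [Finset.mem_inter, Finset.mem_insert]
      constructor
      · rintro ⟨h1, h2 | h2⟩
        · exact absurd (h2 ▸ h1) heA
        · exact ⟨h1, h2⟩
      · rintro ⟨h1, h2⟩; exact ⟨h1, Or.inr h2⟩
    have u2 : (E.erase e \ A) ∪ (E \ B) = E \ (A ∩ B) := by
      ext x
      simp only [Finset.mem_union, Finset.mem_sdiff, Finset.mem_erase, Finset.mem_inter]
      constructor
      · rintro (⟨⟨h1, h2⟩, h3⟩ | ⟨h1, h2⟩)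
        · exact ⟨h2, fun h => h3 h.1⟩
        · exact ⟨h1, fun h => h2 h.2⟩
      · rintro ⟨h1, h2⟩
        by_cases hxB : x ∈ B
        · left
          refine ⟨⟨fun h => heB (h ▸ hxB), h1⟩, fun h => h2 ⟨h, hxB⟩⟩
        · exact Or.inr ⟨h1, hxB⟩
    have u3 : (E.erase e \ A) ∩ (E \ B) = E \ (A ∪ insert e B) := by
      ext x
      simp only [Finset.mem_union, Finset.mem_sdiff, Finset.mem_erase, Finset.mem_inter,
        Finset.mem_insert]
      tauto
    rw [u1] at s1
    rw [u2, u3] at s2
    have k1 := hk (A ∪ insert e B) (Finset.union_subset hAE (Finset.insert_subset heE hBE))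
    have k2 := hk (A ∩ B) (Finset.inter_subset_left.trans hAE)
    omega

/-- **Two disjoint bases**: if `r₁ E + r₂ E ≤ |E \ A| + r₁ A + r₂ A` for all `A`, there is a basis
`I` of the first matroid whose complement spans the second one. -/
theorem disjoint_bases (E : Finset α) (r₁ r₂ : Finset α → ℕ) (h₁ : IsRank r₁) (h₂ : IsRank r₂)
    (h : ∀ A ⊆ E, r₁ E + r₂ E ≤ (E \ A).card + r₁ A + r₂ A) :
    ∃ I ⊆ E, r₁ I = r₁ E ∧ r₂ (E \ I) = r₂ E := by
  obtain ⟨I, hI, hc, hI1, hI2⟩ := matroid_inter _ E rfl r₁ _ h₁ (h₂.dual E) (r₁ E) (by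
    intro A hA
    have e1 : (E \ A) ∩ E = E \ A := Finset.inter_eq_left.2 Finset.sdiff_subset
    have e2 : E \ (E \ A) = A := by
      ext x
      simp only [Finset.mem_sdiff, not_and, not_not]
      constructor
      · rintro ⟨h1, h2⟩; exact h2 h1
      · intro h; exact ⟨hA h, fun _ => h⟩
    simp only [e1, e2]
    have := h A hA
    have := h₂.monotone hA
    omega)
  refine ⟨I, hI, by omega, ?_⟩
  have e1 : I ∩ E = I := Finset.inter_eq_left.2 hI
  simp only [e1] at hI2
  have := h₂.monotone (A := E \ I) (B := E) Finset.sdiff_subset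
  have : r₂ E ≤ I.card + r₂ (E \ I) := by
    have h3 := h₂.union_le_card (E \ I) I
    have e3 : (E \ I) ∪ I = E := Finset.sdiff_union_of_subset hI
    rw [e3] at h3
    omega
  omega

end Pool.H66.HC
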