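import Pool.Agent.Helper66.HC.Limit

/-! # Four-edge-connected one-ended graphs -/

open Set Filter

namespace Pool.H66.HC

universe u

variable {V : Type u} {G : SimpleGraph V}

lemma four_of_isEdgeConnected (h : G.IsEdgeConnected 4) : Four G := by
  classical
  intro Z hZ hZc hfin
  by_contra hcon
  push Not at hcon
  obtain ⟨u, hu⟩ := hZ
  obtain ⟨v, hv⟩ := hZc
  set s : Set (Sym2 V) := (fun p : V × V => s(p.1, p.2)) '' prs G Z Zᶜ with hs
  have h1 : s.encard < (4 : ℕ) := by
    refine (Set.encard_image_le _ _).trans_lt ?_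
    rw [← hfin.cast_ncard_eq]
    unfold ce at hcon
    exact_mod_cast hcon
  obtain ⟨p⟩ := h u v h1
  obtain ⟨d, hd, hd1, hd2⟩ := p.exists_boundary_dart Z hu hv
  have := d.adj
  rw [SimpleGraph.deleteEdges_adj] at this
  exact this.2 ⟨(d.fst, d.snd), ⟨hd1, hd2, this.1⟩, rfl⟩

/-- the end given by an ultrafilter without finite sets -/
lemma exists_end (hlf : ∀ v, (G.neighborSet v).Finite) (hG : G.Preconnected) (f : Ultrafilter V)
    (hf : (f : Filter V) ≤ cofinite) :
    ∃ s ∈ G.end, ∀ K : (Finset V)ᵒᵖ, (s K).supp ∈ f := by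
  classical
  let _ : G.LocallyFinite := fun v => (hlf v).fintype
  have : Fact G.Preconnected := ⟨hG⟩
  have hex : ∀ K : (Finset V)ᵒᵖ, ∃ C : G.componentComplFunctor.obj K, C.supp ∈ f := by
    intro K
    have : Finite (G.ComponentCompl K.unop) := G.componentCompl_finite K.unop
    have hK : ((K.unop : Set V)ᶜ : Set V) ∈ f := by
      apply hf
      rw [Filter.mem_cofinite, compl_compl]
      exact K.unop.finite_toSet
    have hsub : ((K.unop : Set V)ᶜ : Set V) ⊆ ⋃ C : G.ComponentCompl K.unop, C.supp := by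
      intro v hv
      simp only [mem_iUnion]
      exact ⟨G.componentComplMk hv, G.componentComplMk_mem hv⟩
    have hmem : (⋃ C : G.ComponentCompl K.unop, C.supp) ∈ f := f.sets_of_superset hK hsub
    have h2 : ∃ C : G.ComponentCompl K.unop, C.supp ∈ f := by
      have h3 : ∀ᶠ v in (f : Filter V), ∃ C : G.ComponentCompl K.unop, v ∈ C.supp := by
        filter_upwards [hmem] with v hv
        simpa only [mem_iUnion] using hv
      rw [Ultrafilter.eventually_exists_iff] at h3
      exact h3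
    exact h2
  choose s hs using hex
  have huniq : ∀ (K : Finset V) (C D : G.ComponentCompl K), C.supp ∈ f → D.supp ∈ f → C = D := by
    intro K C D hC hD
    by_contra hne
    have h1 := f.inter_sets hC hD
    have h2 := SimpleGraph.ComponentCompl.pairwise_disjoint hne
    have h3 : C.supp ∩ D.supp = ∅ := Set.disjoint_iff_inter_eq_empty.1 h2
    rw [h3] at h1
    exact f.empty_notMem h1
  refine ⟨s, ?_, hs⟩
  intro K L g
  have hsub := (s K).subset_hom (CategoryTheory.le_of_op_hom g)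
  exact huniq L.unop _ _ (f.sets_of_superset (hs K) hsub) (hs L)

lemma oneEnded_of_end (hlf : ∀ v, (G.neighborSet v).Finite) (hG : G.Preconnected)
    (h : G.end.Subsingleton) : OneEnded G := by
  classical
  intro K hK A hA hno
  by_contra hcon
  push Not at hcon
  obtain ⟨hAi, hBi⟩ := hcon
  have key : ∀ B : Set V, B.Infinite → ∃ f : Ultrafilter V, (f : Filter V) ≤ cofinite ∧ B ∈ f := by
    intro B hB
    have : NeBot (cofinite ⊓ 𝓟 B) := by
      rw [Filter.inf_principal_neBot_iff]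
      intro U hU
      rw [Filter.mem_cofinite] at hU
      by_contra hne
      rw [Set.not_nonempty_iff_eq_empty] at hne
      apply hB
      refine hU.subset fun x hx hxU => ?_
      have : x ∈ U ∩ B := ⟨hxU, hx⟩
      rw [hne] at this
      exact this
    refine ⟨Ultrafilter.of (cofinite ⊓ 𝓟 B), (Ultrafilter.of_le _).trans inf_le_left, ?_⟩
    exact Ultrafilter.of_le _ (mem_inf_of_right (mem_principal_self B))
  obtain ⟨f, hf, hfA⟩ := key A hAi
  obtain ⟨g, hg, hgB⟩ := key (Kᶜ \ A) hBi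
  obtain ⟨s, hs, hs'⟩ := exists_end hlf hG f hf
  obtain ⟨t, ht, ht'⟩ := exists_end hlf hG g hg
  have hst : s = t := h hs ht
  set K' : Finset V := hK.toFinset with hK'
  have hKK : (K' : Set V) = K := hK.coe_toFinset
  have h1 := hs' (Opposite.op K')
  have h2 := ht' (Opposite.op K')
  rw [← hst] at h2
  obtain ⟨a, ha1, ha2⟩ := f.nonempty_of_mem (f.inter_sets h1 hfA)
  obtain ⟨b, hb1, hb2⟩ := g.nonempty_of_mem (g.inter_sets h2 hgB)
  obtain ⟨haK, hae⟩ := ha1
  obtain ⟨hbK, hbe⟩ := hb1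
  have hreach : (G.induce ((K' : Set V))ᶜ).Reachable ⟨a, haK⟩ ⟨b, hbK⟩ :=
    SimpleGraph.ConnectedComponent.exact (hae.trans hbe.symm)
  obtain ⟨p⟩ := hreach
  obtain ⟨d, hd, hd1, hd2⟩ := p.exists_boundary_dart {x | x.1 ∈ A} ha2 (fun h => hb2.2 h)
  have hdK : d.snd.1 ∉ K := by
    intro hmem
    apply d.snd.2
    exact Finset.mem_coe.2 (hK.mem_toFinset.2 hmem)
  exact hno d.fst.1 hd1 d.snd.1 hdK hd2 d.adj

lemma exists_three_edges (h4 : Four G) (hlf : ∀ v, (G.neighborSet v).Finite) [Infinite V] :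
    ∃ a b c : G.edgeSet, a ≠ b ∧ b ≠ c ∧ a ≠ c := by
  classical
  obtain ⟨v⟩ : Nonempty V := inferInstance
  have h1 := h4.fin hlf (finite_singleton v) (singleton_nonempty v)
  have h2 : 2 < (prs G {v} ({v} : Set V)ᶜ).ncard := by unfold ce at h1; omega
  rw [Set.two_lt_ncard (prs_finite hlf (finite_singleton v) _)] at h2
  obtain ⟨⟨a1, a2⟩, ha, ⟨b1, b2⟩, hb, ⟨c1, c2⟩, hc, hab, hac, hbc⟩ := h2
  obtain ⟨e1, f1, g1⟩ := ha
  obtain ⟨e2, f2, g2⟩ := hb
  obtain ⟨e3, f3, g3⟩ := hc
  simp only [mem_singleton_iff] at e1 e2 e3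
  simp only at g1 g2 g3
  rw [e1] at g1 hab hac
  rw [e2] at g2 hab hbc
  rw [e3] at g3 hac hbc
  refine ⟨⟨s(v, a2), g1⟩, ⟨s(v, b2), g2⟩, ⟨s(v, c2), g3⟩, ?_, ?_, ?_⟩
  · intro h
    apply hab
    have := Subtype.mk.inj h
    rcases Sym2.eq_iff.1 this with ⟨_, h⟩ | ⟨h, h'⟩
    · rw [h]
    · rw [h', ← h]
  · intro h
    apply hbc
    have := Subtype.mk.inj h
    rcases Sym2.eq_iff.1 this with ⟨_, h⟩ | ⟨h, h'⟩
    · rw [h]
    · rw [h', ← h]
  · intro h
    apply hac
    have := Subtype.mk.inj h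
    rcases Sym2.eq_iff.1 this with ⟨_, h⟩ | ⟨h, h'⟩
    · rw [h]
    · rw [h', ← h]

/-- **Four-edge-connected locally finite graphs with at most one end have Hamiltonian line
graphs.** -/
theorem hamiltonian_one_end [Infinite V] (hlf : ∀ v, (G.neighborSet v).Finite)
    (h4 : G.IsEdgeConnected 4) (h1 : G.end.Subsingleton) : HasHamiltonCircle G.lineGraph := by
  have hF := four_of_isEdgeConnected h4
  have hG : G.Preconnected := h4.preconnected (by norm_num)
  obtain ⟨C, hC⟩ := exists_chain hlf hF (oneEnded_of_end hlf hG h1)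
  obtain ⟨H, hH⟩ := exists_limit hlf hF hC
  exact theoremA hlf hG (exists_three_edges hF hlf) (hH.good2 hlf hF hC)

end Pool.H66.HC
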