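import Pool.Agent.Helper66.HC.Tour

/-! # The order given by the tree of nested closed trails -/

open Set

namespace Pool.H66.HC

universe u v

variable {V : Type u} {E : Type v}

/-- two edges of a multigraph share an end vertex -/
def Shares (G : MG V E) (e e' : E) : Prop := e ≠ e' ∧ ∃ u v w, G.lk e u v ∧ G.lk e' u w

variable {G : MG V E} {idx : E → ℕ} [Nonempty E]

/-- first edge of a node -/
noncomputable abbrev fe (G : MG V E) (idx : E → ℕ) (p : Finset E × V) : E := ed G idx p 0

/-- last edge of a node -/
noncomputable abbrev la (G : MG V E) (idx : E → ℕ) (p : Finset E × V) : E :=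
  ed G idx p (len G idx p - 1)

section

variable (hidx : Function.Injective idx) (hlf : ∀ x, {e | ∃ v, G.lk e x v}.Finite)

include hlf

lemma fe_mem {p : Finset E × V} (hp : Good G p) : fe G idx p ∈ dom G p :=
  tr_sub_dom hlf hp (ed_mem (len_pos hlf hp))

lemma la_mem {p : Finset E × V} (hp : Good G p) : la G idx p ∈ dom G p := by
  have := len_pos (idx := idx) hlf hp
  exact tr_sub_dom hlf hp (ed_mem (by omega))

lemma fe_lk {p : Finset E × V} (hp : Good G p) : ∃ v, G.lk (fe G idx p) p.2 v := by
  have h := ed_lk (idx := idx) hlf hp (len_pos hlf hp)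
  rw [vx_zero] at h
  exact ⟨_, h⟩

lemma la_lk {p : Finset E × V} (hp : Good G p) : ∃ v, G.lk (la G idx p) p.2 v := by
  have hl := len_pos (idx := idx) hlf hp
  have h := ed_lk (idx := idx) hlf hp (show len G idx p - 1 < len G idx p by omega)
  rw [Nat.sub_add_cancel hl, vx_len hlf hp] at h
  exact ⟨_, G.symm h⟩

include hidx

lemma exists_succ : ∀ p e, Good G p → e ∈ dom G p →
    (e = la G idx p ∨ ∃ e' ∈ dom G p, Lt G idx p e e' ∧
      (∀ g ∈ dom G p, ¬ (Lt G idx p e g ∧ Lt G idx p g e')) ∧ Shares G e e') := by
  refine node_ind hidx hlf (P := fun p e => (e = la G idx p ∨ ∃ e' ∈ dom G p, Lt G idx p e e' ∧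
      (∀ g ∈ dom G p, ¬ (Lt G idx p e g ∧ Lt G idx p g e')) ∧ Shares G e e')) ?_ ?_
  · intro p e hp he het
    obtain ⟨j, hj, rfl⟩ := exists_ed het
    by_cases hj1 : j + 1 < len G idx p
    · right
      have hc := code_ed (idx := idx) hlf hp hj
      have hl1 := ed_lk (idx := idx) hlf hp hj
      by_cases hk : IsKid G idx p j
      · -- first edge of the child
        have hkg := kid_good hlf hp hk
        have hf := fe_mem (idx := idx) hlf hkg
        have hfc := code_kid hk hf
        refine ⟨fe G idx (kid G idx p j), kid_dom_sub hlf hp hf, ?_, ?_, ?_, ?_⟩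
        · apply Lt.of_code; rw [hc, hfc]; omega
        · rintro g hg ⟨h1, h2⟩
          have c1 := h1.code_le
          have c2 := h2.code_le
          rw [hc] at c1
          rw [hfc] at c2
          rcases code_cases (idx := idx) hlf hp hg with ⟨i, hi, rfl, hc'⟩ | ⟨i, hi, _, hig, hc'⟩
          · have : i = j := by omega
            subst this
            exact Lt.irrefl h1
          · have : i = j := by omega
            subst this
            rw [lt_kid hk hig hf] at h2
            by_cases hgf : g = fe G idx (kid G idx p i)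
            · rw [hgf] at h2; exact Lt.irrefl h2
            · exact Lt.asymm h2 (first_min hlf hkg hig hgf)
        · intro h
          apply kid_dom_not_tr hf
          rw [← h]; exact ed_mem hj
        · obtain ⟨w, hw⟩ := fe_lk (idx := idx) hlf hkg
          exact ⟨_, _, w, G.symm hl1, hw⟩
      · have hc2 := code_ed (idx := idx) hlf hp hj1
        have hl2 := ed_lk (idx := idx) hlf hp hj1
        refine ⟨ed G idx p (j + 1), tr_sub_dom hlf hp (ed_mem hj1), ?_, ?_, ?_, ?_⟩
        · apply Lt.of_code; rw [hc, hc2]; omega
        · rintro g hg ⟨h1, h2⟩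
          have c1 := h1.code_le
          have c2 := h2.code_le
          rw [hc] at c1
          rw [hc2] at c2
          rcases code_cases (idx := idx) hlf hp hg with ⟨i, hi, rfl, hc'⟩ | ⟨i, hi, _, hig, hc'⟩
          · have : i = j ∨ i = j + 1 := by omega
            rcases this with h | h <;> subst h
            · exact Lt.irrefl h1
            · exact Lt.irrefl h2
          · have : i = j := by omega
            subst this
            exact hk hi
        · intro h
          have := ed_inj hlf hp hj hj1 h
          omega
        · exact ⟨_, _, _, G.symm hl1, hl2⟩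
    · left
      have : j = len G idx p - 1 := by omega
      rw [this]
  · intro p e j hp hj hje ih
    right
    have hkg := kid_good hlf hp hj
    have hj1 := kid_lt hlf hp hj
    have hc := code_kid hj hje
    rcases ih with rfl | ⟨e', he', h1, h2, h3⟩
    · have hc2 := code_ed (idx := idx) hlf hp hj1
      have hl2 := ed_lk (idx := idx) hlf hp hj1
      refine ⟨ed G idx p (j + 1), tr_sub_dom hlf hp (ed_mem hj1), ?_, ?_, ?_, ?_⟩
      · apply Lt.of_code; rw [hc, hc2]; omega
      · rintro g hg ⟨h1, h2⟩
        have c1 := h1.code_le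
        have c2 := h2.code_le
        rw [hc] at c1
        rw [hc2] at c2
        rcases code_cases (idx := idx) hlf hp hg with ⟨i, hi, rfl, hc'⟩ | ⟨i, hi, _, hig, hc'⟩
        · have : i = j + 1 := by omega
          subst this
          exact Lt.irrefl h2
        · have : i = j := by omega
          subst this
          rw [lt_kid hj hje hig] at h1
          by_cases hgf : g = la G idx (kid G idx p i)
          · rw [hgf] at h1; exact Lt.irrefl h1
          · exact Lt.asymm h1 (last_max hlf hkg hig hgf)
      · intro h
        apply kid_dom_not_tr hje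
        rw [h]; exact ed_mem hj1
      · obtain ⟨w, hw⟩ := la_lk (idx := idx) hlf hkg
        exact ⟨_, w, _, hw, hl2⟩
    · have hc' := code_kid hj he'
      refine ⟨e', kid_dom_sub hlf hp he', (lt_kid hj hje he').2 h1, ?_, h3⟩
      rintro g hg ⟨g1, g2⟩
      have c1 := g1.code_le
      have c2 := g2.code_le
      rw [hc] at c1
      rw [hc'] at c2
      rcases code_cases (idx := idx) hlf hp hg with ⟨i, hi, rfl, hc'⟩ | ⟨i, hi, _, hig, hc'⟩
      · omega
      · have : i = j := by omega
        subst this
        exact h2 g hig ⟨(lt_kid hj hje hig).1 g1, (lt_kid hj hig he').1 g2⟩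

lemma exists_pred : ∀ p e, Good G p → e ∈ dom G p →
    (e = fe G idx p ∨ ∃ e' ∈ dom G p, Lt G idx p e' e ∧
      (∀ g ∈ dom G p, ¬ (Lt G idx p e' g ∧ Lt G idx p g e))) := by
  refine node_ind hidx hlf (P := fun p e => (e = fe G idx p ∨ ∃ e' ∈ dom G p, Lt G idx p e' e ∧
      (∀ g ∈ dom G p, ¬ (Lt G idx p e' g ∧ Lt G idx p g e)))) ?_ ?_
  · intro p e hp he het
    obtain ⟨j, hj, rfl⟩ := exists_ed het
    cases j with
    | zero => exact Or.inl rfl
    | succ j =>
      right
      have hj0 : j < len G idx p := by omega
      have hc := code_ed (idx := idx) hlf hp hj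
      by_cases hk : IsKid G idx p j
      · have hkg := kid_good hlf hp hk
        have hf := la_mem (idx := idx) hlf hkg
        have hfc := code_kid hk hf
        refine ⟨la G idx (kid G idx p j), kid_dom_sub hlf hp hf, ?_, ?_⟩
        · apply Lt.of_code; rw [hc, hfc]; omega
        · rintro g hg ⟨h1, h2⟩
          have c1 := h1.code_le
          have c2 := h2.code_le
          rw [hfc] at c1
          rw [hc] at c2
          rcases code_cases (idx := idx) hlf hp hg with ⟨i, hi, rfl, hc'⟩ | ⟨i, hi, _, hig, hc'⟩
          · have : i = j + 1 := by omega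
            subst this
            exact Lt.irrefl h2
          · have : i = j := by omega
            subst this
            rw [lt_kid hk hf hig] at h1
            by_cases hgf : g = la G idx (kid G idx p i)
            · rw [hgf] at h1; exact Lt.irrefl h1
            · exact Lt.asymm h1 (last_max hlf hkg hig hgf)
      · have hc2 := code_ed (idx := idx) hlf hp hj0
        refine ⟨ed G idx p j, tr_sub_dom hlf hp (ed_mem hj0), ?_, ?_⟩
        · apply Lt.of_code; rw [hc, hc2]; omega
        · rintro g hg ⟨h1, h2⟩
          have c1 := h1.code_le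
          have c2 := h2.code_le
          rw [hc2] at c1
          rw [hc] at c2
          rcases code_cases (idx := idx) hlf hp hg with ⟨i, hi, rfl, hc'⟩ | ⟨i, hi, _, hig, hc'⟩
          · have : i = j ∨ i = j + 1 := by omega
            rcases this with h | h <;> subst h
            · exact Lt.irrefl h1
            · exact Lt.irrefl h2
          · have : i = j := by omega
            subst this
            exact hk hi
  · intro p e j hp hj hje ih
    right
    have hkg := kid_good hlf hp hj
    have hj1 := kid_lt hlf hp hj
    have hj0 : j < len G idx p := by omega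
    have hc := code_kid hj hje
    rcases ih with rfl | ⟨e', he', h1, h2⟩
    · have hc2 := code_ed (idx := idx) hlf hp hj0
      refine ⟨ed G idx p j, tr_sub_dom hlf hp (ed_mem hj0), ?_, ?_⟩
      · apply Lt.of_code; rw [hc, hc2]; omega
      · rintro g hg ⟨h1, h2⟩
        have c1 := h1.code_le
        have c2 := h2.code_le
        rw [hc2] at c1
        rw [hc] at c2
        rcases code_cases (idx := idx) hlf hp hg with ⟨i, hi, rfl, hc'⟩ | ⟨i, hi, _, hig, hc'⟩
        · have : i = j := by omega
          subst this
          exact Lt.irrefl h1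
        · have : i = j := by omega
          subst this
          rw [lt_kid hj hig hje] at h2
          by_cases hgf : g = fe G idx (kid G idx p i)
          · rw [hgf] at h2; exact Lt.irrefl h2
          · exact Lt.asymm h2 (first_min hlf hkg hig hgf)
    · have hc' := code_kid hj he'
      refine ⟨e', kid_dom_sub hlf hp he', (lt_kid hj he' hje).2 h1, ?_⟩
      rintro g hg ⟨g1, g2⟩
      have c1 := g1.code_le
      have c2 := g2.code_le
      rw [hc'] at c1
      rw [hc] at c2
      rcases code_cases (idx := idx) hlf hp hg with ⟨i, hi, rfl, hc'⟩ | ⟨i, hi, _, hig, hc'⟩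
      · omega
      · have : i = j := by omega
        subst this
        exact h2 g hig ⟨(lt_kid hj he' hig).1 g1, (lt_kid hj hig hje).1 g2⟩

end

/-- descendants of a node -/
inductive Desc (G : MG V E) (idx : E → ℕ) (p₀ : Finset E × V) : Finset E × V → Prop
  | root : Desc G idx p₀ p₀
  | kid {p : Finset E × V} {j : ℕ} (h : Desc G idx p₀ p) (hj : IsKid G idx p j) :
      Desc G idx p₀ (kid G idx p j)

section

variable (hlf : ∀ x, {e | ∃ v, G.lk e x v}.Finite)

include hlf

omit [Nonempty E] in
lemma Desc.good {p₀ q : Finset E × V} (h0 : Good G p₀) (h : Desc G idx p₀ q) : Good G q := by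
  induction h with
  | root => exact h0
  | kid _ hj ih => exact kid_good hlf ih hj

omit [Nonempty E] in
lemma Desc.sub {p₀ q : Finset E × V} (h0 : Good G p₀) (h : Desc G idx p₀ q) :
    dom G q ⊆ dom G p₀ := by
  induction h with
  | root => exact subset_rfl
  | kid h hj ih => exact (kid_dom_sub hlf (h.good hlf h0)).trans ih

omit hlf [Nonempty E] in
lemma Desc.trans {p₀ p q : Finset E × V} (h : Desc G idx p₀ p) (h' : Desc G idx p q) :
    Desc G idx p₀ q := by
  induction h' with
  | root => exact h
  | kid _ hj ih => exact Desc.kid ih hj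

omit [Nonempty E] in
lemma Desc.lt_iff {p₀ q : Finset E × V} (h0 : Good G p₀) (h : Desc G idx p₀ q) {e e' : E}
    (he : e ∈ dom G q) (he' : e' ∈ dom G q) : Lt G idx p₀ e e' ↔ Lt G idx q e e' := by
  induction h with
  | root => exact Iff.rfl
  | kid h hj ih =>
    rw [ih (kid_dom_sub hlf (h.good hlf h0) he) (kid_dom_sub hlf (h.good hlf h0) he'),
      lt_kid hj he he']

lemma Desc.convex {p₀ q : Finset E × V} (h0 : Good G p₀) (h : Desc G idx p₀ q) {e f g : E}
    (he : e ∈ dom G q) (hg : g ∈ dom G q) (hf : f ∈ dom G p₀) (h1 : Lt G idx p₀ e f)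
    (h2 : Lt G idx p₀ f g) : f ∈ dom G q := by
  induction h with
  | root => exact hf
  | @kid p j h hj ih =>
    have hp := h.good hlf h0
    have he' := kid_dom_sub hlf hp he
    have hg' := kid_dom_sub hlf hp hg
    have hf' := ih he' hg'
    rw [h.lt_iff hlf h0 he' hf'] at h1
    rw [h.lt_iff hlf h0 hf' hg'] at h2
    have c1 := h1.code_le
    have c2 := h2.code_le
    rw [code_kid hj he] at c1
    rw [code_kid hj hg] at c2
    rcases code_cases (idx := idx) hlf hp hf' with ⟨i, hi, rfl, hc'⟩ | ⟨i, hi, _, hig, hc'⟩
    · omega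
    · have : i = j := by omega
      subst this
      exact hig

omit [Nonempty E] hlf in
/-- the component of a node is connected in every graph containing the sharing relation, also
after deleting a set of edges disjoint from the component -/
lemma dom_connected {H : SimpleGraph E} (hH : ∀ e e', Shares G e e' → H.Adj e e')
    {q : Finset E × V} {K : Set E} (hK : ∀ e ∈ dom G q, e ∉ K) {e e' : E} (he : e ∈ dom G q)
    (he' : e' ∈ dom G q) :
    (H.induce Kᶜ).Reachable ⟨e, hK e he⟩ ⟨e', hK e' he'⟩ := by
  have key : ∀ (l : List (E × V)) (x u : V), IsWk G x l u → (∀ a ∈ eds l, a ∈ co q.1) →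
      Reach G (co q.1) q.2 x → ∀ (f : E) (hf : f ∈ dom G q) (w : V), G.lk f x w →
      ∀ (f' : E) (hf' : f' ∈ dom G q) (w' : V), G.lk f' u w' →
      (H.induce Kᶜ).Reachable ⟨f, hK f hf⟩ ⟨f', hK f' hf'⟩ := by
    intro l
    induction l with
    | nil =>
      intro x u hxu _ hx f hf w hw f' hf' w' hw'
      cases hxu
      by_cases hff : f = f'
      · subst hff; exact SimpleGraph.Reachable.refl _
      · exact SimpleGraph.Adj.reachable (G := H.induce Kᶜ)
          (show H.Adj f f' from hH f f' ⟨hff, x, w, w', hw, hw'⟩)
    | cons a l ih =>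
      obtain ⟨g, v⟩ := a
      rintro x u ⟨h1, h2⟩ h3 hx f hf w hw f' hf' w' hw'
      have hgD : g ∈ co q.1 := h3 g (by simp)
      have hg : g ∈ dom G q := ⟨hgD, x, v, h1, hx⟩
      have hv : Reach G (co q.1) q.2 v := hx.trans (Reach.of_lk h1 hgD)
      have h4 := ih v u h2 (fun a ha => h3 a (by
        simp only [List.map_cons, List.mem_cons]; exact Or.inr ha)) hv g hg x (G.symm h1)
        f' hf' w' hw'
      refine SimpleGraph.Reachable.trans ?_ h4
      by_cases hff : f = g
      · subst hff; exact SimpleGraph.Reachable.refl _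
      · exact SimpleGraph.Adj.reachable (G := H.induce Kᶜ)
          (show H.Adj f g from hH f g ⟨hff, x, w, v, hw, h1⟩)
  obtain ⟨heD, u, w, huw, hr⟩ := id he
  obtain ⟨heD', u', w', huw', hr'⟩ := id he'
  obtain ⟨l, hl, hl'⟩ := hr.symm.trans hr'
  exact key l u u' hl hl' hr e he w huw e' he' w' huw'

end

end Pool.H66.HC
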