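import Pool.Agent.Helper66.HC.Weights

open Set Topology

namespace Pool.H66.HC

universe u

variable {V : Type u}

/-- A linear order on the vertices of `H` that is a (cut open) Hamilton circle: consecutive
vertices are adjacent, the last vertex is adjacent to the first one, every gap of the order
converges to an end, and different gaps converge to different ends. -/
structure CircOrder (H : SimpleGraph V) [LinearOrder V] [OrderBot V] [OrderTop V] : Prop where
  succ : ∀ x : V, x ≠ ⊤ → ∃ y, x ⋖ y ∧ H.Adj x y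
  pred : ∀ x : V, x ≠ ⊥ → ∃ y, y ⋖ x
  wrap : H.Adj (⊤ : V) (⊥ : V)
  conv : ∀ A : Set V, Gap A → ∀ K : Finset V, ∃ a ∈ A, ∃ b, b ∉ A ∧
    ∃ C : H.ComponentCompl K, ∀ x, a ≤ x → x ≤ b → x ∈ C
  sep : ∀ A A' : Set V, Gap A → Gap A' → A ≠ A' → ∃ K : Finset V,
    ∃ C C' : H.ComponentCompl K, C ≠ C' ∧
      (∃ a ∈ A, ∃ b, b ∉ A ∧ ∀ x, a ≤ x → x ≤ b → x ∈ C) ∧
      (∃ a ∈ A', ∃ b, b ∉ A' ∧ ∀ x, a ≤ x → x ≤ b → x ∈ C')

lemma comp_unique {H : SimpleGraph V} {K : Set V} {C C' : H.ComponentCompl K} {x : V}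
    (h : x ∈ C) (h' : x ∈ C') : C = C' := by
  obtain ⟨h1, h2⟩ := h
  obtain ⟨h1', h2'⟩ := h'
  rw [← h2, ← h2']

section

variable {H : SimpleGraph V} [LinearOrder V] [OrderBot V] [OrderTop V]

section ends

variable (hO : CircOrder H)

/-- the component at a gap -/
noncomputable def gapComp (A : Set V) (hA : Gap A) (K : Finset V) : H.ComponentCompl K :=
  ((hO.conv A hA K).choose_spec.2.choose_spec.2).choose

include hO in
lemma gapComp_spec (A : Set V) (hA : Gap A) (K : Finset V) :
    ∃ a ∈ A, ∃ b, b ∉ A ∧ ∀ x, a ≤ x → x ≤ b → x ∈ gapComp hO A hA K :=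
  ⟨(hO.conv A hA K).choose, (hO.conv A hA K).choose_spec.1,
    (hO.conv A hA K).choose_spec.2.choose, (hO.conv A hA K).choose_spec.2.choose_spec.1,
    ((hO.conv A hA K).choose_spec.2.choose_spec.2).choose_spec⟩

omit [OrderBot V] [OrderTop V] in
/-- any two intervals around a gap meet -/
lemma interval_meet {A : Set V} (hA : Gap A) {a b a' b' : V} (ha : a ∈ A) (hb : b ∉ A)
    (ha' : a' ∈ A) (hb' : b' ∉ A) : ∃ x, (a ≤ x ∧ x ≤ b) ∧ (a' ≤ x ∧ x ≤ b') := by
  have hm : max a a' ∈ A := by
    rcases le_total a a' with h | h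
    · rw [max_eq_right h]; exact ha'
    · rw [max_eq_left h]; exact ha
  exact ⟨max a a', ⟨le_max_left _ _, (hA.lt hm hb).le⟩, ⟨le_max_right _ _, (hA.lt hm hb').le⟩⟩

lemma gapComp_unique (A : Set V) (hA : Gap A) (K : Finset V) {C : H.ComponentCompl K}
    {a b : V} (ha : a ∈ A) (hb : b ∉ A) (h : ∀ x, a ≤ x → x ≤ b → x ∈ C) :
    gapComp hO A hA K = C := by
  obtain ⟨a', ha', b', hb', h'⟩ := gapComp_spec hO A hA K
  obtain ⟨x, ⟨h1, h2⟩, h3, h4⟩ := interval_meet hA ha hb ha' hb'
  exact comp_unique (h' x h3 h4) (h x h1 h2)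

/-- the end at a gap -/
noncomputable def gapEnd (A : Set V) (hA : Gap A) : H.end :=
  ⟨fun K => gapComp hO A hA K.unop, by
    intro K L f
    obtain ⟨a, ha, b, hb, h⟩ := gapComp_spec hO A hA K.unop
    obtain ⟨a', ha', b', hb', h'⟩ := gapComp_spec hO A hA L.unop
    obtain ⟨x, ⟨h1, h2⟩, h3, h4⟩ := interval_meet hA ha hb ha' hb'
    have hx := h x h1 h2
    have hx' := h' x h3 h4
    have hKL : (L.unop : Set V) ⊆ (K.unop : Set V) := CategoryTheory.le_of_op_hom f
    have h5 := SimpleGraph.ComponentCompl.subset_hom (gapComp hO A hA K.unop) hKL hx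
    exact comp_unique h5 hx'⟩

lemma gapEnd_apply (A : Set V) (hA : Gap A) (K : Finset V) :
    (gapEnd hO A hA).1 (Opposite.op K) = gapComp hO A hA K := rfl

end ends

section nxt

open Classical in
/-- the next vertex on the circle -/
noncomputable def nxt (hO : CircOrder H) (x : V) : V :=
  if h : x = ⊤ then ⊥ else (hO.succ x h).choose

variable (hO : CircOrder H)

lemma nxt_top : nxt hO (⊤ : V) = ⊥ := by simp [nxt]

lemma covBy_nxt {x : V} (h : x ≠ ⊤) : x ⋖ nxt hO x := by
  rw [nxt, dif_neg h]
  exact (hO.succ x h).choose_spec.1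

lemma adj_nxt (x : V) : H.Adj x (nxt hO x) := by
  by_cases h : x = ⊤
  · subst h; rw [nxt_top]; exact hO.wrap
  · rw [nxt, dif_neg h]
    exact (hO.succ x h).choose_spec.2

/-- clipping to `[0,1]` -/
noncomputable def clip (t : ℝ) : ℝ := max 0 (min 1 t)

lemma clip_nonneg (t : ℝ) : 0 ≤ clip t := le_max_left _ _
lemma clip_le_one (t : ℝ) : clip t ≤ 1 := max_le zero_le_one (min_le_left _ _)
lemma clip_of_mem {t : ℝ} (h0 : 0 ≤ t) (h1 : t ≤ 1) : clip t = t := by
  rw [clip, min_eq_right h1, max_eq_right h0]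
lemma continuous_clip : Continuous clip := by
  unfold clip; fun_prop

/-- the point with parameter `t` of the edge from `x` to the next vertex -/
noncomputable def ept (x : V) (t : ℝ) : FC H :=
  FC.pt ⟨edgePt x (nxt hO x) (clip t), x, nxt hO x, clip t, Or.inr (adj_nxt hO x),
    clip_nonneg t, clip_le_one t, rfl⟩

omit [LinearOrder V] [OrderBot V] [OrderTop V] in
lemma continuous_pt {X : Type*} [TopologicalSpace X] (g : X → Complex1 H)
    (hg : ∀ v, Continuous fun s => (g s).1 v) : Continuous fun s => FC.pt (g s) := by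
  refine continuous_generateFrom_iff.2 ?_
  rintro U (⟨v, r, hr, rfl⟩ | ⟨K, C, rfl⟩)
  · have : (fun s => FC.pt (g s)) ⁻¹' starSet H v r = {s | r < (g s).1 v} := by
      ext s; exact mem_star
    rw [this]
    exact isOpen_lt continuous_const (hg v)
  · have : (fun s => FC.pt (g s)) ⁻¹' regionSet H K C
        = ⋃ v ∈ {v | v ∈ C}, {s | 0 < (g s).1 v} := by
      ext s
      simp only [mem_preimage, pt_mem_region, mem_iUnion, mem_ofPred_eq, exists_prop]
    rw [this]
    exact isOpen_biUnion fun v _ => isOpen_lt continuous_const (hg v)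

lemma continuous_ept (x : V) : Continuous (ept hO x) := by
  refine continuous_pt (fun t => (⟨edgePt x (nxt hO x) (clip t), x, nxt hO x, clip t,
    Or.inr (adj_nxt hO x), clip_nonneg t, clip_le_one t, rfl⟩ : Complex1 H)) ?_
  intro v
  show Continuous fun s => edgePt x (nxt hO x) (clip s) v
  unfold edgePt
  have := continuous_clip
  fun_prop

lemma ept_one (x : V) : ept hO x 1 = FC.pt (vtx H (nxt hO x)) := by
  unfold ept vtx
  congr 1
  refine Subtype.ext ?_
  show edgePt x (nxt hO x) (clip 1) = _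
  rw [clip_of_mem zero_le_one le_rfl, edgePt_one]

lemma ept_zero (x : V) : ept hO x 0 = FC.pt (vtx H x) := by
  unfold ept vtx
  congr 1
  refine Subtype.ext ?_
  show edgePt x (nxt hO x) (clip 0) = _
  rw [clip_of_mem le_rfl zero_le_one, edgePt_zero]

end nxt

section param

variable (hO : CircOrder H) (w : V → ℝ)

/-- initial segment of a time -/
def seg (t : ℝ) : Set V := {x | pos w x ≤ t}

open Classical in
/-- the parametrization -/
noncomputable def par (t : ℝ) : FC H :=
  if h : ∃ x, IsGreatest (seg w t) x then ept hO h.choose ((t - pos w h.choose) / w h.choose)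
  else if h : Gap (seg w t) then FC.en (gapEnd hO _ h)
  else FC.pt (vtx H (⊥ : V))

lemma par_of_greatest {t : ℝ} {x : V} (h : IsGreatest (seg w t) x) :
    par hO w t = ept hO x ((t - pos w x) / w x) := by
  have h' : ∃ x, IsGreatest (seg w t) x := ⟨x, h⟩
  rw [par, dif_pos h']
  rw [h'.choose_spec.unique h]

lemma par_of_gap {t : ℝ} (h : Gap (seg w t)) : par hO w t = FC.en (gapEnd hO _ h) := by
  have h' : ¬ ∃ x, IsGreatest (seg w t) x := by
    rintro ⟨x, hx, hx'⟩
    obtain ⟨a', ha', hlt⟩ := h.nomax x hx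
    exact absurd (hx' ha') (not_le.2 hlt)
  rw [par, dif_neg h', dif_pos h]

variable {w} (hw : ∀ v, 0 < w v) (hs : HasSum w 1)

include hw hs

omit [OrderBot V] [OrderTop V] in
lemma isGreatest_of_mem {t : ℝ} {x : V} (h1 : pos w x ≤ t) (h2 : t < pos w x + w x) :
    IsGreatest (seg w t) x := by
  refine ⟨h1, ?_⟩
  intro y hy
  by_contra hcon
  push Not at hcon
  have := pos_add_le_pos hw hs hcon
  have hy' : pos w y ≤ t := hy
  linarith

/-- on the interval of `x` the parametrization is the edge from `x` to the next vertex -/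
lemma par_eq_on {t : ℝ} {x : V} (h1 : pos w x ≤ t) (h2 : t ≤ pos w x + w x) :
    par hO w t = ept hO x ((t - pos w x) / w x) := by
  rcases h2.lt_or_eq with h2 | h2
  · exact par_of_greatest hO w (isGreatest_of_mem hw hs h1 h2)
  · have e1 : (t - pos w x) / w x = 1 := by
      rw [h2, add_sub_cancel_left, div_self (hw x).ne']
    by_cases hx : x = ⊤
    · subst hx
      refine par_of_greatest hO w ⟨h1, fun y _ => le_top⟩
    · have hc := covBy_nxt hO hx
      have hpos := pos_succ hw hs hc
      rw [e1, ept_one]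
      have hg : IsGreatest (seg w t) (nxt hO x) := by
        apply isGreatest_of_mem hw hs
        · rw [hpos, h2]
        · rw [hpos, h2]
          have := hw (nxt hO x)
          linarith
      rw [par_of_greatest hO w hg, hpos, h2, sub_self, zero_div, ept_zero]

omit [OrderTop V] hw hs in
lemma seg_nonempty {t : ℝ} (h : 0 ≤ t) : (⊥ : V) ∈ seg w t := by
  show pos w ⊥ ≤ t
  rw [pos_bot]; exact h

lemma seg_dichotomy {t : ℝ} (h : 0 ≤ t) :
    (∃ x, IsGreatest (seg w t) x) ∨ Gap (seg w t) := by
  by_cases hg : ∃ x, IsGreatest (seg w t) x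
  · exact Or.inl hg
  · right
    push Not at hg
    refine ⟨?_, ⟨⊥, seg_nonempty h⟩, ?_, ?_⟩
    · intro a ha b hb
      exact ((pos_strictMono hw hs).monotone hb).trans ha
    · refine ⟨⊤, fun hT => hg ⊤ ⟨hT, fun y _ => le_top⟩⟩
    · intro a ha
      by_contra hcon
      push Not at hcon
      exact hg a ⟨ha, fun y hy => hcon y hy⟩

lemma continuousWithinAt_edge (x : V) {t : ℝ} (ht : t ∈ Icc (pos w x) (pos w x + w x)) :
    ContinuousWithinAt (par hO w) (Icc (pos w x) (pos w x + w x)) t := by
  have hc : Continuous fun s => ept hO x ((s - pos w x) / w x) := by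
    have := continuous_ept hO x
    exact this.comp (by fun_prop)
  refine hc.continuousWithinAt.congr ?_ ?_
  · intro s hs'
    exact par_eq_on hO hw hs hs'.1 hs'.2
  · exact par_eq_on hO hw hs ht.1 ht.2

lemma par_continuousOn : ContinuousOn (par hO w) (Icc 0 1) := by
  intro t ht
  rcases seg_dichotomy hw hs ht.1 with ⟨x, hx⟩ | hgap
  · have h1 : pos w x ≤ t := hx.1
    have h2 : t ≤ pos w x + w x := by
      by_cases hxt : x = ⊤
      · subst hxt; rw [pos_top hw hs]; exact ht.2
      · by_contra hcon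
        push Not at hcon
        have hc := covBy_nxt hO hxt
        have := pos_succ hw hs hc
        have h3 : nxt hO x ∈ seg w t := by
          show pos w _ ≤ t
          rw [this]; exact hcon.le
        exact absurd (hx.2 h3) (not_le.2 hc.lt)
    have hmem : t ∈ Icc (pos w x) (pos w x + w x) := ⟨h1, h2⟩
    have hright : ∃ ε > 0, ∀ s ∈ Icc (0:ℝ) 1, t ≤ s → s < t + ε →
        s ∈ Icc (pos w x) (pos w x + w x) := by
      rcases h2.lt_or_eq with h2' | h2'
      · exact ⟨pos w x + w x - t, by linarith, fun s _ h3 h4 => ⟨by linarith, by linarith⟩⟩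
      · by_cases hxt : x = ⊤
        · subst hxt
          refine ⟨1, one_pos, fun s hs' h3 _ => ⟨by linarith, ?_⟩⟩
          rw [pos_top hw hs]; exact hs'.2
        · exfalso
          have hc := covBy_nxt hO hxt
          have := pos_succ hw hs hc
          have h3 : nxt hO x ∈ seg w t := by
            show pos w _ ≤ t
            rw [this]; exact h2'.ge
          exact absurd (hx.2 h3) (not_le.2 hc.lt)
    obtain ⟨ε, hε, hr⟩ := hright
    rcases h1.lt_or_eq with h1' | h1'
    · -- interior on the left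
      refine (continuousWithinAt_edge hO hw hs x hmem).mono_of_mem_nhdsWithin ?_
      rw [mem_nhdsWithin]
      refine ⟨Ioo (pos w x) (t + ε), isOpen_Ioo, ⟨h1', by linarith⟩, ?_⟩
      rintro s ⟨⟨h3, h4⟩, h5⟩
      by_cases h6 : t ≤ s
      · exact hr s h5 h6 h4
      · push Not at h6
        exact ⟨h3.le, by linarith⟩
    · by_cases hxb : x = ⊥
      · subst hxb
        refine (continuousWithinAt_edge hO hw hs _ hmem).mono_of_mem_nhdsWithin ?_
        rw [mem_nhdsWithin]
        refine ⟨Iio (t + ε), isOpen_Iio, by simp [hε], ?_⟩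
        rintro s ⟨h4, h5⟩
        refine hr s h5 ?_ h4
        rw [← h1', pos_bot]; exact h5.1
      · obtain ⟨y, hy⟩ := hO.pred x hxb
        have hyx := pos_succ hw hs hy
        have hynxt : nxt hO y = x := by
          have hyt : y ≠ ⊤ := (lt_of_lt_of_le hy.lt le_top).ne
          have hc := covBy_nxt hO hyt
          rcases lt_trichotomy (nxt hO y) x with h | h | h
          · exact absurd h (hy.2 hc.lt)
          · exact h
          · exact absurd h (hc.2 hy.lt)
        have hmem' : t ∈ Icc (pos w y) (pos w y + w y) := by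
          rw [← hyx, ← h1']
          exact ⟨((pos_lt_iff hw hs).2 hy.lt).le, le_rfl⟩
        refine ((continuousWithinAt_edge hO hw hs y hmem').union
          (continuousWithinAt_edge hO hw hs x hmem)).mono_of_mem_nhdsWithin ?_
        rw [mem_nhdsWithin]
        refine ⟨Ioo (pos w y) (t + ε), isOpen_Ioo, ⟨?_, by linarith⟩, ?_⟩
        · rw [← h1']; exact (pos_lt_iff hw hs).2 hy.lt
        · rintro s ⟨⟨h3, h4⟩, h5⟩
          by_cases h6 : t ≤ s
          · exact Or.inr (hr s h5 h6 h4)
          · push Not at h6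
            left
            refine ⟨h3.le, ?_⟩
            rw [← hyx, h1']; exact h6.le
  · -- a gap
    have hpar := par_of_gap hO w hgap
    unfold ContinuousWithinAt
    rw [hpar, TopologicalSpace.tendsto_nhds_generateFrom_iff]
    rintro U (⟨v, r, hr, rfl⟩ | ⟨K, C, rfl⟩) hU
    · exact absurd hU not_mem_star
    · rw [en_mem_region, gapEnd_apply] at hU
      obtain ⟨a, ha, b, hb, hab⟩ := gapComp_spec hO _ hgap K
      rw [hU] at hab
      obtain ⟨a', ha', haa'⟩ := hgap.nomax a ha
      have h1 : pos w a < t := lt_of_lt_of_le ((pos_lt_iff hw hs).2 haa') ha'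
      have h2 : t < pos w b := by
        by_contra hcon
        push Not at hcon
        exact hb hcon
      have h3 : Ioo (pos w a) (pos w b) ∩ Icc 0 1 ∈ 𝓝[Icc 0 1] t := by
        rw [inter_comm]
        exact inter_mem_nhdsWithin _ (isOpen_Ioo.mem_nhds ⟨h1, h2⟩)
      refine Filter.mem_of_superset h3 ?_
      rintro s ⟨⟨h4, h5⟩, h6⟩
      show par hO w s ∈ regionSet H K C
      have has : a ∈ seg w s := h4.le
      have hbs : b ∉ seg w s := not_le.2 h5
      rcases seg_dichotomy hw hs h6.1 with ⟨x, hx⟩ | hgap'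
      · have hax : a ≤ x := hx.2 has
        have hxb : x < b := by
          by_contra hcon
          push Not at hcon
          exact hbs (((pos_strictMono hw hs).monotone hcon).trans hx.1)
        have hxC : x ∈ C := hab x hax hxb.le
        have hxt : x ≠ ⊤ := (lt_of_lt_of_le hxb le_top).ne
        have hc := covBy_nxt hO hxt
        have hnC : nxt hO x ∈ C := by
          apply hab _ (hax.trans hc.lt.le)
          by_contra hcon
          push Not at hcon
          exact hc.2 hxb hcon
        rw [par_of_greatest hO w hx]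
        refine pt_mem_region.2 ?_
        set τ := clip ((s - pos w x) / w x) with hτ
        by_cases hlt : τ < 1
        · refine ⟨x, hxC, ?_⟩
          show 0 < edgePt x (nxt hO x) τ x
          rw [edgePt_left hc.lt.ne]; linarith
        · refine ⟨nxt hO x, hnC, ?_⟩
          show 0 < edgePt x (nxt hO x) τ (nxt hO x)
          rw [edgePt_right hc.lt.ne]
          push Not at hlt
          linarith
      · rw [par_of_gap hO w hgap', en_mem_region, gapEnd_apply]
        exact gapComp_unique hO _ hgap' K has hbs hab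

omit hw hs in
lemma ept_inj {x y : V} {σ τ : ℝ} (h3 : ∃ a b c : V, a ≠ b ∧ b ≠ c ∧ a ≠ c)
    (hσ0 : 0 ≤ σ) (hσ : σ < 1) (hτ0 : 0 ≤ τ) (hτ : τ < 1) (h : ept hO x σ = ept hO y τ) :
    x = y ∧ σ = τ := by
  have h' : edgePt x (nxt hO x) σ = edgePt y (nxt hO y) τ := by
    have h0 : edgePt x (nxt hO x) (clip σ) = edgePt y (nxt hO y) (clip τ) :=
      congrArg (fun p => fun v => coord H v p) h
    rwa [clip_of_mem hσ0 hσ.le, clip_of_mem hτ0 hτ.le] at h0
  have nx : x ≠ nxt hO x := (adj_nxt hO x).ne
  have ny : y ≠ nxt hO y := (adj_nxt hO y).ne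
  by_cases hxy : x = y
  · subst hxy
    refine ⟨rfl, ?_⟩
    have := congrFun h' (nxt hO x)
    rwa [edgePt_right nx, edgePt_right nx] at this
  · exfalso
    have h1 := congrFun h' x
    rw [edgePt_left nx] at h1
    have hx : x = nxt hO y := by
      by_contra hcon
      rw [edgePt_other hxy hcon] at h1
      linarith
    have h2 := congrFun h' y
    rw [edgePt_left ny] at h2
    have hy : y = nxt hO x := by
      by_contra hcon
      rw [edgePt_other (Ne.symm hxy) hcon] at h2
      linarith
    -- the order has only two elements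
    have key : ∀ x y : V, x ≠ y → x = nxt hO y → y = nxt hO x → x = ⊤ → False := by
      intro x y hxy hx hy hxt
      subst hxt
      rw [nxt_top] at hy
      subst hy
      have hc : (⊥ : V) ⋖ nxt hO ⊥ := covBy_nxt hO (Ne.symm hxy)
      rw [← hx] at hc
      obtain ⟨a, b, c, hab, hbc, hac⟩ := h3
      have hall : ∀ z : V, z = ⊥ ∨ z = ⊤ := by
        intro z
        by_contra hcon
        push Not at hcon
        exact hc.2 (bot_lt_iff_ne_bot.2 hcon.1) (lt_top_iff_ne_top.2 hcon.2)
      rcases hall a with ha | ha <;> rcases hall b with hb | hb <;>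
        rcases hall c with hc' | hc' <;>
        first
          | exact hab (ha.trans hb.symm)
          | exact hbc (hb.trans hc'.symm)
          | exact hac (ha.trans hc'.symm)
    by_cases hxt : x = ⊤
    · exact key x y hxy hx hy hxt
    · by_cases hyt : y = ⊤
      · exact key y x (Ne.symm hxy) hy hx hyt
      · have c1 := (covBy_nxt hO hxt).lt
        have c2 := (covBy_nxt hO hyt).lt
        rw [← hy] at c1
        rw [← hx] at c2
        exact absurd (c1.trans c2) (lt_irrefl _)

lemma par_injOn (h3 : ∃ a b c : V, a ≠ b ∧ b ≠ c ∧ a ≠ c) :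
    InjOn (par hO w) (Ico 0 1) := by
  have hlt : ∀ {t : ℝ} {x : V}, t ∈ Ico (0:ℝ) 1 → IsGreatest (seg w t) x →
      0 ≤ (t - pos w x) / w x ∧ (t - pos w x) / w x < 1 := by
    intro t x ht hx
    have hwx := hw x
    have h1 : pos w x ≤ t := hx.1
    refine ⟨div_nonneg (by linarith) hwx.le, ?_⟩
    rw [div_lt_one hwx]
    by_cases hxt : x = ⊤
    · subst hxt
      have := pos_top hw hs (V := V)
      have := ht.2
      linarith
    · by_contra hcon
      push Not at hcon
      have hc := covBy_nxt hO hxt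
      have := pos_succ hw hs hc
      have h3 : nxt hO x ∈ seg w t := by
        show pos w _ ≤ t
        rw [this]; linarith
      exact absurd (hx.2 h3) (not_le.2 hc.lt)
  intro s hs' t ht heq
  rcases seg_dichotomy hw hs hs'.1 with ⟨x, hx⟩ | hg <;>
    rcases seg_dichotomy hw hs ht.1 with ⟨y, hy⟩ | hg'
  · rw [par_of_greatest hO w hx, par_of_greatest hO w hy] at heq
    obtain ⟨a1, a2⟩ := hlt hs' hx
    obtain ⟨b1, b2⟩ := hlt ht hy
    obtain ⟨e1, e2⟩ := ept_inj hO h3 a1 a2 b1 b2 heq
    subst e1
    have hwx := (hw x).ne'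
    have := congrArg (· * w x) e2
    simp only [div_mul_cancel₀ _ hwx] at this
    linarith
  · rw [par_of_greatest hO w hx, par_of_gap hO w hg'] at heq
    cases heq
  · rw [par_of_greatest hO w hy, par_of_gap hO w hg] at heq
    cases heq
  · rw [par_of_gap hO w hg, par_of_gap hO w hg'] at heq
    have heq' : gapEnd hO _ hg = gapEnd hO _ hg' := by injection heq
    by_cases hseg : seg w s = seg w t
    · have u1 : ∀ a ∈ seg w s, pos w a ≤ s := fun a ha => ha
      have u2 : ∀ b, b ∉ seg w s → s < pos w b := fun b hb => not_le.1 hb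
      have v1 : ∀ a ∈ seg w s, pos w a ≤ t := by rw [hseg]; exact fun a ha => ha
      have v2 : ∀ b, b ∉ seg w s → t < pos w b := by rw [hseg]; exact fun b hb => not_le.1 hb
      exact le_antisymm (gap_unique hw hs hg v1 u2) (gap_unique hw hs hg u1 v2)
    · exfalso
      obtain ⟨K, C, C', hne, ⟨a, ha, b, hb, hab⟩, a', ha', b', hb', hab'⟩ :=
        hO.sep _ _ hg hg' hseg
      have e1 := gapComp_unique hO _ hg K ha hb hab
      have e2 := gapComp_unique hO _ hg' K ha' hb' hab'
      apply hne
      rw [← e1, ← e2, ← gapEnd_apply, ← gapEnd_apply, heq']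

omit hw hs in
/-- **Criterion**: a circular order gives a Hamilton circle. -/
theorem hasHamiltonCircle [Countable V] (hlf : ∀ v, (H.neighborSet v).Finite)
    (h3 : ∃ a b c : V, a ≠ b ∧ b ≠ c ∧ a ≠ c) (hO : CircOrder H) : HasHamiltonCircle H := by
  have : Nonempty V := ⟨⊥⟩
  obtain ⟨w, hw, hs⟩ := exists_weights V
  have := t2Space_FC hlf
  have h01 : par hO w 0 = par hO w 1 := by
    have e1 : IsGreatest (seg w (0:ℝ)) (⊥ : V) := by
      apply isGreatest_of_mem hw hs
      · rw [pos_bot]
      · rw [pos_bot]; have := hw ⊥; linarith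
    have e2 : par hO w 1 = ept hO ⊤ 1 := by
      have h4 := pos_top hw hs (V := V)
      have h5 := hw ⊤
      have := par_eq_on hO hw hs (t := 1) (x := ⊤) (by linarith) (by linarith)
      rw [this]
      have h6 : (1 - pos w (⊤ : V)) / w ⊤ = 1 := by
        have h7 : 1 - pos w (⊤ : V) = w ⊤ := by linarith
        rw [h7, div_self h5.ne']
      rw [h6]
    rw [e2, ept_one, nxt_top, par_of_greatest hO w e1, pos_bot, sub_self, zero_div, ept_zero]
  have : Fact ((0:ℝ) < 1) := ⟨one_pos⟩
  let F : AddCircle (1:ℝ) → FC H := AddCircle.liftIco 1 0 (par hO w)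
  have hFc : Continuous F := AddCircle.liftIco_zero_continuous h01 (par_continuousOn hO hw hs)
  have hFi : Function.Injective F := by
    intro a b hab
    obtain ⟨s, hs', rfl⟩ : ∃ s ∈ Ico (0:ℝ) 1, (s : AddCircle (1:ℝ)) = a := by
      have := (AddCircle.equivIco (1:ℝ) 0 a)
      refine ⟨(AddCircle.equivIco (1:ℝ) 0 a).1, by simpa using (AddCircle.equivIco (1:ℝ) 0 a).2, ?_⟩
      exact (AddCircle.equivIco (1:ℝ) 0).symm_apply_apply a
    obtain ⟨t, ht, rfl⟩ : ∃ s ∈ Ico (0:ℝ) 1, (s : AddCircle (1:ℝ)) = b := by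
      refine ⟨(AddCircle.equivIco (1:ℝ) 0 b).1, by simpa using (AddCircle.equivIco (1:ℝ) 0 b).2, ?_⟩
      exact (AddCircle.equivIco (1:ℝ) 0).symm_apply_apply b
    simp only [F] at hab
    rw [AddCircle.liftIco_zero_coe_apply hs', AddCircle.liftIco_zero_coe_apply ht] at hab
    rw [par_injOn hO hw hs h3 hs' ht hab]
  have hemb := hFc.isClosedEmbedding hFi
  refine ⟨range F, ⟨(hemb.isEmbedding.toHomeomorph).symm.trans
    (AddCircle.homeomorphCircle one_ne_zero)⟩, ?_⟩
  intro v
  have hv0 := pos_nonneg hw hs v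
  have hv1 : pos w v < 1 := by
    have := pos_add_le_one hw hs v
    have := hw v
    linarith
  refine ⟨((pos w v : ℝ) : AddCircle (1:ℝ)), ?_⟩
  simp only [F]
  rw [AddCircle.liftIco_zero_coe_apply ⟨hv0, hv1⟩]
  have hg : IsGreatest (seg w (pos w v)) v :=
    isGreatest_of_mem hw hs le_rfl (by have := hw v; linarith)
  rw [par_of_greatest hO w hg, sub_self, zero_div, ept_zero]

end param

end

end Pool.H66.HC
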