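import Pool.Agent.Helper66.HC.Def

open Set Topology

namespace Pool.H66.HC

universe u

variable {V : Type u} {H : SimpleGraph V}

lemma edgePt_left {a b : V} (h : a ≠ b) (t : ℝ) : edgePt a b t a = 1 - t := by
  simp [edgePt, h]

lemma edgePt_right {a b : V} (h : a ≠ b) (t : ℝ) : edgePt a b t b = t := by
  simp [edgePt, h.symm]

lemma edgePt_other {a b v : V} (ha : v ≠ a) (hb : v ≠ b) (t : ℝ) : edgePt a b t v = 0 := by
  simp [edgePt, ha, hb]

lemma edgePt_self (a : V) (t : ℝ) : edgePt a a t a = 1 := by
  simp [edgePt]

lemma edgePt_self_eq (a : V) (t s : ℝ) : edgePt a a t = edgePt a a s := by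
  funext v
  by_cases h : v = a
  · subst h; simp [edgePt]
  · simp [edgePt, h]

lemma edgePt_zero (a b : V) : edgePt a b 0 = edgePt a a 0 := by
  funext v
  simp [edgePt]

lemma edgePt_one (a b : V) : edgePt a b 1 = edgePt b b 0 := by
  funext v
  simp [edgePt]

lemma edgePt_nonneg {a b : V} {t : ℝ} (h0 : 0 ≤ t) (h1 : t ≤ 1) (v : V) : 0 ≤ edgePt a b t v := by
  unfold edgePt
  split_ifs <;> nlinarith

lemma Complex1.nonneg (x : Complex1 H) (v : V) : 0 ≤ x.1 v := by
  obtain ⟨x, a, b, t, hab, h0, h1, rfl⟩ := x
  exact edgePt_nonneg h0 h1 v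

/-- the sum of two coordinates is at most one -/
lemma Complex1.add_le (x : Complex1 H) {u v : V} (huv : u ≠ v) : x.1 u + x.1 v ≤ 1 := by
  obtain ⟨x, a, b, t, hab, h0, h1, rfl⟩ := x
  show edgePt a b t u + edgePt a b t v ≤ 1
  unfold edgePt
  split_ifs with h1 h2 h3 h4 h5 h6 h7 h8 <;> first | (exfalso; subst_vars; simp_all; done) | nlinarith

/-- the sum of three coordinates is at most one -/
lemma Complex1.add3_le (x : Complex1 H) {u v w : V} (huv : u ≠ v) (huw : u ≠ w) (hvw : v ≠ w) :
    x.1 u + x.1 v + x.1 w ≤ 1 := by
  obtain ⟨x, a, b, t, hab, h0, h1, rfl⟩ := x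
  show edgePt a b t u + edgePt a b t v + edgePt a b t w ≤ 1
  unfold edgePt
  split_ifs <;> first | (exfalso; subst_vars; simp_all; done) | nlinarith

/-- two vertices with positive coordinates are equal or adjacent -/
lemma Complex1.adj_of_pos (x : Complex1 H) {u v : V} (hu : 0 < x.1 u) (hv : 0 < x.1 v) :
    u = v ∨ H.Adj u v := by
  obtain ⟨x, a, b, t, hab, h0, h1, rfl⟩ := x
  change 0 < edgePt a b t u at hu
  change 0 < edgePt a b t v at hv
  have hu' : u = a ∨ u = b := by
    by_contra hcon
    push Not at hcon
    rw [edgePt_other hcon.1 hcon.2] at hu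
    exact lt_irrefl _ hu
  have hv' : v = a ∨ v = b := by
    by_contra hcon
    push Not at hcon
    rw [edgePt_other hcon.1 hcon.2] at hv
    exact lt_irrefl _ hv
  rcases hab with rfl | hab
  · left; rcases hu' with rfl | rfl <;> rcases hv' with rfl | rfl <;> rfl
  · rcases hu' with rfl | rfl <;> rcases hv' with rfl | rfl
    · exact Or.inl rfl
    · exact Or.inr hab
    · exact Or.inr hab.symm
    · exact Or.inl rfl

lemma isOpen_star (v : V) {r : ℝ} (hr : 0 ≤ r) : IsOpen (starSet H v r) :=
  TopologicalSpace.isOpen_generateFrom_of_mem (Or.inl ⟨v, r, hr, rfl⟩)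

lemma isOpen_region (K : Finset V) (C : H.ComponentCompl K) : IsOpen (regionSet H K C) :=
  TopologicalSpace.isOpen_generateFrom_of_mem (Or.inr ⟨K, C, rfl⟩)

open Classical in
/-- coordinate functions, extended by zero to the ends -/
noncomputable def coord (H : SimpleGraph V) (v : V) : FC H → ℝ
  | FC.pt x => x.1 v
  | FC.en _ => 0

@[simp] lemma coord_pt (v : V) (x : Complex1 H) : coord H v (FC.pt x) = x.1 v := rfl
@[simp] lemma coord_en (v : V) (ω : H.end) : coord H v (FC.en ω) = 0 := rfl

lemma mem_star {v : V} {r : ℝ} {x : Complex1 H} : FC.pt x ∈ starSet H v r ↔ r < x.1 v := by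
  constructor
  · rintro ⟨y, hy, h⟩
    cases hy; exact h
  · intro h; exact ⟨x, rfl, h⟩

lemma not_mem_star {v : V} {r : ℝ} {ω : H.end} : FC.en ω ∉ starSet H v r := by
  rintro ⟨y, hy, h⟩
  cases hy

lemma pt_mem_region {K : Finset V} {C : H.ComponentCompl K} {x : Complex1 H} :
    FC.pt x ∈ regionSet H K C ↔ ∃ v ∈ C, 0 < x.1 v := by
  constructor
  · rintro (⟨y, hy, h⟩ | ⟨y, hy, h⟩)
    · cases hy; exact h
    · cases hy
  · intro h; exact Or.inl ⟨x, rfl, h⟩

lemma en_mem_region {K : Finset V} {C : H.ComponentCompl K} {ω : H.end} :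
    FC.en ω ∈ regionSet H K C ↔ ω.1 (Opposite.op K) = C := by
  constructor
  · rintro (⟨y, hy, h⟩ | ⟨y, hy, h⟩)
    · cases hy
    · cases hy; exact h
  · intro h; exact Or.inr ⟨ω, rfl, h⟩

lemma isOpen_coord_lt (hlf : ∀ v, (H.neighborSet v).Finite) (v : V) {r : ℝ} (hr : 0 < r) :
    IsOpen {p | coord H v p < r} := by
  classical
  rw [isOpen_iff_forall_mem_open]
  intro p hp
  by_cases hr1 : 1 < r
  · refine ⟨univ, ?_, isOpen_univ, mem_univ _⟩
    intro q _
    show coord H v q < r
    cases q with
    | pt x =>
      have h1 : x.1 v ≤ 1 := by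
        obtain ⟨x, a, b, t, hab, h0, h1, rfl⟩ := x
        show edgePt a b t v ≤ 1
        unfold edgePt
        split_ifs <;> nlinarith
      simp only [coord_pt]; linarith
    | en ω => simp only [coord_en]; linarith
  push Not at hr1
  cases p with
  | pt x =>
    change x.1 v < r at hp
    obtain ⟨x, a, b, t, hab, h0, h1, rfl⟩ := x
    change edgePt a b t v < r at hp
    -- a general tool: one star around `u ≠ v`
    have key : ∀ u, u ≠ v → 1 - r < edgePt a b t u →
        ∃ t' ⊆ {p | coord H v p < r}, IsOpen t' ∧
          FC.pt ⟨edgePt a b t, a, b, t, hab, h0, h1, rfl⟩ ∈ t' := by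
      intro u huv hu
      refine ⟨starSet H u (1 - r), ?_, isOpen_star u (by linarith), mem_star.2 hu⟩
      intro q hq
      cases q with
      | pt y =>
        have := mem_star.1 hq
        have h2 := y.add_le huv
        show y.1 v < r
        linarith
      | en ω => exact absurd hq not_mem_star
    by_cases hva : v = a
    · by_cases hvb : v = b
      · exfalso
        subst hva; subst hvb
        rw [edgePt_self] at hp
        linarith
      · subst hva
        refine key b (Ne.symm hvb) ?_
        rw [edgePt_left hvb] at hp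
        rw [edgePt_right hvb]; linarith
    · by_cases hvb : v = b
      · subst hvb
        refine key a (Ne.symm hva) ?_
        rw [edgePt_right (Ne.symm hva)] at hp
        rw [edgePt_left (Ne.symm hva)]; linarith
      · by_cases hab' : a = b
        · subst hab'
          refine key a (Ne.symm hva) ?_
          rw [edgePt_self]; linarith
        · rcases h0.eq_or_lt with h0' | h0'
          · refine key a (Ne.symm hva) ?_
            rw [edgePt_left hab', ← h0']; linarith
          rcases h1.eq_or_lt with h1' | h1'
          · refine key b (Ne.symm hvb) ?_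
            rw [edgePt_right hab', h1']; linarith
          refine ⟨starSet H a (max 0 (1 - t - r / 2)) ∩ starSet H b (max 0 (t - r / 2)), ?_,
            (isOpen_star a (le_max_left _ _)).inter (isOpen_star b (le_max_left _ _)), ?_⟩
          · rintro q ⟨hqa, hqb⟩
            cases q with
            | pt y =>
              have h3 := mem_star.1 hqa
              have h4 := mem_star.1 hqb
              have h5 := y.add3_le hab' (Ne.symm hva) (Ne.symm hvb)
              have h6 := lt_of_le_of_lt (le_max_right _ _) h3
              have h7 := lt_of_le_of_lt (le_max_right _ _) h4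
              show y.1 v < r
              linarith
            | en ω => exact absurd hqa not_mem_star
          · refine ⟨mem_star.2 ?_, mem_star.2 ?_⟩
            · show max 0 (1 - t - r / 2) < edgePt a b t a
              rw [edgePt_left hab']
              exact max_lt (by linarith) (by linarith)
            · show max 0 (t - r / 2) < edgePt a b t b
              rw [edgePt_right hab']
              exact max_lt (by linarith) (by linarith)
  | en ω =>
    let K : Finset V := insert v (hlf v).toFinset
    refine ⟨regionSet H K (ω.1 (Opposite.op K)), ?_, isOpen_region _ _, en_mem_region.2 rfl⟩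
    intro q hq
    cases q with
    | pt y =>
      obtain ⟨c, hc, hpos⟩ := pt_mem_region.1 hq
      show y.1 v < r
      by_contra hcon
      push Not at hcon
      have hcK : c ∉ (K : Set V) := SimpleGraph.ComponentCompl.notMem_of_mem hc
      rcases y.adj_of_pos (lt_of_lt_of_le hr hcon) hpos with h | h
      · apply hcK; subst h; simp [K]
      · apply hcK
        simp only [K, Finset.coe_insert, Set.Finite.coe_toFinset]
        exact Or.inr h
    | en ω' => show (0:ℝ) < r; exact hr

lemma continuous_coord (hlf : ∀ v, (H.neighborSet v).Finite) (v : V) :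
    Continuous (coord H v) := by
  have hnn : ∀ p, 0 ≤ coord H v p := by
    intro p
    cases p with
    | pt x => exact x.nonneg v
    | en ω => exact le_rfl
  rw [OrderTopology.continuous_iff]
  intro r
  constructor
  · by_cases hr : 0 ≤ r
    · have : coord H v ⁻¹' Ioi r = starSet H v r := by
        ext p
        cases p with
        | pt x => exact mem_star.symm
        | en ω =>
          constructor
          · intro h
            exact absurd (show r < 0 from h) (not_lt.2 hr)
          · intro h; exact absurd h not_mem_star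
      rw [this]
      exact isOpen_star v hr
    · push Not at hr
      have : coord H v ⁻¹' Ioi r = univ := by
        ext p
        simp only [mem_preimage, mem_Ioi, mem_univ, iff_true]
        exact lt_of_lt_of_le hr (hnn p)
      rw [this]
      exact isOpen_univ
  · by_cases hr : 0 < r
    · exact isOpen_coord_lt hlf v hr
    · push Not at hr
      have : coord H v ⁻¹' Iio r = ∅ := by
        ext p
        simp only [mem_preimage, mem_Iio, mem_empty_iff_false, iff_false, not_lt]
        exact hr.trans (hnn p)
      rw [this]
      exact isOpen_empty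

lemma Complex1.exists_pos (x : Complex1 H) : ∃ v, 0 < x.1 v := by
  obtain ⟨x, a, b, t, hab, h0, h1, rfl⟩ := x
  by_cases h : a = b
  · subst h
    exact ⟨a, by show 0 < edgePt a a t a; rw [edgePt_self]; norm_num⟩
  · by_cases ht : t < 1
    · exact ⟨a, by show 0 < edgePt a b t a; rw [edgePt_left h]; linarith⟩
    · exact ⟨b, by show 0 < edgePt a b t b; rw [edgePt_right h]; linarith⟩

lemma t2Space_FC (hlf : ∀ v, (H.neighborSet v).Finite) : T2Space (FC H) := by
  have sep : ∀ p q : FC H, (∃ v, coord H v p ≠ coord H v q) →
      ∃ U V : Set (FC H), IsOpen U ∧ IsOpen V ∧ p ∈ U ∧ q ∈ V ∧ Disjoint U V := by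
    rintro p q ⟨v, hv⟩
    obtain ⟨U, W, hU, hW, hpU, hqW, hd⟩ := t2_separation hv
    exact ⟨coord H v ⁻¹' U, coord H v ⁻¹' W, hU.preimage (continuous_coord hlf v),
      hW.preimage (continuous_coord hlf v), hpU, hqW, hd.preimage _⟩
  refine ⟨fun p q hpq => ?_⟩
  cases p with
  | pt x =>
    cases q with
    | pt y =>
      apply sep
      by_contra hcon
      push Not at hcon
      apply hpq
      congr 1
      exact Subtype.ext (funext hcon)
    | en ω =>
      apply sep
      obtain ⟨v, hv⟩ := x.exists_pos
      exact ⟨v, by simpa using hv.ne'⟩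
  | en ω =>
    cases q with
    | pt y =>
      apply sep
      obtain ⟨v, hv⟩ := y.exists_pos
      exact ⟨v, by simpa using hv.ne⟩
    | en ω' =>
      have hne : ω ≠ ω' := fun h => hpq (by rw [h])
      have : ∃ K, ω.1 K ≠ ω'.1 K := by
        by_contra hcon
        push Not at hcon
        exact hne (Subtype.ext (funext hcon))
      obtain ⟨K, hK⟩ := this
      refine ⟨regionSet H K.unop (ω.1 K), regionSet H K.unop (ω'.1 K), isOpen_region _ _,
        isOpen_region _ _, en_mem_region.2 rfl, en_mem_region.2 rfl, ?_⟩
      rw [Set.disjoint_left]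
      intro p hp hp'
      cases p with
      | pt z =>
        obtain ⟨c, hc, hpos⟩ := pt_mem_region.1 hp
        obtain ⟨c', hc', hpos'⟩ := pt_mem_region.1 hp'
        apply hK
        have hcK := SimpleGraph.ComponentCompl.notMem_of_mem hc
        have hcK' := SimpleGraph.ComponentCompl.notMem_of_mem hc'
        obtain ⟨h1, h1'⟩ := hc
        obtain ⟨h2, h2'⟩ := hc'
        rw [← h1', ← h2']
        rcases z.adj_of_pos hpos hpos' with h | h
        · subst h; rfl
        · exact SimpleGraph.componentComplMk_eq_of_adj H hcK hcK' h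
      | en ω'' =>
        exact hK ((en_mem_region.1 hp).symm.trans (en_mem_region.1 hp'))

end Pool.H66.HC
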