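import Pool.Agent.Helper66.HC.Trail
import Pool.Agent.Helper66.HC.Param

/-! # The tree of nested closed trails -/

open Set

namespace Pool.H66.HC

universe u v

variable {V : Type u} {E : Type v}

section vxs

/-- vertices of a walk -/
def vxs : V → List (E × V) → ℕ → V
  | x, _, 0 => x
  | x, [], _ + 1 => x
  | _, (_, v) :: l, n + 1 => vxs v l n

variable {G : MG V E}

@[simp] lemma vxs_zero (x : V) (l : List (E × V)) : vxs x l 0 = x := by
  cases l <;> rfl

lemma vxs_length {x y : V} {l : List (E × V)} (h : IsWk G x l y) : vxs x l l.length = y := by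
  induction l generalizing x with
  | nil => exact h
  | cons a l ih =>
    obtain ⟨e, v⟩ := a
    exact ih h.2

lemma vxs_lk {x y : V} {l : List (E × V)} (h : IsWk G x l y) (i : ℕ) (hi : i < (eds l).length) :
    G.lk (eds l)[i] (vxs x l i) (vxs x l (i + 1)) := by
  induction l generalizing x i with
  | nil => simp at hi
  | cons a l ih =>
    obtain ⟨e, v⟩ := a
    cases i with
    | zero => simpa [vxs] using h.1
    | succ i =>
      have := ih h.2 i (by simpa using hi)
      simpa [vxs] using this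

lemma vxs_reach {x y : V} {l : List (E × V)} (h : IsWk G x l y) {D : Set E}
    (hD : ∀ a ∈ eds l, a ∈ D) (i : ℕ) : Reach G D x (vxs x l i) := by
  induction l generalizing x i with
  | nil => cases i <;> exact Reach.refl _
  | cons a l ih =>
    obtain ⟨e, v⟩ := a
    cases i with
    | zero => exact Reach.refl _
    | succ i =>
      have h1 := ih h.2 (fun a ha => hD a (by
        simp only [List.map_cons, List.mem_cons]; exact Or.inr ha)) i
      exact (Reach.of_lk h.1 (hD e (by simp))).trans h1

end vxs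

variable (G : MG V E)

/-- the edges of the component of `x` in `D` -/
def comp (D : Set E) (x : V) : Set E := {e | e ∈ D ∧ ∃ u v, G.lk e u v ∧ Reach G D x u}

/-- complement of a finite edge set -/
abbrev co (F : Finset E) : Set E := {e | e ∉ F}

/-- the component of a node -/
def dom (p : Finset E × V) : Set E := comp G (co p.1) p.2

/-- good nodes -/
structure Good (p : Finset E × V) : Prop where
  even : EvenCuts G (co p.1)
  ne : (dom G p).Nonempty

variable (idx : E → ℕ)

/-- specification of the closed trail of a node -/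
structure TrSpec (p : Finset E × V) (l : List (E × V)) : Prop where
  wk : IsWk G p.2 l p.2
  nd : (eds l).Nodup
  sub : ∀ a ∈ eds l, a ∉ p.1
  full : ∀ e, e ∉ p.1 → (∃ v, G.lk e p.2 v) → e ∈ eds l
  mn : ∃ e ∈ eds l, e ∈ dom G p ∧ ∀ e' ∈ dom G p, idx e ≤ idx e'

open Classical in
/-- the closed trail of a node -/
noncomputable def tr (p : Finset E × V) : List (E × V) :=
  if h : ∃ l, TrSpec G idx p l then h.choose else []

variable {G}

lemma comp_first {D : Set E} {x : V} (h : (comp G D x).Nonempty) : ∃ e ∈ D, ∃ v, G.lk e x v := by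
  obtain ⟨e, he, u, v, huv, l, hl, hl'⟩ := h
  cases l with
  | nil => cases hl; exact ⟨e, he, v, huv⟩
  | cons a l =>
    obtain ⟨f, w⟩ := a
    exact ⟨f, hl' f (by simp), w, hl.1⟩

lemma comp_step {D : Set E} {x : V} {e e' : E} (he : e ∈ comp G D x) (he' : e' ∈ D) {u v w : V}
    (h1 : G.lk e u v) (h2 : G.lk e' u w) : e' ∈ comp G D x := by
  obtain ⟨heD, a, b, hab, hr⟩ := he
  refine ⟨he', u, w, h2, ?_⟩
  rcases G.uniq h1 hab with ⟨rfl, rfl⟩ | ⟨rfl, rfl⟩
  · exact hr
  · exact hr.trans (Reach.of_lk hab heD)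

lemma comp_reach {D : Set E} {x : V} {e : E} (he : e ∈ comp G D x) {u v : V}
    (h1 : G.lk e u v) : Reach G D x u := by
  obtain ⟨heD, a, b, hab, hr⟩ := he
  rcases G.uniq h1 hab with ⟨rfl, rfl⟩ | ⟨rfl, rfl⟩
  · exact hr
  · exact hr.trans (Reach.of_lk hab heD)

variable {idx}

section

variable (hlf : ∀ x, {e | ∃ v, G.lk e x v}.Finite)

include hlf

lemma tr_spec {p : Finset E × V} (hp : Good G p) : TrSpec G idx p (tr G idx p) := by
  have hex : ∃ l, TrSpec G idx p l := by
    classical
    have h1 : ∃ n, ∃ e ∈ dom G p, idx e = n := by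
      obtain ⟨e, he⟩ := hp.ne
      exact ⟨_, e, he, rfl⟩
    obtain ⟨e, he, hen⟩ := Nat.find_spec h1
    have hmin : ∀ e' ∈ dom G p, idx e ≤ idx e' := by
      intro e' he'
      rw [hen]
      exact Nat.find_min' h1 ⟨e', he', rfl⟩
    obtain ⟨heD, u, v, huv, hr⟩ := id he
    obtain ⟨l, l1, l2, l3, l4⟩ := exists_closed_through hp.even heD huv hr
    obtain ⟨l', m1, m2, m3, m4, m5⟩ := exists_closed_full hp.even (hlf p.2) l1 l2 l3
    exact ⟨l', m1, m2, m3, fun e he hev => m5 e he hev, e, m4 e l4, he, hmin⟩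
  rw [tr, dif_pos hex]
  exact hex.choose_spec

end

variable (G idx)

/-- number of edges of the trail -/
noncomputable def len (p : Finset E × V) : ℕ := (tr G idx p).length

/-- vertices of the trail -/
noncomputable def vx (p : Finset E × V) (j : ℕ) : V := vxs p.2 (tr G idx p) j

open Classical in
/-- the removed edges after the node -/
noncomputable def nF (p : Finset E × V) : Finset E := p.1 ∪ (eds (tr G idx p)).toFinset

/-- the potential child at position `j` -/
noncomputable def kid (p : Finset E × V) (j : ℕ) : Finset E × V := (nF G idx p, vx G idx p (j + 1))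

/-- the child at position `j` exists -/
def IsKid (p : Finset E × V) (j : ℕ) : Prop :=
  j < len G idx p ∧ (dom G (kid G idx p j)).Nonempty ∧
    ∀ i < j, ¬ Reach G (co (nF G idx p)) (vx G idx p (i + 1)) (vx G idx p (j + 1))

/-- edges of the trail -/
noncomputable def ed [Nonempty E] (p : Finset E × V) (j : ℕ) : E :=
  (eds (tr G idx p)).getD j (Classical.arbitrary E)

variable {G idx}

lemma mem_nF {p : Finset E × V} {e : E} : e ∈ nF G idx p ↔ e ∈ p.1 ∨ e ∈ eds (tr G idx p) := by
  classical
  rw [nF, Finset.mem_union, List.mem_toFinset]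

lemma co_nF {p : Finset E × V} :
    co (nF G idx p) = co p.1 \ {e | e ∈ eds (tr G idx p)} := by
  ext e
  simp only [co, mem_ofPred_eq, mem_nF, mem_sdiff]
  tauto

section

variable (hlf : ∀ x, {e | ∃ v, G.lk e x v}.Finite)

include hlf

lemma kid_even {p : Finset E × V} (hp : Good G p) : EvenCuts G (co (nF G idx p)) := by
  have hs := tr_spec (idx := idx) hlf hp
  rw [co_nF]
  exact hp.even.sdiff hs.wk hs.nd hs.sub

lemma kid_good {p : Finset E × V} (hp : Good G p) {j : ℕ} (hj : IsKid G idx p j) :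
    Good G (kid G idx p j) := ⟨kid_even hlf hp, hj.2.1⟩

lemma len_pos {p : Finset E × V} (hp : Good G p) : 0 < len G idx p := by
  obtain ⟨e, he, -⟩ := (tr_spec (idx := idx) hlf hp).mn
  have : tr G idx p ≠ [] := by
    intro h
    rw [h] at he
    simp at he
  exact List.length_pos_iff.2 this

lemma vx_len {p : Finset E × V} (hp : Good G p) : vx G idx p (len G idx p) = p.2 :=
  vxs_length (tr_spec (idx := idx) hlf hp).wk

omit hlf in
lemma vx_zero (p : Finset E × V) : vx G idx p 0 = p.2 := vxs_zero _ _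

omit hlf in
lemma ed_mem [Nonempty E] {p : Finset E × V} {j : ℕ} (hj : j < len G idx p) :
    ed G idx p j ∈ eds (tr G idx p) := by
  have hj' : j < (eds (tr G idx p)).length := by rw [List.length_map]; exact hj
  rw [ed, List.getD_eq_getElem _ _ hj']
  exact List.getElem_mem hj'

lemma ed_lk [Nonempty E] {p : Finset E × V} (hp : Good G p) {j : ℕ} (hj : j < len G idx p) :
    G.lk (ed G idx p j) (vx G idx p j) (vx G idx p (j + 1)) := by
  have hj' : j < (eds (tr G idx p)).length := by rw [List.length_map]; exact hj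
  rw [ed, List.getD_eq_getElem _ _ hj']
  exact vxs_lk (tr_spec (idx := idx) hlf hp).wk j hj'

omit hlf in
lemma exists_ed [Nonempty E] {p : Finset E × V} {e : E} (he : e ∈ eds (tr G idx p)) :
    ∃ j < len G idx p, e = ed G idx p j := by
  obtain ⟨j, hj, rfl⟩ := List.getElem_of_mem he
  refine ⟨j, by rw [List.length_map] at hj; exact hj, ?_⟩
  rw [ed, List.getD_eq_getElem _ _ hj]

lemma ed_inj [Nonempty E] {p : Finset E × V} (hp : Good G p) {i j : ℕ} (hi : i < len G idx p)
    (hj : j < len G idx p) (h : ed G idx p i = ed G idx p j) : i = j := by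
  have hi' : i < (eds (tr G idx p)).length := by rw [List.length_map]; exact hi
  have hj' : j < (eds (tr G idx p)).length := by rw [List.length_map]; exact hj
  rw [ed, ed, List.getD_eq_getElem _ _ hi', List.getD_eq_getElem _ _ hj'] at h
  exact ((tr_spec (idx := idx) hlf hp).nd.getElem_inj_iff).1 h

lemma vx_reach {p : Finset E × V} (hp : Good G p) (i : ℕ) :
    Reach G (co p.1) p.2 (vx G idx p i) :=
  vxs_reach (tr_spec (idx := idx) hlf hp).wk (tr_spec (idx := idx) hlf hp).sub i

lemma tr_sub_dom {p : Finset E × V} (hp : Good G p) {e : E} (he : e ∈ eds (tr G idx p)) :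
    e ∈ dom G p := by
  have : Nonempty E := ⟨e⟩
  obtain ⟨j, hj, rfl⟩ := exists_ed he
  exact ⟨(tr_spec (idx := idx) hlf hp).sub _ he, _, _, ed_lk hlf hp hj, vx_reach hlf hp j⟩

lemma kid_lt {p : Finset E × V} (hp : Good G p) {j : ℕ} (hj : IsKid G idx p j) :
    j + 1 < len G idx p := by
  rcases lt_or_eq_of_le (Nat.succ_le_of_lt hj.1) with h | h
  · exact h
  · exfalso
    obtain ⟨e, he, v, hv⟩ := comp_first hj.2.1
    simp only [kid] at he hv
    rw [show j + 1 = len G idx p from h, vx_len hlf hp] at hv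
    apply he
    rw [mem_nF]
    by_cases hep : e ∈ p.1
    · exact Or.inl hep
    · exact Or.inr ((tr_spec (idx := idx) hlf hp).full e hep ⟨v, hv⟩)

lemma kid_dom_sub {p : Finset E × V} (hp : Good G p) {j : ℕ} :
    dom G (kid G idx p j) ⊆ dom G p := by
  rintro e ⟨he, u, v, huv, hr⟩
  simp only [kid] at he hr
  have hsub : co (nF G idx p) ⊆ co p.1 := by
    intro f hf hf'
    exact hf (mem_nF.2 (Or.inl hf'))
  exact ⟨hsub he, u, v, huv, (vx_reach hlf hp _).trans (hr.mono hsub)⟩

omit hlf in
lemma kid_dom_not_tr {p : Finset E × V} {j : ℕ} {e : E}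
    (he : e ∈ dom G (kid G idx p j)) : e ∉ eds (tr G idx p) := by
  intro h
  exact he.1 (mem_nF.2 (Or.inr h))

lemma reach_kid {p : Finset E × V} (hp : Good G p) {u : V} (hu : Reach G (co p.1) p.2 u) :
    ∃ j < len G idx p, Reach G (co (nF G idx p)) (vx G idx p (j + 1)) u := by
  -- reverse the walk
  have key : ∀ (l : List (E × V)) (x y : V), IsWk G x l y → (∀ a ∈ eds l, a ∈ co p.1) →
      (∃ j < len G idx p, Reach G (co (nF G idx p)) (vx G idx p (j + 1)) x) →
      ∃ j < len G idx p, Reach G (co (nF G idx p)) (vx G idx p (j + 1)) y := by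
    intro l
    induction l with
    | nil => intro x y h _ hx; cases h; exact hx
    | cons a l ih =>
      obtain ⟨e, w⟩ := a
      rintro x y ⟨h1, h2⟩ h3 ⟨j, hj, hjr⟩
      refine ih w y h2 (fun a ha => h3 a (by
        simp only [List.map_cons, List.mem_cons]; exact Or.inr ha)) ?_
      by_cases he : e ∈ eds (tr G idx p)
      · have : Nonempty E := ⟨e⟩
        obtain ⟨i, hi, rfl⟩ := exists_ed he
        have h4 := ed_lk hlf hp hi
        have hw : w = vx G idx p i ∨ w = vx G idx p (i + 1) := by
          rcases G.uniq h1 h4 with ⟨_, h⟩ | ⟨_, h⟩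
          · exact Or.inr h
          · exact Or.inl h
        rcases hw with rfl | rfl
        · cases i with
          | zero =>
            refine ⟨len G idx p - 1, by have := len_pos (idx := idx) hlf hp; omega, ?_⟩
            rw [Nat.sub_add_cancel (len_pos hlf hp), vx_len hlf hp, vx_zero]
            exact Reach.refl _
          | succ i => exact ⟨i, by omega, Reach.refl _⟩
        · exact ⟨i, hi, Reach.refl _⟩
      · refine ⟨j, hj, hjr.trans (Reach.of_lk h1 ?_)⟩
        rw [co_nF]
        exact ⟨h3 e (by simp), he⟩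
  obtain ⟨l, hl, hl'⟩ := hu
  refine key l p.2 u hl hl' ⟨len G idx p - 1, by have := len_pos (idx := idx) hlf hp; omega, ?_⟩
  rw [Nat.sub_add_cancel (len_pos hlf hp), vx_len hlf hp]
  exact Reach.refl _

lemma exists_kid {p : Finset E × V} (hp : Good G p) {e : E} (he : e ∈ dom G p)
    (he' : e ∉ eds (tr G idx p)) : ∃ j, IsKid G idx p j ∧ e ∈ dom G (kid G idx p j) := by
  classical
  have hmem : ∀ j, (∃ u v, G.lk e u v ∧ Reach G (co (nF G idx p)) (vx G idx p (j + 1)) u) →
      e ∈ dom G (kid G idx p j) := by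
    rintro j ⟨u, v, huv, hr⟩
    refine ⟨?_, u, v, huv, hr⟩
    simp only [kid]
    rw [co_nF]
    exact ⟨he.1, he'⟩
  have hex : ∃ j, j < len G idx p ∧ e ∈ dom G (kid G idx p j) := by
    obtain ⟨heD, u, v, huv, hr⟩ := id he
    obtain ⟨j, hj, hjr⟩ := reach_kid (idx := idx) hlf hp hr
    exact ⟨j, hj, hmem j ⟨u, v, huv, hjr⟩⟩
  obtain ⟨h1, h2⟩ := Nat.find_spec hex
  refine ⟨Nat.find hex, ⟨h1, ⟨e, h2⟩, ?_⟩, h2⟩
  intro i hi hr
  refine Nat.find_min hex hi ⟨by omega, ?_⟩
  obtain ⟨h3, u, v, huv, h4⟩ := h2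
  exact hmem i ⟨u, v, huv, hr.trans h4⟩

omit hlf in
lemma kid_uniq {p : Finset E × V} {i j : ℕ} (hi : IsKid G idx p i) (hj : IsKid G idx p j)
    {e : E} (h1 : e ∈ dom G (kid G idx p i)) (h2 : e ∈ dom G (kid G idx p j)) : i = j := by
  obtain ⟨u, v, huv⟩ := G.ex e
  have r1 : Reach G (co (nF G idx p)) (vx G idx p (i + 1)) u := comp_reach h1 huv
  have r2 : Reach G (co (nF G idx p)) (vx G idx p (j + 1)) u := comp_reach h2 huv
  rcases lt_trichotomy i j with h | h | h
  · exact absurd (r1.trans r2.symm) (hj.2.2 i h)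
  · exact h
  · exact absurd (r2.trans r1.symm) (hi.2.2 j h)

end

section addr

variable (G idx)

open Classical in
/-- the position of `e` in the node -/
noncomputable def code (p : Finset E × V) (e : E) : ℕ :=
  if e ∈ eds (tr G idx p) then 2 * (eds (tr G idx p)).idxOf e
  else if h : ∃ j, IsKid G idx p j ∧ e ∈ dom G (kid G idx p j) then 2 * h.choose + 1 else 0

open Classical in
/-- the next node of `e` -/
noncomputable def nx (p : Finset E × V) (e : E) : Finset E × V :=
  if h : ∃ j, IsKid G idx p j ∧ e ∈ dom G (kid G idx p j) then kid G idx p h.choose else p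

open Classical in
/-- the address of `e` below the node -/
noncomputable def addr : ℕ → (Finset E × V) → E → ℕ
  | 0, p, e => code G idx p e
  | n + 1, p, e => if e ∈ eds (tr G idx p) then 0 else addr n (nx G idx p e) e

variable {G idx}

section

variable (hlf : ∀ x, {e | ∃ v, G.lk e x v}.Finite)

include hlf

lemma code_ed [Nonempty E] {p : Finset E × V} (hp : Good G p) {j : ℕ} (hj : j < len G idx p) :
    code G idx p (ed G idx p j) = 2 * j := by
  classical
  rw [code, if_pos (ed_mem hj)]
  have hj' : j < (eds (tr G idx p)).length := by rw [List.length_map]; exact hj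
  rw [ed, List.getD_eq_getElem _ _ hj']
  congr 1
  convert (tr_spec (idx := idx) hlf hp).nd.idxOf_getElem j hj'

omit hlf in
lemma code_kid {p : Finset E × V} {j : ℕ} (hj : IsKid G idx p j) {e : E}
    (he : e ∈ dom G (kid G idx p j)) : code G idx p e = 2 * j + 1 := by
  have hex : ∃ j, IsKid G idx p j ∧ e ∈ dom G (kid G idx p j) := ⟨j, hj, he⟩
  rw [code, if_neg (kid_dom_not_tr he), dif_pos hex]
  rw [kid_uniq hex.choose_spec.1 hj hex.choose_spec.2 he]

omit hlf in
lemma nx_kid {p : Finset E × V} {j : ℕ} (hj : IsKid G idx p j) {e : E}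
    (he : e ∈ dom G (kid G idx p j)) : nx G idx p e = kid G idx p j := by
  have hex : ∃ j, IsKid G idx p j ∧ e ∈ dom G (kid G idx p j) := ⟨j, hj, he⟩
  rw [nx, dif_pos hex]
  rw [kid_uniq hex.choose_spec.1 hj hex.choose_spec.2 he]

omit hlf in
lemma addr_kid {p : Finset E × V} {j : ℕ} (hj : IsKid G idx p j) {e : E}
    (he : e ∈ dom G (kid G idx p j)) (n : ℕ) :
    addr G idx (n + 1) p e = addr G idx n (kid G idx p j) e := by
  rw [addr, if_neg (kid_dom_not_tr he), nx_kid hj he]

omit hlf in
lemma addr_tr {p : Finset E × V} {e : E} (he : e ∈ eds (tr G idx p)) (n : ℕ) :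
    addr G idx (n + 1) p e = 0 := by
  rw [addr, if_pos he]

lemma code_cases [Nonempty E] {p : Finset E × V} (hp : Good G p) {g : E} (hg : g ∈ dom G p) :
    (∃ j < len G idx p, g = ed G idx p j ∧ code G idx p g = 2 * j) ∨
    (∃ j, IsKid G idx p j ∧ j + 1 < len G idx p ∧ g ∈ dom G (kid G idx p j) ∧
      code G idx p g = 2 * j + 1) := by
  by_cases h : g ∈ eds (tr G idx p)
  · obtain ⟨j, hj, rfl⟩ := exists_ed h
    exact Or.inl ⟨j, hj, rfl, code_ed hlf hp hj⟩
  · obtain ⟨j, hj, hgj⟩ := exists_kid hlf hp hg h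
    exact Or.inr ⟨j, hj, kid_lt hlf hp hj, hgj, code_kid hj hgj⟩

end

variable (G idx)

/-- lexicographic order below a node -/
def Lt (p : Finset E × V) (e e' : E) : Prop :=
  ∃ n, (∀ i < n, addr G idx i p e = addr G idx i p e') ∧ addr G idx n p e < addr G idx n p e'

variable {G idx}

lemma Lt.of_code {p : Finset E × V} {e e' : E} (h : code G idx p e < code G idx p e') :
    Lt G idx p e e' := ⟨0, by simp, h⟩

lemma Lt.code_le {p : Finset E × V} {e e' : E} (h : Lt G idx p e e') :
    code G idx p e ≤ code G idx p e' := by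
  obtain ⟨n, h1, h2⟩ := h
  cases n with
  | zero => exact le_of_lt h2
  | succ n => exact (h1 0 (Nat.succ_pos _)).le

lemma Lt.irrefl {p : Finset E × V} {e : E} : ¬ Lt G idx p e e := by
  rintro ⟨n, _, h⟩
  exact lt_irrefl _ h

lemma Lt.asymm {p : Finset E × V} {e e' : E} (h : Lt G idx p e e') : ¬ Lt G idx p e' e := by
  rintro ⟨m, h3, h4⟩
  obtain ⟨n, h1, h2⟩ := h
  rcases lt_trichotomy n m with hnm | hnm | hnm
  · exact absurd h2 (h3 n hnm ▸ lt_irrefl _)
  · subst hnm; exact absurd (h2.trans h4) (lt_irrefl _)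
  · exact absurd h4 (h1 m hnm ▸ lt_irrefl _)

lemma lt_kid {p : Finset E × V} {j : ℕ} (hj : IsKid G idx p j) {e e' : E}
    (he : e ∈ dom G (kid G idx p j)) (he' : e' ∈ dom G (kid G idx p j)) :
    Lt G idx p e e' ↔ Lt G idx (kid G idx p j) e e' := by
  have hc : addr G idx 0 p e = addr G idx 0 p e' := by
    show code G idx p e = code G idx p e'
    rw [code_kid hj he, code_kid hj he']
  constructor
  · rintro ⟨n, h1, h2⟩
    cases n with
    | zero => rw [hc] at h2; exact absurd h2 (lt_irrefl _)
    | succ n =>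
      refine ⟨n, ?_, ?_⟩
      · intro i hi
        have := h1 (i + 1) (by omega)
        rwa [addr_kid hj he, addr_kid hj he'] at this
      · rwa [addr_kid hj he, addr_kid hj he'] at h2
  · rintro ⟨n, h1, h2⟩
    refine ⟨n + 1, ?_, ?_⟩
    · intro i hi
      cases i with
      | zero => exact hc
      | succ i =>
        rw [addr_kid hj he, addr_kid hj he']
        exact h1 i (by omega)
    · rwa [addr_kid hj he, addr_kid hj he']

section

variable (hidx : Function.Injective idx) (hlf : ∀ x, {e | ∃ v, G.lk e x v}.Finite)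

include hidx

omit hidx in
lemma fin_idx (hidx : Function.Injective idx) (S : Set E) (N : ℕ) :
    {g ∈ S | idx g ≤ N}.Finite := by
  refine Set.Finite.subset (Set.Finite.preimage (hidx.injOn) (Set.finite_Iic N)) ?_
  rintro g ⟨_, hg⟩
  exact hg

include hlf

/-- the measure decreases -/
lemma measure_lt {p : Finset E × V} (hp : Good G p) {j : ℕ}
    {N : ℕ} (hN : ∃ e ∈ dom G p, idx e ≤ N) :
    {g ∈ dom G (kid G idx p j) | idx g ≤ N}.ncard < {g ∈ dom G p | idx g ≤ N}.ncard := by
  apply Set.ncard_lt_ncard _ (fin_idx hidx _ _)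
  obtain ⟨e, he, heN⟩ := hN
  obtain ⟨m, hm, hmd, hmin⟩ := (tr_spec (idx := idx) hlf hp).mn
  refine ⟨?_, ?_⟩
  · rintro g ⟨hg, hgN⟩
    exact ⟨kid_dom_sub hlf hp hg, hgN⟩
  · intro hsub
    have := hsub (show m ∈ {g ∈ dom G p | idx g ≤ N} from ⟨hmd, (hmin e he).trans heN⟩)
    exact kid_dom_not_tr this.1 hm

theorem node_ind {P : (Finset E × V) → E → Prop}
    (h1 : ∀ p e, Good G p → e ∈ dom G p → e ∈ eds (tr G idx p) → P p e)
    (h2 : ∀ p e j, Good G p → IsKid G idx p j → e ∈ dom G (kid G idx p j) →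
      P (kid G idx p j) e → P p e) :
    ∀ p e, Good G p → e ∈ dom G p → P p e := by
  have key : ∀ n : ℕ, ∀ p e, Good G p → e ∈ dom G p →
      {g ∈ dom G p | idx g ≤ idx e}.ncard = n → P p e := by
    intro n
    induction n using Nat.strong_induction_on with
    | _ n ih =>
      intro p e hp he hn
      by_cases het : e ∈ eds (tr G idx p)
      · exact h1 p e hp he het
      · obtain ⟨j, hj, hje⟩ := exists_kid (idx := idx) hlf hp he het
        refine h2 p e j hp hj hje (ih _ ?_ _ e (kid_good hlf hp hj) hje rfl)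
        rw [← hn]
        exact measure_lt hidx hlf hp ⟨e, he, le_rfl⟩
  intro p e hp he
  exact key _ p e hp he rfl

lemma addr_inj [Nonempty E] : ∀ p e, Good G p → e ∈ dom G p →
    ∀ e' ∈ dom G p, (∀ n, addr G idx n p e = addr G idx n p e') → e = e' := by
  refine node_ind hidx hlf (P := fun p e => ∀ e' ∈ dom G p,
    (∀ n, addr G idx n p e = addr G idx n p e') → e = e') ?_ ?_
  · intro p e hp he het e' he' h
    obtain ⟨i, hi, rfl⟩ := exists_ed het
    have h0 : code G idx p (ed G idx p i) = code G idx p e' := h 0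
    rw [code_ed hlf hp hi] at h0
    rcases code_cases (idx := idx) hlf hp he' with ⟨j, hj, rfl, hc⟩ | ⟨j, hj, _, _, hc⟩
    · rw [hc] at h0
      have : i = j := by omega
      rw [this]
    · omega
  · intro p e j hp hj hje ih e' he' h
    have h0 : code G idx p e = code G idx p e' := h 0
    rw [code_kid hj hje] at h0
    rcases code_cases (idx := idx) hlf hp he' with ⟨i, hi, rfl, hc⟩ | ⟨i, hi, _, hie, hc⟩
    · omega
    · have : j = i := by omega
      subst this
      apply ih e' hie
      intro n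
      have := h (n + 1)
      rwa [addr_kid hj hje, addr_kid hj hie] at this

lemma Lt.total [Nonempty E] {p : Finset E × V} (hp : Good G p) {e e' : E} (he : e ∈ dom G p)
    (he' : e' ∈ dom G p) (hne : e ≠ e') : Lt G idx p e e' ∨ Lt G idx p e' e := by
  classical
  have hex : ∃ n, addr G idx n p e ≠ addr G idx n p e' := by
    by_contra hcon
    push Not at hcon
    exact hne (addr_inj hidx hlf p e hp he e' he' hcon)
  have h1 := Nat.find_spec hex
  have h2 : ∀ i < Nat.find hex, addr G idx i p e = addr G idx i p e' := by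
    intro i hi
    have := Nat.find_min hex hi
    push Not at this
    exact this
  rcases lt_or_gt_of_ne h1 with h | h
  · exact Or.inl ⟨_, h2, h⟩
  · exact Or.inr ⟨_, fun i hi => (h2 i hi).symm, h⟩

omit hidx in
lemma first_min [Nonempty E] {p : Finset E × V} (hp : Good G p) {g : E} (hg : g ∈ dom G p)
    (hne : g ≠ ed G idx p 0) : Lt G idx p (ed G idx p 0) g := by
  have hl := len_pos (idx := idx) hlf hp
  apply Lt.of_code
  rw [code_ed hlf hp hl]
  rcases code_cases (idx := idx) hlf hp hg with ⟨j, hj, rfl, hc⟩ | ⟨j, hj, _, hjg, hc⟩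
  · rw [hc]
    have : j ≠ 0 := fun h => hne (by rw [h])
    omega
  · rw [hc]; omega

omit hidx in
lemma last_max [Nonempty E] {p : Finset E × V} (hp : Good G p) {g : E} (hg : g ∈ dom G p)
    (hne : g ≠ ed G idx p (len G idx p - 1)) :
    Lt G idx p g (ed G idx p (len G idx p - 1)) := by
  have hl := len_pos (idx := idx) hlf hp
  apply Lt.of_code
  rw [code_ed hlf hp (show len G idx p - 1 < len G idx p by omega)]
  rcases code_cases (idx := idx) hlf hp hg with ⟨j, hj, rfl, hc⟩ | ⟨j, hj, hj1, hjg, hc⟩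
  · rw [hc]
    have : j ≠ len G idx p - 1 := fun h => hne (by rw [h])
    omega
  · rw [hc]; omega

end

end addr

end Pool.H66.HC
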