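import Mathlib

/-! # Trails in multigraphs with even finite cuts -/

open Set

namespace Pool.H66.HC

universe u v

/-- A multigraph (loops allowed) given by its link relation. -/
structure MG (V : Type u) (E : Type v) where
  lk : E → V → V → Prop
  symm : ∀ {e u v}, lk e u v → lk e v u
  uniq : ∀ {e u v u' v'}, lk e u v → lk e u' v' → (u = u' ∧ v = v') ∨ (u = v' ∧ v = u')
  ex : ∀ e, ∃ u v, lk e u v

variable {V : Type u} {E : Type v} (G : MG V E)

/-- `l` is a walk from `x` to `y`; an entry `(e, v)` means: go along `e` to the vertex `v`. -/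
def IsWk : V → List (E × V) → V → Prop
  | x, [], y => x = y
  | x, (e, v) :: l, y => G.lk e x v ∧ IsWk v l y

@[simp] lemma isWk_nil {x y : V} : IsWk G x [] y ↔ x = y := Iff.rfl
@[simp] lemma isWk_cons {x y v : V} {e : E} {l : List (E × V)} :
    IsWk G x ((e, v) :: l) y ↔ G.lk e x v ∧ IsWk G v l y := Iff.rfl

lemma isWk_append {x y : V} {l₁ l₂ : List (E × V)} :
    IsWk G x (l₁ ++ l₂) y ↔ ∃ z, IsWk G x l₁ z ∧ IsWk G z l₂ y := by
  induction l₁ generalizing x with
  | nil => simp
  | cons a l ih =>
    obtain ⟨e, v⟩ := a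
    simp only [List.cons_append, isWk_cons, ih]
    constructor
    · rintro ⟨h1, z, h2, h3⟩; exact ⟨z, ⟨h1, h2⟩, h3⟩
    · rintro ⟨z, ⟨h1, h2⟩, h3⟩; exact ⟨h1, z, h2, h3⟩

/-- the edges of a walk -/
abbrev eds (l : List (E × V)) : List E := l.map Prod.fst

/-- `y` is reachable from `x` with edges in `D` -/
def Reach (D : Set E) (x y : V) : Prop := ∃ l, IsWk G x l y ∧ ∀ a ∈ eds l, a ∈ D

variable {G}

lemma Reach.refl {D : Set E} (x : V) : Reach G D x x := ⟨[], rfl, by simp⟩

lemma Reach.trans {D : Set E} {x y z : V} (h1 : Reach G D x y) (h2 : Reach G D y z) :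
    Reach G D x z := by
  obtain ⟨l, hl, hl'⟩ := h1
  obtain ⟨m, hm, hm'⟩ := h2
  refine ⟨l ++ m, (isWk_append G).2 ⟨y, hl, hm⟩, ?_⟩
  intro a ha
  rw [eds, List.map_append, List.mem_append] at ha
  exact ha.elim (hl' a) (hm' a)

lemma Reach.of_lk {D : Set E} {x y : V} {e : E} (h : G.lk e x y) (he : e ∈ D) :
    Reach G D x y := ⟨[(e, y)], ⟨h, rfl⟩, by simpa using he⟩

lemma Reach.symm {D : Set E} {x y : V} (h : Reach G D x y) : Reach G D y x := by
  obtain ⟨l, hl, hl'⟩ := h
  induction l generalizing x with
  | nil => cases hl; exact Reach.refl _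
  | cons a l ih =>
    obtain ⟨e, v⟩ := a
    obtain ⟨h1, h2⟩ := hl
    have h3 := ih h2 (fun a ha => hl' a (by simp only [List.map_cons, List.mem_cons]; exact Or.inr ha))
    exact h3.trans (Reach.of_lk (G.symm h1) (hl' e (by simp)))

lemma Reach.mono {D D' : Set E} (h : D ⊆ D') {x y : V} (hr : Reach G D x y) : Reach G D' x y := by
  obtain ⟨l, hl, hl'⟩ := hr
  exact ⟨l, hl, fun a ha => h (hl' a ha)⟩

/-- an occurrence of an edge in a walk splits the walk -/
lemma split_at {x y : V} {l : List (E × V)} (h : IsWk G x l y) {e : E} (he : e ∈ eds l) :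
    ∃ l₁ w l₂ u, l = l₁ ++ (e, w) :: l₂ ∧ IsWk G x l₁ u ∧ G.lk e u w ∧ IsWk G w l₂ y := by
  rw [eds, List.mem_map] at he
  obtain ⟨⟨e', w⟩, hmem, rfl⟩ := he
  obtain ⟨l₁, l₂, rfl⟩ := List.append_of_mem hmem
  obtain ⟨u, h1, h2, h3⟩ := (isWk_append G).1 h
  exact ⟨l₁, w, l₂, u, rfl, h1, h2, h3⟩

/-- every walk contains a trail with the same end vertices -/
lemma exists_trail {x y : V} {l : List (E × V)} (h : IsWk G x l y) :
    ∃ l', IsWk G x l' y ∧ (eds l').Nodup ∧ ∀ a ∈ eds l', a ∈ eds l := by
  induction l generalizing x with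
  | nil => exact ⟨[], h, by simp, by simp⟩
  | cons a l ih =>
    obtain ⟨e, v⟩ := a
    obtain ⟨h1, h2⟩ := h
    obtain ⟨l', h3, h4, h5⟩ := ih h2
    by_cases he : e ∈ eds l'
    · obtain ⟨l₁, w, l₂, u, rfl, h6, h7, h8⟩ := split_at h3 he
      have hsub : ∀ a ∈ eds l₂, a ∈ eds l := by
        intro a ha
        apply h5
        simp only [List.map_append, List.map_cons, List.mem_append, List.mem_cons]
        exact Or.inr (Or.inr ha)
      have hnd : (e :: eds l₂).Nodup := by
        have h9 : (eds l₁ ++ (e :: eds l₂)).Nodup := by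
          simpa only [eds, List.map_append, List.map_cons] using h4
        exact h9.of_append_right
      rcases G.uniq h1 h7 with ⟨rfl, rfl⟩ | ⟨rfl, rfl⟩
      · refine ⟨(e, v) :: l₂, ⟨h1, h8⟩, hnd, ?_⟩
        intro a ha
        simp only [List.map_cons, List.mem_cons] at ha ⊢
        rcases ha with rfl | ha
        · exact Or.inl rfl
        · exact Or.inr (hsub a ha)
      · refine ⟨l₂, h8, hnd.of_cons, ?_⟩
        intro a ha
        simp only [List.map_cons, List.mem_cons]
        exact Or.inr (hsub a ha)
    · refine ⟨(e, v) :: l', ⟨h1, h3⟩, ?_, ?_⟩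
      · rw [eds, List.map_cons, List.nodup_cons]
        exact ⟨he, h4⟩
      · intro a ha
        simp only [List.map_cons, List.mem_cons] at ha ⊢
        rcases ha with rfl | ha
        · exact Or.inl rfl
        · exact Or.inr (h5 a ha)

variable (G)

/-- `e` joins `X` to its complement -/
def Cross (X : Set V) (e : E) : Prop := ∃ u ∈ X, ∃ v, v ∉ X ∧ G.lk e u v

variable {G}

lemma cross_iff {X : Set V} {e : E} {u v : V} (h : G.lk e u v) :
    Cross G X e ↔ ¬ (u ∈ X ↔ v ∈ X) := by
  constructor
  · rintro ⟨a, ha, b, hb, hab⟩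
    rcases G.uniq h hab with ⟨rfl, rfl⟩ | ⟨rfl, rfl⟩ <;> tauto
  · intro hne
    by_cases hu : u ∈ X
    · exact ⟨u, hu, v, by tauto, h⟩
    · exact ⟨v, by tauto, u, hu, G.symm h⟩

open Classical in
lemma parity_wk {X : Set V} {x y : V} {l : List (E × V)} (h : IsWk G x l y) :
    Even ((eds l).filter (fun e => Cross G X e)).length ↔ (x ∈ X ↔ y ∈ X) := by
  induction l generalizing x with
  | nil => cases h; simp
  | cons a l ih =>
    obtain ⟨e, v⟩ := a
    obtain ⟨h1, h2⟩ := h
    have h3 := ih h2
    simp only [List.map_cons, List.filter_cons]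
    by_cases hc : Cross G X e
    · simp only [hc, decide_true, if_true, List.length_cons, Nat.even_add_one]
      have h4 := (cross_iff h1).1 hc
      rw [show (¬ Even ((eds l).filter (fun e => Cross G X e)).length) ↔ ¬ (v ∈ X ↔ y ∈ X) from
        not_congr h3]
      tauto
    · simp only [hc, decide_false, Bool.false_eq_true, if_false]
      have h4 := (not_congr (cross_iff h1)).1 hc
      rw [show Even ((eds l).filter (fun e => Cross G X e)).length ↔ (v ∈ X ↔ y ∈ X) from h3]
      tauto

variable (G)

/-- all finite cuts of the edge set `D` are even -/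
def EvenCuts (D : Set E) : Prop :=
  ∀ X : Set V, {e ∈ D | Cross G X e}.Finite → Even {e ∈ D | Cross G X e}.ncard

variable {G}

open Classical in
lemma even_closed {x : V} {l : List (E × V)} (h : IsWk G x l x) (hn : (eds l).Nodup)
    (X : Set V) : Even {e | e ∈ eds l ∧ Cross G X e}.ncard := by
  have h1 : {e | e ∈ eds l ∧ Cross G X e}
      = (((eds l).filter (fun e => Cross G X e)).toFinset : Set E) := by
    ext e; simp
  rw [h1, Set.ncard_coe_finset, List.toFinset_card_of_nodup (hn.filter _)]
  exact (parity_wk h).2 Iff.rfl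

lemma EvenCuts.sdiff {D : Set E} (hD : EvenCuts G D) {x : V} {l : List (E × V)}
    (h : IsWk G x l x) (hn : (eds l).Nodup) (hl : ∀ a ∈ eds l, a ∈ D) :
    EvenCuts G (D \ {e | e ∈ eds l}) := by
  intro X hfin
  have hunion : {e ∈ D | Cross G X e}
      = {e ∈ D \ {e | e ∈ eds l} | Cross G X e} ∪ {e | e ∈ eds l ∧ Cross G X e} := by
    ext e
    simp only [mem_ofPred_eq, mem_union, mem_sdiff]
    constructor
    · rintro ⟨h1, h2⟩
      by_cases he : e ∈ eds l
      · exact Or.inr ⟨he, h2⟩
      · exact Or.inl ⟨⟨h1, he⟩, h2⟩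
    · rintro (⟨⟨h1, h2⟩, h3⟩ | ⟨h1, h2⟩)
      · exact ⟨h1, h3⟩
      · exact ⟨hl e h1, h2⟩
  have hfin2 : {e | e ∈ eds l ∧ Cross G X e}.Finite :=
    ((eds l).finite_toSet).subset (fun e he => he.1)
  have hdisj : Disjoint {e ∈ D \ {e | e ∈ eds l} | Cross G X e}
      {e | e ∈ eds l ∧ Cross G X e} := by
    rw [Set.disjoint_left]
    rintro e ⟨⟨_, h2⟩, _⟩ ⟨h4, _⟩
    exact h2 h4
  have h1 := hD X (by rw [hunion]; exact hfin.union hfin2)
  rw [hunion, Set.ncard_union_eq hdisj hfin hfin2, Nat.even_add] at h1
  exact h1.2 (even_closed h hn X)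

/-- no bridges: an edge of a set with even finite cuts lies on a closed trail -/
lemma exists_closed_of_edge {D : Set E} (hD : EvenCuts G D) {f : E} (hf : f ∈ D) {u v : V}
    (huv : G.lk f u v) :
    ∃ l, IsWk G u l u ∧ (eds l).Nodup ∧ (∀ a ∈ eds l, a ∈ D) ∧ f ∈ eds l := by
  by_cases hr : Reach G (D \ {f}) v u
  · obtain ⟨l, hl, hl'⟩ := hr
    obtain ⟨l', h1, h2, h3⟩ := exists_trail hl
    refine ⟨(f, v) :: l', ⟨huv, h1⟩, ?_, ?_, by simp⟩
    · rw [eds, List.map_cons, List.nodup_cons]
      refine ⟨fun hmem => ?_, h2⟩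
      exact (hl' f (h3 f hmem)).2 rfl
    · intro a ha
      simp only [List.map_cons, List.mem_cons] at ha
      rcases ha with rfl | ha
      · exact hf
      · exact (hl' a (h3 a ha)).1
  · exfalso
    let X : Set V := {y | Reach G (D \ {f}) v y}
    have hX : {e ∈ D | Cross G X e} = {f} := by
      ext e
      simp only [mem_ofPred_eq, mem_singleton_iff]
      constructor
      · rintro ⟨he, a, ha, b, hb, hab⟩
        by_contra hne
        exact hb (Reach.trans ha (Reach.of_lk hab ⟨he, hne⟩))
      · rintro rfl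
        exact ⟨hf, v, Reach.refl v, u, hr, G.symm huv⟩
    have h1 := hD X (by rw [hX]; exact finite_singleton f)
    rw [hX, ncard_singleton] at h1
    exact absurd h1 (by decide)

lemma nodup_append_of {l₁ l₂ : List (E × V)} (h1 : (eds l₁).Nodup) (h2 : (eds l₂).Nodup)
    (h : ∀ a ∈ eds l₁, a ∉ eds l₂) : (eds (l₁ ++ l₂)).Nodup := by
  rw [eds, List.map_append, List.nodup_append]
  refine ⟨h1, h2, ?_⟩
  intro a ha b hb hab
  subst hab
  exact h a ha hb

/-- a closed trail through a given vertex and a given edge of the same component -/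
lemma exists_closed_through {D : Set E} (hD : EvenCuts G D) {e : E} (he : e ∈ D) {u v : V}
    (huv : G.lk e u v) {x : V} (hx : Reach G D x u) :
    ∃ l, IsWk G x l x ∧ (eds l).Nodup ∧ (∀ a ∈ eds l, a ∈ D) ∧ e ∈ eds l := by
  obtain ⟨p, hp, hp'⟩ := hx
  induction p generalizing x with
  | nil => cases hp; exact exists_closed_of_edge hD he huv
  | cons a p ih =>
    obtain ⟨f, y⟩ := a
    obtain ⟨h1, h2⟩ := hp
    have hfD : f ∈ D := hp' f (by simp)
    obtain ⟨l, h3, h4, h5, h6⟩ := ih h2
      (fun a ha => hp' a (by simp only [List.map_cons, List.mem_cons]; exact Or.inr ha))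
    by_cases hf : f ∈ eds l
    · -- `x` lies on the closed trail `l`
      obtain ⟨l₁, w, l₂, z, rfl, h7, h8, h9⟩ := split_at h3 hf
      have hmem : ∀ a, a ∈ eds (l₁ ++ (f, w) :: l₂) ↔ a ∈ eds l₁ ∨ a = f ∨ a ∈ eds l₂ := by
        intro a; simp only [List.map_append, List.map_cons, List.mem_append, List.mem_cons]
      have hnd : (eds l₁ ++ (f :: eds l₂)).Nodup := by
        simpa only [eds, List.map_append, List.map_cons] using h4
      rcases G.uniq h1 h8 with ⟨rfl, rfl⟩ | ⟨rfl, rfl⟩
      · -- x = z
        refine ⟨((f, y) :: l₂) ++ l₁, (isWk_append G).2 ⟨y, ⟨h1, h9⟩, h7⟩, ?_, ?_, ?_⟩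
        · have := List.nodup_append_comm.1 hnd
          simpa only [eds, List.map_append, List.map_cons] using this
        · intro a ha
          apply h5 a
          rw [hmem]
          simp only [List.map_append, List.map_cons, List.mem_append, List.mem_cons] at ha
          tauto
        · rw [hmem] at h6
          simp only [List.map_append, List.map_cons, List.mem_append, List.mem_cons]
          tauto
      · -- x = w, y = z
        refine ⟨l₂ ++ (l₁ ++ [(f, x)]), (isWk_append G).2 ⟨y, h9,
          (isWk_append G).2 ⟨y, h7, h8, rfl⟩⟩, ?_, ?_, ?_⟩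
        · have e1 : (eds l₂ ++ (eds l₁ ++ [f])).Nodup := by
            have h10 : ((eds l₁ ++ [f]) ++ eds l₂).Nodup := by
              rw [List.append_assoc]; exact hnd
            exact List.nodup_append_comm.1 h10
          simpa only [eds, List.map_append, List.map_cons, List.map_nil] using e1
        · intro a ha
          apply h5 a
          rw [hmem]
          simp only [List.map_append, List.map_cons, List.mem_append, List.mem_cons,
            List.map_nil, List.not_mem_nil, or_false] at ha
          tauto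
        · rw [hmem] at h6
          simp only [List.map_append, List.map_cons, List.mem_append, List.mem_cons,
            List.map_nil, List.not_mem_nil, or_false]
          tauto
    · -- splice
      have hD' := hD.sdiff h3 h4 h5
      obtain ⟨c, c1, c2, c3, c4⟩ := exists_closed_of_edge hD' ⟨hfD, hf⟩ h1
      obtain ⟨l₁, w, l₂, z, rfl, h7, h8, h9⟩ := split_at c1 c4
      have hmem : ∀ a, a ∈ eds (l₁ ++ (f, w) :: l₂) ↔ a ∈ eds l₁ ∨ a = f ∨ a ∈ eds l₂ := by
        intro a; simp only [List.map_append, List.map_cons, List.mem_append, List.mem_cons]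
      have hnd : (eds l₁ ++ (f :: eds l₂)).Nodup := by
        simpa only [eds, List.map_append, List.map_cons] using c2
      rcases G.uniq h1 h8 with ⟨rfl, rfl⟩ | ⟨rfl, rfl⟩
      · -- traversed from x to y
        refine ⟨(l₁ ++ [(f, y)]) ++ (l ++ l₂), ?_, ?_, ?_, ?_⟩
        · exact (isWk_append G).2 ⟨y, (isWk_append G).2 ⟨x, h7, h8, rfl⟩,
            (isWk_append G).2 ⟨y, h3, h9⟩⟩
        · have hperm : (eds ((l₁ ++ [(f, y)]) ++ (l ++ l₂))).Perm
              (eds (l₁ ++ (f, y) :: l₂) ++ eds l) := by
            simp only [eds, List.map_append, List.map_cons, List.map_nil, List.append_assoc,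
              List.cons_append, List.nil_append]
            refine List.Perm.append_left _ (List.Perm.cons _ ?_)
            exact List.perm_append_comm
          rw [hperm.nodup_iff, List.nodup_append]
          refine ⟨c2, h4, ?_⟩
          intro a ha b hb hab
          subst hab
          exact (c3 a ha).2 hb
        · intro a ha
          simp only [List.map_append, List.map_cons, List.mem_append, List.mem_cons,
            List.map_nil, List.not_mem_nil, or_false] at ha
          rcases ha with (ha | ha) | (ha | ha)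
          · exact (c3 a ((hmem a).2 (Or.inl ha))).1
          · exact ha ▸ hfD
          · exact h5 a ha
          · exact (c3 a ((hmem a).2 (Or.inr (Or.inr ha)))).1
        · simp only [List.map_append, List.map_cons, List.mem_append, List.mem_cons,
            List.map_nil, List.not_mem_nil, or_false]
          tauto
      · -- traversed from y to x
        refine ⟨l₁ ++ (l ++ ((f, x) :: l₂)), ?_, ?_, ?_, ?_⟩
        · exact (isWk_append G).2 ⟨y, h7, (isWk_append G).2 ⟨y, h3, h8, h9⟩⟩
        · have hperm : (eds (l₁ ++ (l ++ ((f, x) :: l₂)))).Perm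
              (eds (l₁ ++ (f, x) :: l₂) ++ eds l) := by
            simp only [eds, List.map_append, List.map_cons, List.append_assoc,
              List.cons_append]
            refine List.Perm.append_left _ ?_
            rw [← List.cons_append]
            exact List.perm_append_comm
          rw [hperm.nodup_iff, List.nodup_append]
          refine ⟨c2, h4, ?_⟩
          intro a ha b hb hab
          subst hab
          exact (c3 a ha).2 hb
        · intro a ha
          simp only [List.map_append, List.map_cons, List.mem_append, List.mem_cons] at ha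
          rcases ha with ha | (ha | (ha | ha))
          · exact (c3 a ((hmem a).2 (Or.inl ha))).1
          · exact h5 a ha
          · exact ha ▸ hfD
          · exact (c3 a ((hmem a).2 (Or.inr (Or.inr ha)))).1
        · simp only [List.map_append, List.map_cons, List.mem_append, List.mem_cons]
          tauto

/-- extend a closed trail such that it contains all edges of `D` at its base vertex -/
lemma exists_closed_full {D : Set E} (hD : EvenCuts G D) {x : V}
    (hfin : {e | ∃ v, G.lk e x v}.Finite) {l : List (E × V)} (h : IsWk G x l x)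
    (hn : (eds l).Nodup) (hl : ∀ a ∈ eds l, a ∈ D) :
    ∃ l', IsWk G x l' x ∧ (eds l').Nodup ∧ (∀ a ∈ eds l', a ∈ D) ∧ (∀ a ∈ eds l, a ∈ eds l') ∧
      ∀ e ∈ D, (∃ v, G.lk e x v) → e ∈ eds l' := by
  have key : ∀ n : ℕ, ∀ l : List (E × V), IsWk G x l x → (eds l).Nodup → (∀ a ∈ eds l, a ∈ D) →
      {e | (∃ v, G.lk e x v) ∧ e ∉ eds l}.ncard = n →
      ∃ l', IsWk G x l' x ∧ (eds l').Nodup ∧ (∀ a ∈ eds l', a ∈ D) ∧ (∀ a ∈ eds l, a ∈ eds l') ∧
      ∀ e ∈ D, (∃ v, G.lk e x v) → e ∈ eds l' := by
    intro n
    induction n using Nat.strong_induction_on with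
    | _ n ih =>
      intro l h hn hl hcard
      by_cases hall : ∀ e ∈ D, (∃ v, G.lk e x v) → e ∈ eds l
      · exact ⟨l, h, hn, hl, fun a ha => ha, hall⟩
      · push Not at hall
        obtain ⟨f, hfD, ⟨v, hv⟩, hfl⟩ := hall
        have hD' := hD.sdiff h hn hl
        obtain ⟨c, c1, c2, c3, c4⟩ := exists_closed_of_edge hD' ⟨hfD, hfl⟩ hv
        have hlt : {e | (∃ v, G.lk e x v) ∧ e ∉ eds (l ++ c)}.ncard < n := by
          rw [← hcard]
          apply Set.ncard_lt_ncard
          · refine ⟨?_, ?_⟩
            · rintro e ⟨he1, he2⟩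
              refine ⟨he1, fun he => he2 ?_⟩
              simp only [List.map_append, List.mem_append]
              exact Or.inl he
            · intro hsub
              have := hsub (show f ∈ {e | (∃ v, G.lk e x v) ∧ e ∉ eds l} from ⟨⟨v, hv⟩, hfl⟩)
              apply this.2
              simp only [List.map_append, List.mem_append]
              exact Or.inr c4
          · exact hfin.subset (fun e he => he.1)
        obtain ⟨l', g1, g2, g3, g4, g5⟩ := ih _ hlt (l ++ c) ((isWk_append G).2 ⟨x, h, c1⟩)
          (nodup_append_of hn c2 (fun a ha ha' => (c3 a ha').2 ha))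
          (by
            intro a ha
            simp only [List.map_append, List.mem_append] at ha
            rcases ha with ha | ha
            · exact hl a ha
            · exact (c3 a ha).1) rfl
        refine ⟨l', g1, g2, g3, fun a ha => g4 a ?_, g5⟩
        simp only [List.map_append, List.mem_append]
        exact Or.inl ha
  exact key _ l h hn hl rfl

end Pool.H66.HC
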