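import Pool.Agent.Helper66.HC.Topo

open Set Topology

namespace Pool.H66.HC

universe u

variable {V : Type u}

lemma exists_weights (V : Type u) [Countable V] [Nonempty V] :
    ∃ w : V → ℝ, (∀ v, 0 < w v) ∧ HasSum w 1 := by
  classical
  have := Encodable.ofCountable V
  obtain ⟨f, hf, c, hc, hc1⟩ := posSumOfEncodable (ε := 1) one_pos V
  have hcpos : 0 < c := by
    obtain ⟨v⟩ := ‹Nonempty V›
    exact lt_of_lt_of_le (hf v) (le_hasSum hc v (fun j _ => (hf j).le))
  refine ⟨fun v => f v / c, fun v => div_pos (hf v) hcpos, ?_⟩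
  have := hc.div_const c
  rwa [div_self hcpos.ne'] at this

section

variable (w : V → ℝ)

/-- total weight of a set -/
noncomputable def mu (S : Set V) : ℝ := ∑' y, S.indicator w y

variable {w} (hw : ∀ v, 0 < w v) (hs : HasSum w 1)

include hw hs

lemma summable_ind (S : Set V) : Summable (S.indicator w) := hs.summable.indicator S

omit hs in
lemma ind_nonneg (S : Set V) (v : V) : 0 ≤ S.indicator w v :=
  indicator_nonneg (fun v _ => (hw v).le) v

lemma mu_mono {S T : Set V} (h : S ⊆ T) : mu w S ≤ mu w T := by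
  refine Summable.tsum_le_tsum ?_ (summable_ind hw hs S) (summable_ind hw hs T)
  intro v
  exact indicator_le_indicator_of_subset h (fun v => (hw v).le) v

lemma mu_union {S T : Set V} (h : Disjoint S T) : mu w (S ∪ T) = mu w S + mu w T := by
  unfold mu
  rw [← Summable.tsum_add (summable_ind hw hs S) (summable_ind hw hs T)]
  congr 1
  funext v
  rw [indicator_union_of_disjoint h]

omit hs hw in
lemma mu_singleton (x : V) : mu w {x} = w x := by
  unfold mu
  rw [tsum_eq_single x]
  · simp
  · intro y hy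
    simp [hy]

omit hw in
lemma mu_univ : mu w univ = 1 := by
  unfold mu
  rw [indicator_univ]
  exact hs.tsum_eq

lemma mu_nonneg (S : Set V) : 0 ≤ mu w S := tsum_nonneg (ind_nonneg hw S)

lemma sum_le_mu (F : Finset V) (S : Set V) (h : ∀ x ∈ F, x ∈ S) : ∑ x ∈ F, w x ≤ mu w S := by
  have h1 : ∑ x ∈ F, w x = ∑ x ∈ F, S.indicator w x := by
    refine Finset.sum_congr rfl fun x hx => ?_
    rw [indicator_of_mem (h x hx)]
  rw [h1]
  exact (summable_ind hw hs S).sum_le_tsum F (fun v _ => ind_nonneg hw S v)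

variable [LinearOrder V]

omit hw hs in
/-- position of a vertex in the parametrization -/
noncomputable def pos (w : V → ℝ) (x : V) : ℝ := mu w (Iio x)

lemma pos_nonneg (x : V) : 0 ≤ pos w x := mu_nonneg hw hs _

lemma pos_add_eq (x : V) : pos w x + w x = mu w (Iic x) := by
  have : Iic x = Iio x ∪ {x} := by
    ext y; simp [le_iff_lt_or_eq]
  rw [this, mu_union hw hs (by simp), mu_singleton, pos]

lemma pos_add_le_one (x : V) : pos w x + w x ≤ 1 := by
  rw [pos_add_eq hw hs, ← mu_univ hs]
  exact mu_mono hw hs (subset_univ _)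

lemma pos_add_le_pos {x y : V} (h : x < y) : pos w x + w x ≤ pos w y := by
  rw [pos_add_eq hw hs]
  exact mu_mono hw hs (fun z hz => lt_of_le_of_lt hz h)

lemma pos_strictMono : StrictMono (pos w) := by
  intro x y h
  have := pos_add_le_pos hw hs h
  have := hw x
  linarith

lemma pos_le_iff {x y : V} : pos w x ≤ pos w y ↔ x ≤ y := (pos_strictMono hw hs).le_iff_le

lemma pos_lt_iff {x y : V} : pos w x < pos w y ↔ x < y := (pos_strictMono hw hs).lt_iff_lt

lemma pos_succ {x y : V} (h : x ⋖ y) : pos w y = pos w x + w x := by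
  rw [pos_add_eq hw hs, pos]
  congr 1
  ext z
  simp only [mem_Iio, mem_Iic]
  constructor
  · intro hz
    by_contra hcon
    push Not at hcon
    exact h.2 hcon hz
  · intro hz
    exact lt_of_le_of_lt hz h.1

omit hw hs in
lemma pos_bot [OrderBot V] : pos w (⊥ : V) = 0 := by
  have : Iio (⊥ : V) = ∅ := by
    ext z; simp
  rw [pos, this, mu]
  simp

lemma pos_top [OrderTop V] : pos w (⊤ : V) + w ⊤ = 1 := by
  rw [pos_add_eq hw hs, ← mu_univ hs]
  congr 1
  ext z; simp

lemma one_sub_pos (x : V) : 1 - pos w x = mu w (Ici x) := by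
  have h : (univ : Set V) = Iio x ∪ Ici x := by
    ext y; simp [lt_or_ge]
  have h2 := mu_union hw hs (S := Iio x) (T := Ici x)
    (by rw [Set.disjoint_left]; intro y hy hy'; exact absurd hy (not_lt.2 hy'))
  rw [← h, mu_univ hs] at h2
  rw [h2, pos]; ring

omit hw hs w in
/-- a proper gap of the linear order: a nonempty proper lower set without a maximum -/
structure Gap (A : Set V) : Prop where
  lower : ∀ a ∈ A, ∀ b ≤ a, b ∈ A
  ne : A.Nonempty
  cne : ∃ b, b ∉ A
  nomax : ∀ a ∈ A, ∃ a' ∈ A, a < a'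

omit hw hs w in
lemma Gap.lt {A : Set V} (hA : Gap A) {a b : V} (ha : a ∈ A) (hb : b ∉ A) : a < b := by
  by_contra hcon
  push Not at hcon
  exact hb (hA.lower a ha b hcon)

omit hw hs w in
/-- two gaps are comparable -/
lemma Gap.total {A B : Set V} (hA : Gap A) (hB : Gap B) : A ⊆ B ∨ B ⊆ A := by
  by_contra hcon
  push Not at hcon
  obtain ⟨h1, h2⟩ := hcon
  rw [Set.not_subset] at h1 h2
  obtain ⟨a, ha, ha'⟩ := h1
  obtain ⟨b, hb, hb'⟩ := h2
  have := hA.lt ha hb'
  have := hB.lt hb ha'
  exact absurd this (not_lt.2 (le_of_lt ‹a < b›))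

lemma gap_unique {A : Set V} (hA : Gap A) {s t : ℝ} (h1 : ∀ a ∈ A, pos w a ≤ s)
    (h2 : ∀ b, b ∉ A → t < pos w b) : t ≤ s := by
  classical
  by_contra hcon
  push Not at hcon
  have htends := hs
  have h3 : ∃ F : Finset V, 1 - (t - s) < ∑ x ∈ F, w x := by
    have h4 : ∀ᶠ F in Filter.atTop, 1 - (t - s) < ∑ x ∈ F, w x := by
      have : Filter.Tendsto (fun F : Finset V => ∑ x ∈ F, w x) Filter.atTop (𝓝 1) := hs
      exact this.eventually (lt_mem_nhds (by linarith))
    exact h4.exists
  obtain ⟨F, hF⟩ := h3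
  -- part inside A
  have h5 : ∀ F' : Finset V, (∀ x ∈ F', x ∈ A) → ∃ a ∈ A, ∀ x ∈ F', x < a := by
    intro F'
    induction F' using Finset.induction_on with
    | empty =>
      intro _
      obtain ⟨a, ha⟩ := hA.ne
      exact ⟨a, ha, by simp⟩
    | insert y F' hy ih =>
      intro hF'
      obtain ⟨a, ha, hax⟩ := ih (fun x hx => hF' x (Finset.mem_insert_of_mem hx))
      obtain ⟨a', ha', haa'⟩ := hA.nomax (max a y) (by
        rcases le_total a y with h | h
        · rw [max_eq_right h]; exact hF' y (Finset.mem_insert_self _ _)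
        · rw [max_eq_left h]; exact ha)
      refine ⟨a', ha', ?_⟩
      intro x hx
      rcases Finset.mem_insert.1 hx with rfl | hx
      · exact lt_of_le_of_lt (le_max_right _ _) haa'
      · exact (hax x hx).trans (lt_of_le_of_lt (le_max_left _ _) haa')
  have h6 : ∀ F' : Finset V, (∀ x ∈ F', x ∉ A) → ∃ b, b ∉ A ∧ ∀ x ∈ F', b ≤ x := by
    intro F'
    induction F' using Finset.induction_on with
    | empty =>
      intro _
      obtain ⟨b, hb⟩ := hA.cne
      exact ⟨b, hb, by simp⟩
    | insert y F' hy ih =>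
      intro hF'
      obtain ⟨b, hb, hbx⟩ := ih (fun x hx => hF' x (Finset.mem_insert_of_mem hx))
      refine ⟨min b y, ?_, ?_⟩
      · rcases le_total b y with h | h
        · rw [min_eq_left h]; exact hb
        · rw [min_eq_right h]; exact hF' y (Finset.mem_insert_self _ _)
      · intro x hx
        rcases Finset.mem_insert.1 hx with rfl | hx
        · exact min_le_right _ _
        · exact (min_le_left _ _).trans (hbx x hx)
  obtain ⟨a, ha, hax⟩ := h5 (F.filter (· ∈ A)) (fun x hx => (Finset.mem_filter.1 hx).2)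
  obtain ⟨b, hb, hbx⟩ := h6 (F.filter (· ∉ A)) (fun x hx => (Finset.mem_filter.1 hx).2)
  have h7 := sum_le_mu hw hs (F.filter (· ∈ A)) (Iio a) hax
  have h8 := sum_le_mu hw hs (F.filter (· ∉ A)) (Ici b) hbx
  rw [← one_sub_pos hw hs b] at h8
  have h9 := Finset.sum_filter_add_sum_filter_not F (· ∈ A) w
  have h10 := h1 a ha
  have h11 := h2 b hb
  rw [pos] at h10
  linarith

end

end Pool.H66.HC
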